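import Pool.Agent.SPE.Core

/-!
# SPE: main theorem
-/

set_option autoImplicit false

namespace Pool.Agent.SPE

open Polynomial

theorem totalDegree_map_le' {σ R S : Type*} [CommRing R] [CommRing S] (f : R →+* S)
    (w : MvPolynomial σ R) : (MvPolynomial.map f w).totalDegree ≤ w.totalDegree :=
  Finset.sup_mono (MvPolynomial.support_map_subset f w)

theorem totalDegree_map_eq {σ R S : Type*} [CommRing R] [CommRing S] (f : R →+* S)
    (hf : Function.Injective f) (w : MvPolynomial σ R) :
    (MvPolynomial.map f w).totalDegree = w.totalDegree := by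
  unfold MvPolynomial.totalDegree
  rw [MvPolynomial.support_map_of_injective _ hf]

theorem PhiY_map {σ R S : Type*} [CommRing R] [CommRing S] (f : R →+* S) (α : σ → ℕ)
    (w : MvPolynomial σ R) :
    PhiY α (MvPolynomial.map f w) = (PhiY α w).map (MvPolynomial.map f) := by
  induction w using MvPolynomial.induction_on with
  | C c =>
    simp only [MvPolynomial.map_C, PhiY, MvPolynomial.aeval_C]
    rw [Polynomial.algebraMap_apply, Polynomial.algebraMap_apply, Polynomial.map_C,
      MvPolynomial.algebraMap_eq, MvPolynomial.algebraMap_eq, MvPolynomial.map_C]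
  | add p q hp hq => rw [map_add, map_add, map_add, Polynomial.map_add, hp, hq]
  | mul_X p i hp =>
    rw [map_mul, map_mul, map_mul, Polynomial.map_mul, hp]
    congr 1
    simp [PhiY]

section main

variable {O : Type*} [CommRing O] [IsDomain O] [ValuationRing O] {K : Type*} [Field K]
  [Algebra O K] [IsFractionRing O K] [CharZero (IsLocalRing.ResidueField O)]

theorem core (n k c s d : ℕ) (T : Fin k → MvPolynomial (Fin n) K) (hT : ∀ j, Piece c s d (T j))
    (f : MvPolynomial (Fin n) O) (hf : MvPolynomial.map (algebraMap O K) f = ∑ j, T j)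
    (hF : MvPolynomial.map (IsLocalRing.residue O) f ≠ 0) :
    ∃ u z t : ℕ, u ≤ k * d * (d * MM n k c s d) ∧ z ≤ d ∧ t ≤ d * MM n k c s d ∧
      MvPolynomial.eval (fun i : Fin n => ((AA (MM n k c s d) (i + 1) u +
        z * AA (MM n k c s d) (i + 1) t : ℕ) : IsLocalRing.ResidueField O))
        (MvPolynomial.map (IsLocalRing.residue O) f) ≠ 0 := by
  classical
  obtain ⟨r, ι, hrk, hli, hspan⟩ := exists_subfamily (K := K) T
  have hT0 : ∀ j, T (ι j) ≠ 0 := fun j => hli.ne_zero j
  choose h V m p e l G hm hh hV hVfd hVs hs1 hVd hpd hTeq hGeq hGr hGd using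
    fun j => piece_norm (O := O) c s d (T (ι j)) (hT (ι j)) (hT0 j)
  -- r ≥ 1
  have hr1 : 1 ≤ r := by
    by_contra hcon
    have hr0 : r = 0 := by omega
    subst hr0
    have hz : ∀ j, T j = 0 := by
      intro j
      have := hspan j
      rwa [Set.range_eq_empty, Submodule.span_empty, Submodule.mem_bot] at this
    have hf0 : MvPolynomial.map (algebraMap O K) f = 0 := by
      rw [hf]
      exact Finset.sum_eq_zero fun j _ => hz j
    have hf1 : f = 0 := by
      apply MvPolynomial.map_injective _ (IsFractionRing.injective O K)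
      rw [hf0, map_zero]
    exact hF (by rw [hf1, map_zero])
  have hk1 : 1 ≤ k := hr1.trans hrk
  have hs1' : 1 ≤ s := hs1 ⟨0, hr1⟩
  set N := NN k c s d with hN
  set M := MM n k c s d with hM
  have hN1 : 1 ≤ N := by
    rw [hN, NN]
    exact Nat.mul_pos (Nat.pow_pos (Nat.mul_pos hs1' (Nat.succ_pos d)))
      (Nat.pow_pos (Nat.mul_pos (Nat.succ_pos d) (Nat.pow_pos (Nat.succ_pos _))))
  have hDN : (d + 1) ^ c ≤ N := bound_NN k c s d hk1 hs1'
  -- choice of α
  set κ := IsLocalRing.ResidueField O with hκ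
  have hcard : Fintype.card (Σ j : Fin r, Fin (m j)) ≤ k * d := by
    rw [Fintype.card_sigma]
    calc ∑ j : Fin r, Fintype.card (Fin (m j)) ≤ ∑ _j : Fin r, d :=
          Finset.sum_le_sum fun j _ => by rw [Fintype.card_fin]; exact hm j
      _ = r * d := by rw [Finset.sum_const, Finset.card_univ, Fintype.card_fin, smul_eq_mul]
      _ ≤ k * d := Nat.mul_le_mul_right d hrk
  obtain ⟨u, hu, huG⟩ := exists_alpha (κ := κ) n ((d + 1) ^ c) d M
    (Fintype.card (Σ j : Fin r, Fin (m j)))
    (fun x => MvPolynomial.map (IsLocalRing.residue O)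
      (G ((Fintype.equivFin (Σ j : Fin r, Fin (m j))).symm x).1
        ((Fintype.equivFin (Σ j : Fin r, Fin (m j))).symm x).2))
    (fun x => hGr _ _) (fun x => (totalDegree_map_le' _ _).trans (hGd _ _))
    (fun x => resid_junta c d _ _ _ (hpd _ _) _ (hGeq _ _))
    (bound_arith2 n k N ((d + 1) ^ c) hDN hN1)
  have hu' : u ≤ k * d * (d * M) := hu.trans (Nat.mul_le_mul_right _ hcard)
  set α : Fin n → ℕ := fun i => AA M (i + 1) u with hα
  have hαG : ∀ j i, MvPolynomial.eval (fun i => (α i : κ))
      (MvPolynomial.map (IsLocalRing.residue O) (G j i)) ≠ 0 := by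
    intro j i
    have := huG (Fintype.equivFin (Σ j : Fin r, Fin (m j)) ⟨j, i⟩)
    rwa [Equiv.symm_apply_apply] at this
  have hαO : ∀ j i, MvPolynomial.eval (fun i => (α i : κ))
      (MvPolynomial.map (IsLocalRing.residue O) (G j i)) =
      IsLocalRing.residue O (MvPolynomial.eval (fun i => (α i : O)) (G j i)) := by
    intro j i
    rw [MvPolynomial.eval_map, MvPolynomial.eval, MvPolynomial.coe_eval₂Hom, MvPolynomial.hom_eval₂]
    simp only [RingHom.comp_id, map_natCast]
  have hunit : ∀ j i, IsUnit (MvPolynomial.eval (fun i => (α i : O)) (G j i)) := by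
    intro j i
    rw [← IsLocalRing.residue_ne_zero_iff_isUnit, ← hαO]
    exact hαG j i
  have hαK : ∀ j i, MvPolynomial.eval (fun i => (α i : K)) (junta (p j i) (e j i) (l j i)) ≠ 0 := by
    intro j i
    rw [← hGeq, MvPolynomial.eval_map]
    have h1 : MvPolynomial.eval₂ (algebraMap O K) (fun i => (α i : K)) (G j i) =
        algebraMap O K (MvPolynomial.eval (fun i => (α i : O)) (G j i)) := by
      rw [MvPolynomial.eval, MvPolynomial.coe_eval₂Hom, MvPolynomial.hom_eval₂]
      simp only [RingHom.comp_id, map_natCast]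
    rw [h1]
    intro h2
    have h3 : MvPolynomial.eval (fun i => (α i : O)) (G j i) = 0 :=
      IsFractionRing.injective O K (by rw [h2, map_zero])
    have h4 := hunit j i
    rw [h3] at h4
    exact not_isUnit_zero h4
  -- saturation
  obtain ⟨w, hwr, hwT, hTw⟩ := saturate (O := O) (fun j => T (ι j)) hli
  have hfmem : MvPolynomial.map (algebraMap O K) f ∈
      Submodule.span K (Set.range fun i => MvPolynomial.map (algebraMap O K) (w i)) := by
    rw [hf]
    refine Submodule.sum_mem _ fun j _ => ?_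
    have h1 : Submodule.span K (Set.range fun i => T (ι i)) ≤
        Submodule.span K (Set.range fun i => MvPolynomial.map (algebraMap O K) (w i)) := by
      rw [Submodule.span_le]
      rintro _ ⟨i, rfl⟩
      exact hTw i
    exact h1 (hspan j)
  obtain ⟨dd, hdd⟩ := lift_coord (K := K) w hwr f hfmem
  have hdd0 : dd ≠ 0 := by
    rintro rfl
    apply hF
    rw [hdd]
    exact Finset.sum_eq_zero fun j _ => by rw [Pi.zero_apply, zero_smul]
  -- parameters
  set a : Fin n → ℕ := fun i => M.factorial * (i + 1) with ha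
  set b : Fin n → ℕ := fun i => i + 1 with hb
  have ha0 : ∀ i, a i ≠ 0 := fun i => Nat.mul_ne_zero (Nat.factorial_ne_zero M) (Nat.succ_ne_zero _)
  have hb0 : ∀ i, b i ≠ 0 := fun i => Nat.succ_ne_zero _
  have hbinj : Function.Injective b := fun i j hij => Fin.ext (Nat.succ_injective hij)
  -- K side
  obtain ⟨W, ξ, hW, hWfd, hWr, hWs, hWdet⟩ := kside a b α (k * d) s d k r hrk hs1' V hV hVfd hVs hVd
    h hh m hm p e l hαK
  have hTj : ∀ j, T (ι j) = h j * ∏ i, junta (p j i) (e j i) (l j i) := hTeq
  obtain ⟨x, hx⟩ := Om_comb a b α (fun j => T (ι j))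
    (fun j => MvPolynomial.map (algebraMap O K) (w j)) hwT
  have hOmT : (Om a b α (fun j => T (ι j)) : PowerSeries (B (Fin n) K)) =
      (∏ j, PhiS α (∏ i, junta (p j i) (e j i) (l j i))) * ξ := by
    rw [Om_coe, ← hWdet]
    simp only [hTj]
  set G0 : Polynomial (Y (Fin n) O) := ∏ j, PhiY α (∏ i, G j i) with hG0
  have hG0K : upS (Fin n) K ((G0.map (MvPolynomial.map (algebraMap O K)) : Polynomial (Y (Fin n) K)) :
          PowerSeries (Y (Fin n) K)) = ∏ j, PhiS α (∏ i, junta (p j i) (e j i) (l j i)) := by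
    rw [hG0, Polynomial.map_prod]
    have h1 : ∀ j, (PhiY α (∏ i, G j i)).map (MvPolynomial.map (algebraMap O K)) =
        PhiY α (∏ i, junta (p j i) (e j i) (l j i)) := by
      intro j
      rw [← PhiY_map, map_prod]
      simp only [hGeq]
    simp only [h1, PhiS]
    rw [← Polynomial.coeToPowerSeries.ringHom_apply, map_prod, map_prod]
    rfl
  have hG00 : G0.coeff 0 =
      MvPolynomial.C (∏ j, ∏ i, MvPolynomial.eval (fun i => (α i : O)) (G j i)) := by
    rw [hG0, ← map_prod, coeff_zero_PhiY, map_prod]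
    simp only [map_prod]
  have hG0u : IsUnit (∏ j, ∏ i, MvPolynomial.eval (fun i => (α i : O)) (G j i)) := by
    rw [IsUnit.prod_univ_iff]
    intro j
    rw [IsUnit.prod_univ_iff]
    exact hunit j
  -- residue side
  set wb : Fin r → MvPolynomial (Fin n) κ :=
    fun j => MvPolynomial.map (IsLocalRing.residue O) (w j) with hwb
  have hOm0 : Om a b α wb ≠ 0 := Om_ne a b ha0 hb0 hbinj α wb hwr
  -- degrees
  have hTd : ∀ j, (T j).totalDegree ≤ d := fun j => (hT j).1
  have hwd : ∀ j, (w j).totalDegree ≤ d := by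
    intro j
    rw [← totalDegree_map_eq (algebraMap O K) (IsFractionRing.injective O K),
      ← MvPolynomial.mem_restrictTotalDegree]
    have h1 : Submodule.span K (Set.range fun i => T (ι i)) ≤
        MvPolynomial.restrictTotalDegree (Fin n) K d := by
      rw [Submodule.span_le]
      rintro _ ⟨i, rfl⟩
      exact (MvPolynomial.mem_restrictTotalDegree _ _ _).2 (hTd (ι i))
    exact h1 (hwT j)
  have hOmdeg : (Om a b α wb).natDegree ≤ k * d := by
    refine (Om_natDegree a b α wb d fun j => ?_).trans (Nat.mul_le_mul_right d hrk)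
    exact PhiY_natDegree α _ d ((totalDegree_map_le' _ _).trans (hwd j))
  set m0 := (Om a b α wb).natTrailingDegree with hm0
  have hm0le : m0 ≤ k * d := (Polynomial.natTrailingDegree_le_natDegree _).trans hOmdeg
  have hlow : ∀ m < m0, (Om a b α wb).coeff m = 0 := fun m hm =>
    Polynomial.coeff_eq_zero_of_lt_natTrailingDegree hm
  have hne : (Om a b α wb).coeff m0 ≠ 0 := by
    have := Polynomial.trailingCoeff_nonzero_iff_nonzero.2 hOm0
    exact this
  obtain ⟨V', c0, hV', hV'fd, hV'r, hc0, hTV⟩ := resid_step a b α w G0 _ hG00 hG0u W hWfd hW (k * d)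
    _ ξ hWs x (by rw [hx, hOmT, hG0K]) m0 hm0le hlow
  have hNle : Module.finrank κ V' ≤ N := by
    refine hV'r.trans (hWr.trans (le_of_eq ?_))
    rw [hN, NN, mul_pow, ← pow_mul, pow_two]
  have hzeta := zeta a b ha0 hb0 hbinj V' hV'fd hV' _ N M hNle _ hTV
    (mul_ne_zero (fun h1 => hc0 (by
      have h2 := Polynomial.C_eq_zero.1 h1
      exact (MvPolynomial.C_eq_zero).1 h2)) hne)
    (by
      rw [Fintype.card_fin]
      exact bound_arith n k r N _ hrk hN1 rfl)
  have hOmnd : ¬ (PowerSeries.X : PowerSeries κ) ^ (M + 1) ∣ ev a b κ ((Om a b α wb).coeff m0) := by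
    intro h1
    apply hzeta
    rw [map_mul]
    exact Dvd.dvd.mul_left h1 _
  -- a coefficient of small order
  have hex : ∃ m, ¬ (PowerSeries.X : PowerSeries κ) ^ (M + 1) ∣
      ev a b κ (C ((PhiY α (∑ j, dd j • wb j)).coeff m)) := by
    by_contra hcon
    push Not at hcon
    exact hOmnd (Om_dvd a b α (M + 1) wb dd hdd0 hcon m0)
  obtain ⟨m1, hm1⟩ := hex
  have hFsum : ∑ j, dd j • wb j = MvPolynomial.map (IsLocalRing.residue O) f := hdd.symm
  rw [hFsum, ev_C] at hm1
  have hFd : (MvPolynomial.map (IsLocalRing.residue O) f).totalDegree ≤ d := by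
    refine (totalDegree_map_le' _ _).trans ?_
    rw [← totalDegree_map_eq (algebraMap O K) (IsFractionRing.injective O K), hf]
    refine MvPolynomial.totalDegree_finsetSum_le fun j _ => hTd j
  obtain ⟨z, t, hz, ht, hne'⟩ := last_step n d M α (MvPolynomial.map (IsLocalRing.residue O) f) hFd m1
    hm1
  exact ⟨u, z, t, hu', hz, ht, hne'⟩

end main

end Pool.Agent.SPE
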