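import Pool.Agent.SPE.Defs

/-!
# SPE: the coefficients of `PhiY α w`
-/

set_option autoImplicit false

namespace Pool.Agent.SPE

open Polynomial

variable {σ : Type*}

/- PLAN. `MvPolynomial.aeval_natDegree_le` (see `Pool/Agent/SPD/Trunc.lean`, `exists_point`). -/
theorem PhiY_natDegree {R : Type*} [CommRing R] (α : σ → ℕ) (w : MvPolynomial σ R) (d : ℕ)
    (hd : w.totalDegree ≤ d) : (PhiY α w).natDegree ≤ d := by
  classical
  have h1 : ∀ i : σ, (C (MvPolynomial.C (α i : R)) + X * C (MvPolynomial.X i) :
      Polynomial (Y σ R)).natDegree ≤ 1 := by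
    intro i
    refine (natDegree_add_le _ _).trans (max_le ?_ ?_)
    · rw [natDegree_C]
      exact Nat.zero_le 1
    · refine (natDegree_mul_le).trans ?_
      rw [natDegree_C, add_zero]
      exact natDegree_X_le
  unfold PhiY
  rw [MvPolynomial.aeval_def, MvPolynomial.eval₂_eq]
  refine natDegree_sum_le_of_forall_le _ _ fun e he => ?_
  refine (natDegree_mul_le).trans ?_
  have h2 : (algebraMap R (Polynomial (Y σ R)) (MvPolynomial.coeff e w)).natDegree = 0 := by
    rw [Polynomial.algebraMap_apply, natDegree_C]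
  rw [h2, zero_add]
  refine (natDegree_prod_le _ _).trans ?_
  have h3 : ∑ i ∈ e.support, ((C (MvPolynomial.C (α i : R)) + X * C (MvPolynomial.X i) :
      Polynomial (Y σ R)) ^ e i).natDegree ≤ ∑ i ∈ e.support, e i := by
    refine Finset.sum_le_sum fun i _ => ?_
    refine (natDegree_pow_le).trans ?_
    calc e i * _ ≤ e i * 1 := Nat.mul_le_mul_left _ (h1 i)
      _ = e i := mul_one _
  refine h3.trans (le_trans ?_ hd)
  exact MvPolynomial.le_totalDegree he

private theorem PhiY_X {R : Type*} [CommRing R] (α : σ → ℕ) (i : σ) :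
    PhiY α (MvPolynomial.X i : MvPolynomial σ R) =
      C (MvPolynomial.C (α i : R)) + X * C (MvPolynomial.X i) := by
  unfold PhiY
  rw [MvPolynomial.aeval_X]

private theorem PhiY_C {R : Type*} [CommRing R] (α : σ → ℕ) (r : R) :
    PhiY α (MvPolynomial.C r : MvPolynomial σ R) = C (MvPolynomial.C r) := by
  unfold PhiY
  rw [MvPolynomial.aeval_C]
  rfl

private theorem pderiv_PhiY {R : Type*} [CommRing R] (α : σ → ℕ) (w : MvPolynomial σ R) (i : σ) :
    ∀ m : ℕ, MvPolynomial.pderiv i ((PhiY α w).coeff m) =
      (X * PhiY α (MvPolynomial.pderiv i w)).coeff m := by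
  classical
  induction w using MvPolynomial.induction_on with
  | C r =>
    intro m
    rw [PhiY_C, MvPolynomial.pderiv_C, map_zero, mul_zero, coeff_zero, coeff_C]
    split_ifs
    · rw [MvPolynomial.pderiv_C]
    · rw [map_zero]
  | add p q hp hq =>
    intro m
    rw [map_add, map_add, map_add, mul_add, coeff_add, coeff_add, map_add, hp m, hq m]
  | mul_X p j hp =>
    intro m
    have e1 : PhiY α (p * MvPolynomial.X j) = PhiY α p * C (MvPolynomial.C (α j : R)) +
        X * (PhiY α p * C (MvPolynomial.X j)) := by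
      rw [map_mul, PhiY_X]
      ring
    have e2 : MvPolynomial.pderiv i (p * MvPolynomial.X j) =
        p * MvPolynomial.pderiv i (MvPolynomial.X j) + MvPolynomial.X j * MvPolynomial.pderiv i p := by
      rw [Derivation.leibniz, smul_eq_mul, smul_eq_mul]
    have e3 : PhiY α (MvPolynomial.pderiv i (MvPolynomial.X j : MvPolynomial σ R)) =
        C (MvPolynomial.pderiv i (MvPolynomial.X j : MvPolynomial σ R)) := by
      rw [MvPolynomial.pderiv_X]
      by_cases h : i = j
      · subst h
        rw [Pi.single_eq_same, map_one, map_one]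
      · rw [Pi.single_eq_of_ne (Ne.symm h), map_zero, map_zero]
    rw [e1, e2, map_add, map_mul, map_mul, e3, PhiY_X]
    cases m with
    | zero =>
      have h0 := hp 0
      rw [coeff_X_mul_zero] at h0 ⊢
      rw [coeff_add, coeff_mul_C, coeff_X_mul_zero, add_zero, Derivation.leibniz,
        MvPolynomial.pderiv_C, smul_zero, zero_add, h0, smul_zero]
    | succ m =>
      have h1 := hp (m + 1)
      have h2 := hp m
      rw [coeff_X_mul] at h1
      have e4 : (PhiY α p * C (MvPolynomial.pderiv i (MvPolynomial.X j)) +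
          (C (MvPolynomial.C (α j : R)) + X * C (MvPolynomial.X j)) *
            PhiY α (MvPolynomial.pderiv i p)) =
          PhiY α p * C (MvPolynomial.pderiv i (MvPolynomial.X j)) +
          (PhiY α (MvPolynomial.pderiv i p) * C (MvPolynomial.C (α j : R)) +
            (X * PhiY α (MvPolynomial.pderiv i p)) * C (MvPolynomial.X j)) := by
        ring
      rw [coeff_X_mul, e4, coeff_add, coeff_add, coeff_add, coeff_X_mul, coeff_mul_C, coeff_mul_C,
        coeff_mul_C, coeff_mul_C, coeff_mul_C, ← h2, ← h1, map_add, Derivation.leibniz,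
        Derivation.leibniz, MvPolynomial.pderiv_C]
      simp only [smul_eq_mul, mul_zero, zero_add]
      ring

/- `∂_{y_i}` of the `z^(m+1)`-coefficient of `PhiY α w` is the `z^m`-coefficient of `PhiY α (∂_i w)`.
PLAN. `MvPolynomial.induction_on w` (product with a variable: `coeff_mul_X`-type formulas), or: both
`w ↦ cwP (pd i) (PhiY α w)` and `w ↦ X * PhiY α (∂_i w)` are derivations along `PhiY α`. -/
theorem pderiv_coeff_PhiY {R : Type*} [CommRing R] (α : σ → ℕ) (w : MvPolynomial σ R) (i : σ)
    (m : ℕ) : MvPolynomial.pderiv i ((PhiY α w).coeff (m + 1)) =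
      (PhiY α (MvPolynomial.pderiv i w)).coeff m := by
  rw [pderiv_PhiY, coeff_X_mul]

theorem pderiv_coeff_zero_PhiY {R : Type*} [CommRing R] (α : σ → ℕ) (w : MvPolynomial σ R) (i : σ) :
    MvPolynomial.pderiv i ((PhiY α w).coeff 0) = 0 := by
  rw [pderiv_PhiY, coeff_X_mul_zero]

end Pool.Agent.SPE
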