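import Pool.Agent.SPE.Clo
import Pool.Agent.SPE.PhC

/-!
# SPE: the space of the `z`-coefficients of `PhiY α v`, `v ∈ V`
-/

set_option autoImplicit false

namespace Pool.Agent.SPE

open Polynomial

variable {σ : Type*} {K : Type*} [Field K]

/-- The `z^m`-coefficient of `PhiY α` as a linear map. -/
private noncomputable def lc (α : σ → ℕ) (m : ℕ) : MvPolynomial σ K →ₗ[K] Y σ K :=
  ((Polynomial.lcoeff (Y σ K) m).restrictScalars K) ∘ₗ
    (PhiY α : MvPolynomial σ K →ₐ[K] Polynomial (Y σ K)).toLinearMap

private theorem lc_apply (α : σ → ℕ) (m : ℕ) (w : MvPolynomial σ K) :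
    lc α m w = (PhiY α w).coeff m := rfl

private theorem finrank_sup_range {ι : Type*} {M : Type*} [AddCommGroup M] [Module K M]
    (S : ι → Submodule K M) (hfd : ∀ i, FiniteDimensional K (S i)) (s : ℕ)
    (hs : ∀ i, Module.finrank K (S i) ≤ s) (t : Finset ι) :
    Module.finrank K (t.sup S : Submodule K M) ≤ s * t.card := by
  classical
  induction t using Finset.induction_on with
  | empty => simp
  | insert a t ha ih =>
    rw [Finset.sup_insert, Finset.card_insert_of_notMem ha]
    have := hfd
    have h1 : FiniteDimensional K (t.sup S : Submodule K M) := Submodule.finiteDimensional_finset_sup t S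
    have h2 := Submodule.finrank_add_le_finrank_add_finrank (S a) (t.sup S)
    have h3 := hs a
    calc Module.finrank K (S a ⊔ t.sup S : Submodule K M)
        ≤ Module.finrank K (S a) + Module.finrank K (t.sup S : Submodule K M) := h2
      _ ≤ s + s * t.card := Nat.add_le_add h3 ih
      _ = s * (t.card + 1) := by ring

/- PLAN. `H = ⨆ m : Fin (d + 1), V.map (z^m-coefficient of PhiY α)` (a linear map);
`Submodule.finrank_iSup_le`-type bound or induction; closed by the two lemmas above. `upS`
coefficients are constants `C _` in `t`. -/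
theorem hspace (α : σ → ℕ) (s d : ℕ) (V : Submodule K (MvPolynomial σ K)) (hV : Closed V)
    (hfd : FiniteDimensional K V) (hs : Module.finrank K V ≤ s) (hd : ∀ v ∈ V, v.totalDegree ≤ d) :
    ∃ H : Submodule K (Y σ K), Closed H ∧ FiniteDimensional K H ∧
      Module.finrank K H ≤ s * (d + 1) ∧ ∀ h ∈ V, ∀ μ, Small μ 0 H (PhiS α h) := by
  classical
  have hfd' : ∀ m, FiniteDimensional K (V.map (lc (K := K) α m)) := fun m => inferInstance
  have hmem : ∀ m ≤ d, ∀ w ∈ V, (PhiY α w).coeff m ∈
      ((Finset.range (d + 1)).sup fun m => V.map (lc (K := K) α m)) := by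
    intro m hm w hw
    have h1 : V.map (lc (K := K) α m) ≤
        (Finset.range (d + 1)).sup fun m => V.map (lc (K := K) α m) :=
      Finset.le_sup (f := fun m => V.map (lc (K := K) α m))
        (Finset.mem_range.2 (Nat.lt_succ_of_le hm))
    exact h1 (Submodule.mem_map.2 ⟨w, hw, lc_apply α m w⟩)
  refine ⟨(Finset.range (d + 1)).sup fun m => V.map (lc (K := K) α m), ?_, ?_, ?_, ?_⟩
  · intro v hv i
    have h2 : ((Finset.range (d + 1)).sup fun m => V.map (lc (K := K) α m)) ≤
        ((Finset.range (d + 1)).sup fun m => V.map (lc (K := K) α m)).comap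
          (MvPolynomial.pderiv i : Derivation K (MvPolynomial σ K) (MvPolynomial σ K)).toLinearMap := by
      refine Finset.sup_le fun m hm => ?_
      rintro _ ⟨w, hw, rfl⟩
      rw [Submodule.mem_comap, lc_apply]
      change MvPolynomial.pderiv i ((PhiY α w).coeff m) ∈
        ((Finset.range (d + 1)).sup fun m => V.map (lc (K := K) α m))
      rcases m with _ | m
      · rw [pderiv_coeff_zero_PhiY]
        exact Submodule.zero_mem _
      · rw [pderiv_coeff_PhiY]
        have := Finset.mem_range.1 hm
        exact hmem m (by omega) _ (hV w hw i)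
    exact h2 hv
  · exact Submodule.finiteDimensional_finset_sup _ _
  · have h3 := finrank_sup_range (fun m => V.map (lc (K := K) α m)) hfd' s
      (fun m => (Submodule.finrank_map_le _ _).trans hs) (Finset.range (d + 1))
    rwa [Finset.card_range] at h3
  · intro h hh μ m _
    have h4 : PowerSeries.coeff m (PhiS α h) = C ((PhiY α h).coeff m) := by
      simp only [PhiS, upS, PowerSeries.coeff_map, Polynomial.coeff_coe]
    rw [h4]
    refine ⟨(natDegree_C _).le, fun k => ?_⟩
    rw [coeff_C]
    split_ifs
    · rcases Nat.lt_or_ge d m with hdm | hdm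
      · rw [coeff_eq_zero_of_natDegree_lt
          (lt_of_le_of_lt (PhiY_natDegree α h d (hd h hh)) hdm)]
        exact Submodule.zero_mem _
      · exact hmem m hdm h hh
    · exact Submodule.zero_mem _

end Pool.Agent.SPE
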