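import Mathlib

/-!
Project SPE (MP_e2be99_lc): explicit hitting sets of polynomial size for the border of sums of `k`
products.  Common definitions.  Paper proof: `/team-store/pit7_border.md`.

`Y σ R = MvPolynomial σ R` (variables `y_i`), `B σ R = (Y σ R)[X]` (polynomials in `t`), power series
in `z` over `B σ R`.
-/

set_option autoImplicit false

namespace Pool.Agent.SPE

open Polynomial

/-- Polynomials in the variables `y_i`. -/
abbrev Y (σ : Type*) (R : Type*) [CommRing R] : Type _ := MvPolynomial σ R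

/-- Polynomials in `t` with coefficients in `Y σ R`. -/
abbrev B (σ : Type*) (R : Type*) [CommRing R] : Type _ := Polynomial (MvPolynomial σ R)

section cw

variable {A : Type*} [CommRing A]

/-- An additive map applied to all coefficients of a polynomial. -/
noncomputable def cwP (δ : A →+ A) : A[X] →+ A[X] where
  toFun p := p.sum fun m c => monomial m (δ c)
  map_zero' := by simp
  map_add' p q := by
    refine Polynomial.sum_add_index p q _ (fun m => by simp) fun m c d => ?_
    rw [map_add, map_add]

theorem coeff_cwP (δ : A →+ A) (p : A[X]) (m : ℕ) : (cwP δ p).coeff m = δ (p.coeff m) := by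
  classical
  show (p.sum fun m c => monomial m (δ c)).coeff m = _
  rw [Polynomial.sum_def, Polynomial.finsetSum_coeff]
  simp only [Polynomial.coeff_monomial]
  rw [Finset.sum_ite_eq' p.support m fun i => δ (p.coeff i)]
  split_ifs with h
  · rfl
  · rw [Polynomial.notMem_support_iff.1 h, map_zero]

/-- An additive map applied to all coefficients of a power series. -/
noncomputable def cwS (δ : A →+ A) : PowerSeries A →+ PowerSeries A where
  toFun p := PowerSeries.mk fun m => δ (PowerSeries.coeff m p)
  map_zero' := by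
    ext m
    simp
  map_add' p q := by
    ext m
    simp

theorem coeff_cwS (δ : A →+ A) (p : PowerSeries A) (m : ℕ) :
    PowerSeries.coeff m (cwS δ p) = δ (PowerSeries.coeff m p) := by
  show PowerSeries.coeff m (PowerSeries.mk fun m => δ (PowerSeries.coeff m p)) = _
  rw [PowerSeries.coeff_mk]

end cw

section D

variable {σ : Type*} [Fintype σ] [DecidableEq σ]

/-- `P(t) = prod_i (1 - b_i t)` over the integers. -/
noncomputable def PZ (b : σ → ℕ) : ℤ[X] := ∏ i, (1 - C (b i : ℤ) * X)

/-- `G_i(t) = a_i prod_{j ≠ i} (1 - b_j t)` over the integers. -/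
noncomputable def GZ (a b : σ → ℕ) (i : σ) : ℤ[X] :=
  C (a i : ℤ) * ∏ j ∈ Finset.univ.erase i, (1 - C (b j : ℤ) * X)

/-- An integral polynomial in `t` as an element of `B σ R`. -/
noncomputable def cB (σ : Type*) (R : Type*) [CommRing R] (p : ℤ[X]) : B σ R :=
  p.map (Int.castRingHom (MvPolynomial σ R))

omit [Fintype σ] [DecidableEq σ] in
/-- Partial derivative as an additive map. -/
noncomputable def pd {R : Type*} [CommRing R] (i : σ) : Y σ R →+ Y σ R :=
  (MvPolynomial.pderiv i : Derivation R (MvPolynomial σ R) (MvPolynomial σ R)).toLinearMap.toAddMonoidHom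

/-- `D' = t P d/dt + sum_i t G_i d/dy_i`. -/
noncomputable def DB (a b : σ → ℕ) (R : Type*) [CommRing R] : B σ R →+ B σ R where
  toFun ρ := X * (cB σ R (PZ b) * derivative ρ + ∑ i, cB σ R (GZ a b i) * cwP (pd i) ρ)
  map_zero' := by simp
  map_add' p q := by
    simp only [map_add, mul_add, Finset.sum_add_distrib]
    ring

/-- `D'` on power series in `z`. -/
noncomputable def DZ (a b : σ → ℕ) (R : Type*) [CommRing R] :
    PowerSeries (B σ R) →+ PowerSeries (B σ R) := cwS (DB a b R)

end D

section V

variable {σ : Type*} {K : Type*} [Field K]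

/-- Closed under all partial derivatives. -/
def Closed (V : Submodule K (Y σ K)) : Prop := ∀ v ∈ V, ∀ i, MvPolynomial.pderiv i v ∈ V

/-- `K[t]_{≤ q} ⊗ V`. -/
def TV (q : ℕ) (V : Submodule K (Y σ K)) (ρ : B σ K) : Prop :=
  ρ.natDegree ≤ q ∧ ∀ m, ρ.coeff m ∈ V

/-- The coefficients of `z^m`, `m ≤ μ`, are in `K[t]_{≤ q} ⊗ V`. -/
def Small (μ q : ℕ) (V : Submodule K (Y σ K)) (ξ : PowerSeries (B σ K)) : Prop :=
  ∀ m ≤ μ, TV q V (PowerSeries.coeff m ξ)

end V

section Phi

variable {σ : Type*} {R : Type*} [CommRing R]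

/-- `x_i ↦ α_i + z y_i`, as a polynomial in `z` over `Y σ R`. -/
noncomputable def PhiY (α : σ → ℕ) : MvPolynomial σ R →ₐ[R] Polynomial (Y σ R) :=
  MvPolynomial.aeval fun i => C (MvPolynomial.C (α i : R)) + X * C (MvPolynomial.X i)

/-- Polynomials in `z` over `Y σ R` as polynomials in `z` over `B σ R`. -/
noncomputable def upP (σ R : Type*) [CommRing R] : Polynomial (Y σ R) →+* Polynomial (B σ R) :=
  Polynomial.mapRingHom (C : Y σ R →+* B σ R)

/-- Power series in `z` over `Y σ R` as power series in `z` over `B σ R`. -/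
noncomputable def upS (σ R : Type*) [CommRing R] : PowerSeries (Y σ R) →+* PowerSeries (B σ R) :=
  PowerSeries.map (C : Y σ R →+* B σ R)

/-- `x_i ↦ α_i + z y_i`, as a power series in `z` over `B σ R`. -/
noncomputable def PhiS (α : σ → ℕ) (w : MvPolynomial σ R) : PowerSeries (B σ R) :=
  upS σ R (PhiY α w : PowerSeries (Y σ R))

end Phi

section Form

variable {σ : Type*} [Fintype σ] {R : Type*} [CommRing R]

/-- The affine form `e + sum_i m_i x_i`. -/
noncomputable def aff (e : R) (m : σ → R) : MvPolynomial σ R :=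
  MvPolynomial.C e + ∑ i, MvPolynomial.C (m i) * MvPolynomial.X i

/-- `p(l_1, ..., l_c)` for affine forms `l_b`. -/
noncomputable def junta {c : ℕ} (p : MvPolynomial (Fin c) R) (e : Fin c → R) (m : Fin c → σ → R) :
    MvPolynomial σ R :=
  MvPolynomial.aeval (fun b => aff (e b) (m b)) p

/-- A piece: `h * prod_i p_i(l_i1, ..., l_ic)`, `h` in a space of dimension at most `s` closed under
partial derivatives, at most `d` factors, `p_i` of degree at most `d`, total degree at most `d`. -/
def Piece (c s d : ℕ) {K : Type*} [Field K] (T : MvPolynomial σ K) : Prop :=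
  T.totalDegree ≤ d ∧ ∃ (h : MvPolynomial σ K) (V : Submodule K (MvPolynomial σ K)) (m : ℕ)
    (p : Fin m → MvPolynomial (Fin c) K) (e : Fin m → Fin c → K) (l : Fin m → Fin c → σ → K),
    m ≤ d ∧ h ∈ V ∧ Closed V ∧ FiniteDimensional K V ∧ Module.finrank K V ≤ s ∧
    (∀ i, (p i).totalDegree ≤ d) ∧ T = h * ∏ i, junta (p i) (e i) (l i)

/-- The dimension bound `N`. -/
def NN (k c s d : ℕ) : ℕ := (s * (d + 1)) ^ k * ((d + 1) * (k * d + 1) ^ c) ^ (k ^ 2)

/-- The order bound `M`. -/
def MM (n k c s d : ℕ) : ℕ := (n + 1) * NN k c s d * (NN k c s d + k ^ 2)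

/-- `A_i(t) = M! sum_{r=1..M} (i t)^r / r`, a natural number. -/
def AA (M i t : ℕ) : ℕ := ∑ r ∈ Finset.Icc 1 M, (M.factorial / r) * (i * t) ^ r

end Form

end Pool.Agent.SPE
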