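import Pool.Agent.SPE.Lft
import Pool.Agent.SPE.Defs

/-!
# SPE: residues of spaces closed under derivatives
-/

set_option autoImplicit false

namespace Pool.Agent.SPE

open Polynomial

variable {σ : Type*} {O : Type*} [CommRing O] [IsDomain O] [ValuationRing O]
  {K : Type*} [Field K] [Algebra O K] [IsFractionRing O K]

/- PLAN. `V'` = span of the residues of all `v : MvPolynomial σ O` with `map (algebraMap O K) v ∈ V`
(the set of these residues is already a submodule).  Closed: `MvPolynomial.pderiv_map`.
`finrank`: a linearly independent family of residues of size `m` lifts to a linearly independent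
family in `V` (`indep_of_residue`), so `m ≤ finrank V`; finite dimensional for the same reason
(`rank`/`Module.finrank` from bounds on independent families, e.g. `exists_linearIndependent`). -/
theorem resid_space (V : Submodule K (Y σ K)) (hfd : FiniteDimensional K V) (hV : Closed V) :
    ∃ V' : Submodule (IsLocalRing.ResidueField O) (Y σ (IsLocalRing.ResidueField O)),
      Closed V' ∧ FiniteDimensional (IsLocalRing.ResidueField O) V' ∧
      Module.finrank (IsLocalRing.ResidueField O) V' ≤ Module.finrank K V ∧
      ∀ v : MvPolynomial σ O, MvPolynomial.map (algebraMap O K) v ∈ V →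
        MvPolynomial.map (IsLocalRing.residue O) v ∈ V' := by
  classical
  let V' : Submodule (IsLocalRing.ResidueField O) (Y σ (IsLocalRing.ResidueField O)) :=
    { carrier := {x | ∃ v : MvPolynomial σ O, MvPolynomial.map (algebraMap O K) v ∈ V ∧
        MvPolynomial.map (IsLocalRing.residue O) v = x}
      add_mem' := by
        rintro _ _ ⟨v, hv, rfl⟩ ⟨w, hw, rfl⟩
        exact ⟨v + w, by rw [map_add]; exact V.add_mem hv hw, by rw [map_add]⟩
      zero_mem' := ⟨0, by rw [map_zero]; exact V.zero_mem, by rw [map_zero]⟩
      smul_mem' := by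
        rintro c _ ⟨v, hv, rfl⟩
        obtain ⟨o, rfl⟩ := IsLocalRing.residue_surjective c
        refine ⟨MvPolynomial.C o * v, ?_, ?_⟩
        · rw [map_mul, MvPolynomial.map_C, MvPolynomial.C_mul']
          exact V.smul_mem _ hv
        · rw [map_mul, MvPolynomial.map_C, MvPolynomial.C_mul'] }
  have hmem : ∀ x, x ∈ V' ↔ ∃ v : MvPolynomial σ O, MvPolynomial.map (algebraMap O K) v ∈ V ∧
      MvPolynomial.map (IsLocalRing.residue O) v = x := fun x => Iff.rfl
  have hcl : Closed V' := by
    intro x hx i
    obtain ⟨v, hv, rfl⟩ := (hmem x).1 hx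
    refine (hmem _).2 ⟨MvPolynomial.pderiv i v, ?_, ?_⟩
    · rw [← MvPolynomial.pderiv_map]
      exact hV _ hv i
    · rw [MvPolynomial.pderiv_map]
  have hrank : Module.rank (IsLocalRing.ResidueField O) V' ≤ (Module.finrank K V : ℕ) := by
    refine rank_le fun s hs => ?_
    set m := s.card with hm
    let e : Fin m ≃ s := (Fintype.equivFinOfCardEq (Fintype.card_coe s)).symm
    have hs' : LinearIndependent (IsLocalRing.ResidueField O)
        (fun j : Fin m => ((e j : V') : Y σ (IsLocalRing.ResidueField O))) := by
      have h1 : LinearIndependent (IsLocalRing.ResidueField O) (fun j : Fin m => ((e j : s) : V')) :=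
        hs.comp e e.injective
      exact h1.map' V'.subtype V'.ker_subtype
    have hch : ∀ j : Fin m, ∃ v : MvPolynomial σ O, MvPolynomial.map (algebraMap O K) v ∈ V ∧
        MvPolynomial.map (IsLocalRing.residue O) v = ((e j : V') : Y σ (IsLocalRing.ResidueField O)) := fun j =>
      (hmem _).1 (e j : V').2
    choose w hwV hw using hch
    have hwi : LinearIndependent (IsLocalRing.ResidueField O)
        (fun j => MvPolynomial.map (IsLocalRing.residue O) (w j)) := by
      have : (fun j => MvPolynomial.map (IsLocalRing.residue O) (w j)) =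
          fun j : Fin m => ((e j : V') : Y σ (IsLocalRing.ResidueField O)) := funext hw
      rw [this]
      exact hs'
    have hK := indep_of_residue (K := K) w hwi
    have hKV : LinearIndependent K (fun j : Fin m => (⟨MvPolynomial.map (algebraMap O K) (w j), hwV j⟩ : V)) := by
      refine LinearIndependent.of_comp V.subtype ?_
      exact hK
    have := hKV.fintype_card_le_finrank
    simpa using this
  refine ⟨V', hcl, ?_, ?_, fun v hv => (hmem _).2 ⟨v, hv, rfl⟩⟩
  · have h1 : Module.rank (IsLocalRing.ResidueField O) V' < Cardinal.aleph0 :=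
      lt_of_le_of_lt hrank Cardinal.natCast_lt_aleph0
    exact Module.rank_lt_aleph0_iff.1 h1
  · exact Module.finrank_le_of_rank_le hrank

end Pool.Agent.SPE
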