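import Pool.Agent.SPE.GrA
import Pool.Agent.SPE.Resid

/-!
# SPE: juntas and their residues lie in small closed spaces
-/

set_option autoImplicit false

namespace Pool.Agent.SPE

open Polynomial

variable {σ : Type*} [Fintype σ]

private theorem jm_aff {K : Type*} [Field K] {c : ℕ} (e : Fin c → K) (l : Fin c → σ → K) (b : Fin c) :
    aff (e b) (l b) ∈ Ap l 1 := by
  have h1 : aff (e b) (l b) = e b • (1 : Y σ K) + aff (0 : K) (l b) := by
    unfold aff
    rw [map_zero, zero_add, MvPolynomial.smul_eq_C_mul, mul_one]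
  rw [h1]
  refine Submodule.add_mem _ (Submodule.smul_mem _ _ (one_mem_Ap l 1)) ?_
  refine ⟨MvPolynomial.X b, ?_, ?_⟩
  · rw [SetLike.mem_coe, MvPolynomial.mem_restrictTotalDegree]
    exact (MvPolynomial.totalDegree_X (R := K) b).le
  · show MvPolynomial.aeval (R := K) (fun b => aff (0 : K) (l b)) (MvPolynomial.X b) = _
    rw [MvPolynomial.aeval_X]

private theorem jm_pow {K : Type*} [Field K] {c : ℕ} (l : Fin c → σ → K) {x : Y σ K} (hx : x ∈ Ap l 1) (n : ℕ) :
    x ^ n ∈ Ap l n := by
  induction n with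
  | zero =>
    rw [pow_zero]
    exact one_mem_Ap l 0
  | succ n ih =>
    rw [pow_succ]
    exact Ap_mul l ih hx

private theorem jm_prod {K : Type*} [Field K] {c : ℕ} (e : Fin c → K) (l : Fin c → σ → K) (m : Fin c → ℕ)
    (s : Finset (Fin c)) : ∏ b ∈ s, aff (e b) (l b) ^ m b ∈ Ap l (∑ b ∈ s, m b) := by
  classical
  induction s using Finset.induction_on with
  | empty =>
    rw [Finset.prod_empty]
    exact one_mem_Ap l _
  | insert a s ha ih =>
    rw [Finset.prod_insert ha, Finset.sum_insert ha]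
    exact Ap_mul l (jm_pow l (jm_aff e l a) _) ih

/- PLAN. `junta p e l = aeval (aff 0 (l b)) (p')`, `p' = aeval (X b + C (e b)) p`,
`p'.totalDegree ≤ p.totalDegree` (as `MvPolynomial.totalDegree` of a substitution by affine forms, or
induction on monomials with `totalDegree_mul`, `totalDegree_pow`). -/
theorem junta_mem_Ap {K : Type*} [Field K] {c : ℕ} (p : MvPolynomial (Fin c) K) (e : Fin c → K)
    (l : Fin c → σ → K) (d : ℕ) (hp : p.totalDegree ≤ d) : junta p e l ∈ Ap l d := by
  unfold junta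
  rw [MvPolynomial.aeval_def, MvPolynomial.eval₂_eq']
  refine Submodule.sum_mem _ fun m hm => ?_
  have h1 : (algebraMap K (MvPolynomial σ K)) (MvPolynomial.coeff m p) * ∏ b, aff (e b) (l b) ^ m b =
      MvPolynomial.coeff m p • ∏ b, aff (e b) (l b) ^ m b := (Algebra.smul_def _ _).symm
  rw [h1]
  refine Submodule.smul_mem _ _ (Ap_mono l ?_ (jm_prod e l m Finset.univ))
  have h2 := (MvPolynomial.le_totalDegree hm).trans hp
  rwa [Finsupp.sum_fintype _ _ (fun _ => rfl)] at h2

variable {O : Type*} [CommRing O] [IsDomain O] [ValuationRing O]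
  {K : Type*} [Field K] [Algebra O K] [IsFractionRing O K]

/- PLAN. `resid_space (Ap l d)`, `Ap_closed`, `Ap_finrank`. -/
theorem resid_junta (c d : ℕ) (p : MvPolynomial (Fin c) K) (e : Fin c → K) (l : Fin c → σ → K)
    (hp : p.totalDegree ≤ d) (G : MvPolynomial σ O)
    (hG : MvPolynomial.map (algebraMap O K) G = junta p e l) :
    ∃ V : Submodule (IsLocalRing.ResidueField O) (Y σ (IsLocalRing.ResidueField O)),
      Closed V ∧ FiniteDimensional (IsLocalRing.ResidueField O) V ∧
      Module.finrank (IsLocalRing.ResidueField O) V ≤ (d + 1) ^ c ∧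
      MvPolynomial.map (IsLocalRing.residue O) G ∈ V := by
  obtain ⟨hfd, hfr⟩ := Ap_finrank l d
  obtain ⟨V', h1, h2, h3, h4⟩ := resid_space (O := O) (Ap l d) hfd (Ap_closed l d)
  refine ⟨V', h1, h2, h3.trans hfr, h4 G ?_⟩
  rw [hG]
  exact junta_mem_Ap p e l d hp

end Pool.Agent.SPE
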