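import Mathlib

/-!
# SPE: valuation rings: normalisation of a polynomial
-/

set_option autoImplicit false

namespace Pool.Agent.SPE

variable {σ : Type*} {O : Type*} [CommRing O] [IsDomain O] [ValuationRing O]
  {K : Type*} [Field K] [Algebra O K] [IsFractionRing O K]

/- Normalisation: among finitely many elements of `K`, not all zero, one divides all others.
PLAN. `ValuationRing.valuation O K`, `Finset.exists_max_image` over the support; the quotients have
valuation `≤ 1`, so lie in the range of `algebraMap O K` (`ValuationRing.mem_integer_iff`). -/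
theorem normalise (g : MvPolynomial σ K) (hg : g ≠ 0) :
    ∃ (c : K) (g' : MvPolynomial σ O), c ≠ 0 ∧
      MvPolynomial.map (algebraMap O K) g' = c • g ∧ ∃ ν, g'.coeff ν = 1 := by
  classical
  have hsupp : g.support.Nonempty := MvPolynomial.support_nonempty.2 hg
  obtain ⟨ν, hν, hmax⟩ := Finset.exists_max_image g.support
    (fun μ => ValuationRing.valuation O K (g.coeff μ)) hsupp
  have hν0 : g.coeff ν ≠ 0 := MvPolynomial.mem_support_iff.1 hν
  have hq : ∀ μ, ∃ o : O, algebraMap O K o = (g.coeff ν)⁻¹ * g.coeff μ := by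
    intro μ
    have h1 : ValuationRing.valuation O K ((g.coeff ν)⁻¹ * g.coeff μ) ≤ 1 := by
      by_cases hμ : μ ∈ g.support
      · have h2 := hmax μ hμ
        have h3 : (ValuationRing.valuation O K) (g.coeff ν) ≠ 0 :=
          (ValuationRing.valuation O K).ne_zero_iff.2 hν0
        rw [map_mul, map_inv₀]
        calc _ ≤ ((ValuationRing.valuation O K) (g.coeff ν))⁻¹ *
              (ValuationRing.valuation O K) (g.coeff ν) := mul_le_mul_right h2 _
          _ = 1 := inv_mul_cancel₀ h3
      · rw [MvPolynomial.notMem_support_iff.1 hμ, mul_zero, map_zero]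
        exact zero_le_one
    exact (ValuationRing.mem_integer_iff O K _).1 h1
  choose o ho using hq
  refine ⟨(g.coeff ν)⁻¹, ∑ μ ∈ g.support, MvPolynomial.monomial μ (o μ), inv_ne_zero hν0, ?_, ν, ?_⟩
  · rw [map_sum]
    simp only [MvPolynomial.map_monomial, ho]
    have h1 : (g.coeff ν)⁻¹ • ∑ μ ∈ g.support, MvPolynomial.monomial μ (g.coeff μ) =
        ∑ μ ∈ g.support, MvPolynomial.monomial μ ((g.coeff ν)⁻¹ * g.coeff μ) := by
      rw [Finset.smul_sum]
      refine Finset.sum_congr rfl fun μ _ => ?_
      rw [MvPolynomial.smul_monomial, smul_eq_mul]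
    rw [← h1, ← g.as_sum]
  · rw [MvPolynomial.coeff_sum, Finset.sum_eq_single ν]
    · rw [MvPolynomial.coeff_monomial, if_pos rfl]
      apply IsFractionRing.injective O K
      rw [ho, map_one, inv_mul_cancel₀ hν0]
    · intro μ _ hμ
      rw [MvPolynomial.coeff_monomial, if_neg hμ]
    · intro h
      exact absurd hν h

end Pool.Agent.SPE
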