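import Mathlib

/-!
# SPE: dimension of products of spaces

`Submodule.mulMap` has range `V * W`, so the dimension of `V * W` is at most the product of the
dimensions; powers and finite products follow by induction.
-/

set_option autoImplicit false

namespace Pool.Agent.SPE

open Polynomial

variable {K : Type*} [Field K]

theorem finrank_mul {A : Type*} [CommRing A] [Algebra K A] (V W : Submodule K A)
    (hV : FiniteDimensional K V) (hW : FiniteDimensional K W) :
    FiniteDimensional K (V * W : Submodule K A) ∧
      Module.finrank K (V * W : Submodule K A) ≤ Module.finrank K V * Module.finrank K W := by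
  rw [← Submodule.mulMap_range V W]
  refine ⟨inferInstance, ?_⟩
  calc Module.finrank K (LinearMap.range (Submodule.mulMap V W))
      ≤ Module.finrank K (TensorProduct K V W) := LinearMap.finrank_range_le _
    _ = Module.finrank K V * Module.finrank K W := Module.finrank_tensorProduct

private theorem finrank_one_le {A : Type*} [CommRing A] [Algebra K A] :
    FiniteDimensional K (1 : Submodule K A) ∧ Module.finrank K (1 : Submodule K A) ≤ 1 := by
  rw [Submodule.one_eq_span]
  refine ⟨inferInstance, ?_⟩
  refine (finrank_span_le_card (R := K) ({1} : Set A)).trans ?_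
  rw [Set.toFinset_singleton, Finset.card_singleton]

theorem finrank_pow {A : Type*} [CommRing A] [Algebra K A] [Nontrivial A] (V : Submodule K A)
    (hV : FiniteDimensional K V) (l D : ℕ) (hD : Module.finrank K V ≤ D) :
    FiniteDimensional K (V ^ l : Submodule K A) ∧
      Module.finrank K (V ^ l : Submodule K A) ≤ D ^ l := by
  induction l with
  | zero =>
    rw [pow_zero, pow_zero]
    exact finrank_one_le
  | succ l ih =>
    obtain ⟨h1, h2⟩ := ih
    obtain ⟨h3, h4⟩ := finrank_mul (V ^ l) V h1 hV
    rw [pow_succ, pow_succ]
    exact ⟨h3, h4.trans (Nat.mul_le_mul h2 hD)⟩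

theorem finrank_prod {A : Type*} [CommRing A] [Algebra K A] [Nontrivial A] {r : ℕ}
    (V : Fin r → Submodule K A) (hV : ∀ j, FiniteDimensional K (V j)) (D : ℕ)
    (hD : ∀ j, Module.finrank K (V j) ≤ D) :
    FiniteDimensional K (∏ j, V j : Submodule K A) ∧
      Module.finrank K (∏ j, V j : Submodule K A) ≤ D ^ r := by
  induction r with
  | zero =>
    rw [Fin.prod_univ_zero, pow_zero]
    exact finrank_one_le
  | succ r ih =>
    obtain ⟨h1, h2⟩ := ih (fun j => V j.succ) (fun j => hV j.succ) (fun j => hD j.succ)
    obtain ⟨h3, h4⟩ := finrank_mul (V 0) (∏ j : Fin r, V j.succ) (hV 0) h1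
    rw [Fin.prod_univ_succ, pow_succ']
    exact ⟨h3, h4.trans (Nat.mul_le_mul (hD 0) h2)⟩

end Pool.Agent.SPE
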