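import Pool.Agent.SPE.Defs

/-!
# SPE: examples of pieces
-/

set_option autoImplicit false

namespace Pool.Agent.SPE

open MvPolynomial

variable {σ : Type*} [Fintype σ] {K : Type*} [Field K]

theorem piece_prod (c d m : ℕ) (hm : m ≤ d) (p : Fin m → MvPolynomial (Fin c) K)
    (e : Fin m → Fin c → K) (l : Fin m → Fin c → σ → K) (hp : ∀ i, (p i).totalDegree ≤ d)
    (hd : (∏ i, junta (p i) (e i) (l i)).totalDegree ≤ d) :
    Piece c 1 d (∏ i, junta (p i) (e i) (l i)) := by
  refine ⟨hd, 1, Submodule.span K {1}, m, p, e, l, hm, Submodule.subset_span rfl, ?_,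
    FiniteDimensional.span_singleton K _, ?_, hp, (one_mul _).symm⟩
  · intro v hv i
    obtain ⟨x, rfl⟩ := Submodule.mem_span_singleton.1 hv
    have h1 : MvPolynomial.pderiv i (x • (1 : MvPolynomial σ K)) = 0 := by
      rw [Derivation.map_smul, Derivation.map_one_eq_zero, smul_zero]
    rw [h1]
    exact Submodule.zero_mem _
  · exact (finrank_span_le_card _).trans (by simp)

private theorem pderiv_aff (e : K) (l : σ → K) (i : σ) :
    MvPolynomial.pderiv i (aff e l) = MvPolynomial.C (l i) := by
  classical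
  unfold aff
  rw [map_add, MvPolynomial.pderiv_C, zero_add, map_sum, Finset.sum_eq_single i]
  · rw [MvPolynomial.pderiv_C_mul, MvPolynomial.pderiv_X_self, mul_one]
  · intro j _ hj
    rw [MvPolynomial.pderiv_C_mul, MvPolynomial.pderiv_X_of_ne hj, mul_zero]
  · intro h
    exact absurd (Finset.mem_univ i) h

theorem piece_sum_pow (c d m r : ℕ) (hm : m ≤ d) (p : Fin m → MvPolynomial (Fin c) K)
    (e : Fin m → Fin c → K) (l : Fin m → Fin c → σ → K) (hp : ∀ i, (p i).totalDegree ≤ d)
    (a e0 : Fin r → K) (l0 : Fin r → σ → K) (q : Fin r → ℕ) (hq : ∀ i, q i ≤ d)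
    (hd : ((∑ i, MvPolynomial.C (a i) * aff (e0 i) (l0 i) ^ q i) *
      ∏ i, junta (p i) (e i) (l i)).totalDegree ≤ d) :
    Piece c (r * (d + 1)) d ((∑ i, MvPolynomial.C (a i) * aff (e0 i) (l0 i) ^ q i) *
      ∏ i, junta (p i) (e i) (l i)) := by
  classical
  set g : Fin r × Fin (d + 1) → MvPolynomial σ K := fun x => aff (e0 x.1) (l0 x.1) ^ (x.2 : ℕ)
    with hg
  refine ⟨hd, _, Submodule.span K (Set.range g), m, p, e, l, hm, ?_, ?_, ?_, ?_, hp, rfl⟩
  · refine Submodule.sum_mem _ fun i _ => ?_
    rw [← MvPolynomial.smul_eq_C_mul]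
    exact Submodule.smul_mem _ _ (Submodule.subset_span ⟨(i, ⟨q i, Nat.lt_succ_of_le (hq i)⟩), rfl⟩)
  · intro v hv i
    refine Submodule.span_induction (p := fun v _ => MvPolynomial.pderiv i v ∈
      Submodule.span K (Set.range g)) ?_ ?_ ?_ ?_ hv
    · rintro _ ⟨⟨j, b⟩, rfl⟩
      rcases Nat.eq_zero_or_pos (b : ℕ) with hb | hb
      · have h1 : g (j, b) = 1 := by
          rw [hg]
          simp only [hb, pow_zero]
        rw [h1, Derivation.map_one_eq_zero]
        exact Submodule.zero_mem _
      · have h1 : MvPolynomial.pderiv i (g (j, b)) =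
            ((b : ℕ) * l0 j i : K) • g (j, ⟨(b : ℕ) - 1, by omega⟩) := by
          rw [hg]
          simp only
          rw [Derivation.leibniz_pow, pderiv_aff]
          simp only [smul_eq_mul, nsmul_eq_mul, MvPolynomial.smul_eq_C_mul, map_mul, map_natCast]
          ring
        rw [h1]
        exact Submodule.smul_mem _ _ (Submodule.subset_span ⟨_, rfl⟩)
    · rw [map_zero]
      exact Submodule.zero_mem _
    · intro x y _ _ hx hy
      rw [map_add]
      exact Submodule.add_mem _ hx hy
    · intro x y _ hy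
      rw [Derivation.map_smul]
      exact Submodule.smul_mem _ _ hy
  · exact FiniteDimensional.span_of_finite K (Set.finite_range g)
  · refine (finrank_range_le_card g).trans ?_
    rw [Fintype.card_prod, Fintype.card_fin, Fintype.card_fin]

end Pool.Agent.SPE
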