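import Pool.Agent.SPE.Defs
import Pool.Agent.SPD.Space
import Pool.Agent.SPD.Trunc

/-!
# SPE: choice of `α`; points
-/

set_option autoImplicit false

namespace Pool.Agent.SPE

open Polynomial

variable {κ : Type*} [Field κ] [CharZero κ]

/- PLAN. `SPD.gamT`: coefficients `a b^(r-1) / r = M! i^r / r`; `r ∣ M!` for `1 ≤ r ≤ M`
(`Nat.cast_div`); the term `r = 0` is `0`. -/
theorem AA_eval (M i t : ℕ) :
    ((AA M i t : ℕ) : κ) = (SPD.gamT M (((M.factorial * i : ℕ)) : κ) ((i : ℕ) : κ)).eval (t : κ) := by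
  have h1 : (SPD.gamT M (((M.factorial * i : ℕ)) : κ) ((i : ℕ) : κ)).eval (t : κ) =
      ∑ r ∈ Finset.range (M + 1), (((M.factorial * i : ℕ)) : κ) * ((i : ℕ) : κ) ^ (r - 1) / (r : κ) *
        (t : κ) ^ r := by
    unfold SPD.gamT
    rw [← Polynomial.coe_evalRingHom, map_sum]
    refine Finset.sum_congr rfl fun r _ => ?_
    simp
  rw [h1]
  unfold AA
  rw [Nat.cast_sum]
  have hsub : Finset.Icc 1 M ⊆ Finset.range (M + 1) := by
    intro r hr
    rw [Finset.mem_Icc] at hr
    rw [Finset.mem_range]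
    omega
  rw [← Finset.sum_subset hsub]
  · refine Finset.sum_congr rfl fun r hr => ?_
    rw [Finset.mem_Icc] at hr
    have hr0 : (r : κ) ≠ 0 := Nat.cast_ne_zero.2 (by omega)
    have hd : r ∣ M.factorial := Nat.dvd_factorial (by omega) hr.2
    obtain ⟨s, rfl⟩ : ∃ s, r = s + 1 := ⟨r - 1, by omega⟩
    rw [Nat.cast_mul, Nat.cast_div hd hr0, Nat.add_sub_cancel]
    push_cast
    push_cast at hr0
    field_simp
    ring
  · intro r hr hr'
    have h0 : r = 0 := by
      rw [Finset.mem_range] at hr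
      rw [Finset.mem_Icc] at hr'
      omega
    subst h0
    simp

/- PLAN. `a i = M! (i + 1)`, `b i = i + 1` satisfy `a, b ≠ 0`, `b` injective.  For each `j`,
`SPD.order_space` (with `finrank ≤ D`, monotone bound) and `SPD.aeval_gamT_ne_zero` give
`P j = aeval gamT (G j) ≠ 0`, of degree at most `d * M` (see the proof of `SPD.exists_point`).
The product of the `P j` is a nonzero polynomial of degree at most `m * (d * M)`, so it does not
vanish at some `u ≤ m * (d * M)`.  `AA_eval`. -/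
theorem exists_alpha (n D d M m : ℕ) (G : Fin m → MvPolynomial (Fin n) κ) (hG0 : ∀ j, G j ≠ 0)
    (hGd : ∀ j, (G j).totalDegree ≤ d)
    (hG : ∀ j, ∃ V : Submodule κ (Y (Fin n) κ), Closed V ∧ FiniteDimensional κ V ∧
      Module.finrank κ V ≤ D ∧ G j ∈ V)
    (hM : (D - 1) + ∑ k ∈ Finset.range D, k * (n - 1) ≤ M) :
    ∃ u : ℕ, u ≤ m * (d * M) ∧
      ∀ j, MvPolynomial.eval (fun i : Fin n => ((AA M (i + 1) u : ℕ) : κ)) (G j) ≠ 0 := by
  classical
  let a : Fin n → κ := fun i => ((M.factorial * ((i : ℕ) + 1) : ℕ) : κ)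
  let b : Fin n → κ := fun i => (((i : ℕ) + 1 : ℕ) : κ)
  have ha : ∀ i, a i ≠ 0 := fun i =>
    Nat.cast_ne_zero.2 (Nat.mul_ne_zero (Nat.factorial_ne_zero M) (Nat.succ_ne_zero _))
  have hb : ∀ i, b i ≠ 0 := fun i => Nat.cast_ne_zero.2 (Nat.succ_ne_zero _)
  have hinj : Function.Injective b := by
    intro i i' h
    have h1 : ((i : ℕ) + 1 : ℕ) = (i' : ℕ) + 1 := Nat.cast_injective h
    exact Fin.ext (by omega)
  let P : Fin m → κ[X] := fun j =>
    MvPolynomial.aeval (fun i => SPD.gamT M (a i) (b i)) (G j)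
  have hP0 : ∀ j, P j ≠ 0 := by
    intro j
    obtain ⟨V, hV, hfin, hr, hGV⟩ := hG j
    refine SPD.aeval_gamT_ne_zero a b (G j) M ?_
    refine SPD.order_space a b ha hb hinj V hV (G j) hGV (hG0 j) M ?_
    rw [Fintype.card_fin]
    refine le_trans ?_ hM
    refine Nat.add_le_add (Nat.sub_le_sub_right hr 1) ?_
    exact Finset.sum_le_sum_of_subset (Finset.range_mono hr)
  have hPd : ∀ j, (P j).natDegree ≤ d * M := by
    intro j
    refine MvPolynomial.aeval_natDegree_le (m := d) (G j) (hGd j)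
      (fun i => SPD.gamT M (a i) (b i)) (n := M) ?_
    intro i
    rw [Polynomial.natDegree_le_iff_coeff_eq_zero]
    intro k hk
    rw [SPD.coeff_gamT, if_neg (by omega)]
  have hprod : ∏ j, P j ≠ 0 := Finset.prod_ne_zero_iff.2 fun j _ => hP0 j
  have hprodd : (∏ j, P j).natDegree ≤ m * (d * M) := by
    refine (Polynomial.natDegree_prod_le _ _).trans ?_
    refine (Finset.sum_le_sum fun j _ => hPd j).trans ?_
    rw [Finset.sum_const, Finset.card_univ, Fintype.card_fin, smul_eq_mul]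
  have hex : ∃ u : ℕ, u ≤ m * (d * M) ∧ (∏ j, P j).eval (u : κ) ≠ 0 := by
    by_contra hcon
    push Not at hcon
    apply hprod
    refine Polynomial.eq_zero_of_natDegree_lt_card_of_eval_eq_zero' _
      ((Finset.range (m * (d * M) + 1)).map ⟨fun u : ℕ => (u : κ), Nat.cast_injective⟩) ?_ ?_
    · intro x hx
      rw [Finset.mem_map] at hx
      obtain ⟨u, hu, rfl⟩ := hx
      exact hcon u (by have := Finset.mem_range.mp hu; omega)
    · rw [Finset.card_map, Finset.card_range]
      omega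
  obtain ⟨u, hu, hu2⟩ := hex
  refine ⟨u, hu, fun j => ?_⟩
  have h3 : (P j).eval (u : κ) ≠ 0 := by
    rw [Polynomial.eval_prod] at hu2
    exact Finset.prod_ne_zero_iff.1 hu2 j (Finset.mem_univ j)
  have h4 : (Polynomial.evalRingHom (u : κ)) (P j) =
      MvPolynomial.eval (fun i => (SPD.gamT M (a i) (b i)).eval (u : κ)) (G j) := by
    have hc : (Polynomial.evalRingHom (u : κ)).comp (algebraMap κ κ[X]) = RingHom.id κ := by
      refine RingHom.ext fun x => ?_
      simp
    change (Polynomial.evalRingHom (u : κ))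
      (MvPolynomial.aeval (fun i => SPD.gamT M (a i) (b i)) (G j)) = _
    rw [MvPolynomial.aeval_def, MvPolynomial.hom_eval₂, hc]
    rfl
  have h5 : (fun i : Fin n => ((AA M (i + 1) u : ℕ) : κ)) =
      fun i => (SPD.gamT M (a i) (b i)).eval (u : κ) := by
    funext i
    exact AA_eval M ((i : ℕ) + 1) u
  rw [h5, ← h4]
  exact h3

end Pool.Agent.SPE
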