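import Pool.Agent.SPE.Defs

/-!
# SPE: spaces closed under partial derivatives
-/

set_option autoImplicit false

namespace Pool.Agent.SPE

open Polynomial

variable {σ : Type*} {K : Type*} [Field K]

theorem Closed_mul {V W : Submodule K (Y σ K)} (hV : Closed V) (hW : Closed W) : Closed (V * W) := by
  intro v hv i
  induction hv using Submodule.mul_induction_on' with
  | mem_mul_mem m hm n hn =>
    rw [MvPolynomial.pderiv_mul]
    exact Submodule.add_mem _ (Submodule.mul_mem_mul (hV m hm i) hn)
      (Submodule.mul_mem_mul hm (hW n hn i))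
  | add x _ y _ hx hy =>
    rw [map_add]
    exact Submodule.add_mem _ hx hy

theorem Closed_one : Closed (1 : Submodule K (Y σ K)) := by
  intro v hv i
  obtain ⟨y, rfl⟩ := Submodule.mem_one.1 hv
  rw [MvPolynomial.algebraMap_eq, MvPolynomial.pderiv_C]
  exact Submodule.zero_mem _

theorem Closed_pow {V : Submodule K (Y σ K)} (hV : Closed V) (l : ℕ) : Closed (V ^ l) := by
  induction l with
  | zero => rw [pow_zero]; exact Closed_one
  | succ l ih => rw [pow_succ]; exact Closed_mul ih hV

theorem Closed_prod {ι : Type*} (s : Finset ι) (V : ι → Submodule K (Y σ K))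
    (hV : ∀ i ∈ s, Closed (V i)) : Closed (∏ i ∈ s, V i) :=
  Finset.prod_induction V Closed (fun _ _ ha hb => Closed_mul ha hb) Closed_one hV

theorem Closed_sup {V W : Submodule K (Y σ K)} (hV : Closed V) (hW : Closed W) : Closed (V ⊔ W) := by
  intro v hv i
  obtain ⟨a, ha, b, hb, rfl⟩ := Submodule.mem_sup.1 hv
  rw [map_add]
  exact Submodule.add_mem_sup (hV a ha i) (hW b hb i)

end Pool.Agent.SPE
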