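import Pool.Agent.SPE.DBLem
import Pool.Agent.SPD.Ser

/-!
# SPE: evaluation `y_i = gam_i(t)`
-/

set_option autoImplicit false

namespace Pool.Agent.SPE

open Polynomial

variable {σ : Type*} [Fintype σ] [DecidableEq σ] {κ : Type*} [Field κ]

/-- Evaluation of `B σ κ` at `y_i = gam (a_i) (b_i)`, `t = X`. -/
noncomputable def ev (a b : σ → ℕ) (κ : Type*) [Field κ] : B σ κ →+* PowerSeries κ :=
  Polynomial.eval₂RingHom
    (SPD.evK (fun i => (a i : κ)) (fun i => (b i : κ)) : MvPolynomial σ κ →+* PowerSeries κ)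
    PowerSeries.X

theorem ev_C (a b : σ → ℕ) (w : Y σ κ) :
    ev a b κ (C w) = SPD.evK (fun i => (a i : κ)) (fun i => (b i : κ)) w := by
  simp [ev]

/-- `theta = t P d/dt` on power series. -/
noncomputable def theta (P f : PowerSeries κ) : PowerSeries κ :=
  PowerSeries.X * (P * PowerSeries.derivative κ f)

private theorem ev_X (a b : σ → ℕ) : ev a b κ X = PowerSeries.X := by
  show Polynomial.eval₂ _ _ _ = _
  rw [Polynomial.eval₂_X]

private theorem ev_mono (a b : σ → ℕ) (m : ℕ) (w : Y σ κ) :
    ev a b κ (monomial m w) = SPD.evK (fun i => (a i : κ)) (fun i => (b i : κ)) w * PowerSeries.X ^ m := by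
  rw [← C_mul_X_pow_eq_monomial, map_mul, map_pow, ev_C, ev_X]

private theorem ev_cB (a b : σ → ℕ) (p : ℤ[X]) :
    ev a b κ (cB σ κ p) = ((p.map (Int.castRingHom κ) : κ[X]) : PowerSeries κ) := by
  have h : (ev a b κ).comp (mapRingHom (Int.castRingHom (MvPolynomial σ κ))) =
      (Polynomial.coeToPowerSeries.ringHom (R := κ)).comp (mapRingHom (Int.castRingHom κ)) := by
    refine Polynomial.ringHom_ext' (RingHom.ext_int _ _) ?_
    rw [RingHom.comp_apply, RingHom.comp_apply, coe_mapRingHom, coe_mapRingHom, map_X, map_X, ev_X,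
      Polynomial.coeToPowerSeries.ringHom_apply, Polynomial.coe_X]
  have h2 := RingHom.congr_fun h p
  rw [RingHom.comp_apply, RingHom.comp_apply, coe_mapRingHom, coe_mapRingHom,
    Polynomial.coeToPowerSeries.ringHom_apply] at h2
  exact h2

private theorem ev_PZ (b : σ → ℕ) : (PZ b).map (Int.castRingHom κ) = SPD.PP (fun i => (b i : κ)) := by
  unfold PZ SPD.PP
  rw [Polynomial.map_prod]
  refine Finset.prod_congr rfl fun i _ => ?_
  rw [Polynomial.map_sub, Polynomial.map_one, Polynomial.map_mul, Polynomial.map_C, Polynomial.map_X,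
    eq_intCast, Int.cast_natCast]

private theorem ev_GZ (a b : σ → ℕ) (i : σ) :
    (GZ a b i).map (Int.castRingHom κ) = SPD.GG (fun i => (a i : κ)) (fun i => (b i : κ)) i := by
  unfold GZ SPD.GG
  rw [Polynomial.map_mul, Polynomial.map_C, eq_intCast, Int.cast_natCast, Polynomial.map_prod]
  congr 1
  refine Finset.prod_congr rfl fun i _ => ?_
  rw [Polynomial.map_sub, Polynomial.map_one, Polynomial.map_mul, Polynomial.map_C, Polynomial.map_X,
    eq_intCast, Int.cast_natCast]

private theorem ev_cw (i : σ) (m : ℕ) (w : Y σ κ) :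
    cwP (pd i) (monomial m w : B σ κ) = monomial m (MvPolynomial.pderiv i w) := by
  refine Polynomial.ext fun n => ?_
  rw [coeff_cwP, coeff_monomial, coeff_monomial]
  split_ifs with h
  · rfl
  · rw [map_zero]

/- PLAN. Both sides are additive; check on `C w * X ^ m` (`Polynomial.induction_on'`,
`monomial_eq`): `derivative_C_mul_X_pow`, `cwP (pd i) (C w * X^m) = C (∂_i w) * X^m` (coefficients),
`SPD.evK_deriv`, and `ev (cB σ κ (PZ b)) = (SPD.PP b : PowerSeries κ)`, same for `GZ`. -/
theorem ev_DB [CharZero κ] (a b : σ → ℕ) (ρ : B σ κ) :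
    ev a b κ (DB a b κ ρ) =
      theta ((SPD.PP (fun i => (b i : κ)) : κ[X]) : PowerSeries κ) (ev a b κ ρ) := by
  induction ρ using Polynomial.induction_on' with
  | add p q hp hq =>
    rw [map_add, map_add, hp, hq, map_add]
    unfold theta
    rw [map_add]
    ring
  | monomial m w =>
    have h1 : DB a b κ (monomial m w) =
        X * (cB σ κ (PZ b) * derivative (monomial m w) + ∑ i, cB σ κ (GZ a b i) * cwP (pd i) (monomial m w)) := rfl
    have h2 := SPD.evK_deriv (fun i => (a i : κ)) (fun i => (b i : κ)) w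
    have h3 : ∀ i, ev a b κ (cB σ κ (GZ a b i) * cwP (pd i) (monomial m w)) =
        PowerSeries.X ^ m * (((SPD.GG (fun i => (a i : κ)) (fun i => (b i : κ)) i : κ[X]) : PowerSeries κ) *
          SPD.evK (fun i => (a i : κ)) (fun i => (b i : κ)) (MvPolynomial.pderiv i w)) := by
      intro i
      rw [map_mul, ev_cB, ev_GZ, ev_cw, ev_mono]
      ring
    have h4 : ev a b κ (derivative (monomial m w)) =
        SPD.evK (fun i => (a i : κ)) (fun i => (b i : κ)) w * PowerSeries.derivative κ (PowerSeries.X ^ m) := by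
      rw [derivative_monomial, ev_mono, map_mul, map_natCast, Derivation.leibniz_pow, nsmul_eq_mul, smul_eq_mul]
      have h5 : PowerSeries.derivative κ (PowerSeries.X : PowerSeries κ) = 1 := by
        ext n
        rw [PowerSeries.coeff_derivative, PowerSeries.coeff_X, PowerSeries.coeff_one]
        rcases n with _ | n
        · simp
        · rw [if_neg (by omega), if_neg (by omega), zero_mul]
      rw [h5]
      ring
    rw [h1, map_mul, ev_X, map_add, map_mul, ev_cB, ev_PZ, h4, map_sum, Finset.sum_congr rfl (fun i _ => h3 i),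
      ← Finset.mul_sum, ← h2, ev_mono]
    unfold theta
    rw [Derivation.leibniz, smul_eq_mul, smul_eq_mul]
    ring

theorem ev_DB_iterate [CharZero κ] (a b : σ → ℕ) (ρ : B σ κ) (l : ℕ) :
    ev a b κ ((DB a b κ)^[l] ρ) =
      (theta ((SPD.PP (fun i => (b i : κ)) : κ[X]) : PowerSeries κ))^[l] (ev a b κ ρ) := by
  induction l with
  | zero => rfl
  | succ l ih => rw [Function.iterate_succ_apply', Function.iterate_succ_apply', ev_DB, ih]

omit [Fintype σ] [DecidableEq σ] in
/- `theta` does not lower orders. -/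
theorem theta_dvd (P f : PowerSeries κ) (M : ℕ) (h : (PowerSeries.X : PowerSeries κ) ^ M ∣ f) :
    (PowerSeries.X : PowerSeries κ) ^ M ∣ theta P f := by
  rcases M with _ | M
  · rw [pow_zero]
    exact one_dvd _
  · unfold theta
    rw [pow_succ']
    refine mul_dvd_mul_left _ (Dvd.dvd.mul_left ?_ _)
    rw [PowerSeries.X_pow_dvd_iff]
    intro m hm
    rw [PowerSeries.coeff_derivative, PowerSeries.X_pow_dvd_iff.1 h (m + 1) (by omega), zero_mul]

theorem constantCoeff_PP (b : σ → ℕ) :
    PowerSeries.constantCoeff ((SPD.PP (fun i => (b i : κ)) : κ[X]) : PowerSeries κ) = 1 := by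
  rw [Polynomial.constantCoeff_coe, SPD.PP, Polynomial.coeff_zero_eq_eval_zero, Polynomial.eval_prod]
  refine Finset.prod_eq_one fun i _ => ?_
  simp

end Pool.Agent.SPE
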