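import Pool.Agent.SPE.OmA
import Pool.Agent.SPE.Ev

/-!
# SPE: final step: a combination vanishing to high order makes the Wronskian vanish to high order
-/

set_option autoImplicit false

namespace Pool.Agent.SPE

open Polynomial

variable {σ : Type*} [Fintype σ] [DecidableEq σ] {κ : Type*} [Field κ] [CharZero κ]

omit [CharZero κ] in
private theorem fs_coeff (a b : σ → ℕ) (l : ℕ) (p : Polynomial (B σ κ)) (m : ℕ) :
    ((cwP (DB a b κ))^[l] p).coeff m = (DB a b κ)^[l] (p.coeff m) := by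
  induction l with
  | zero => rfl
  | succ l ih => rw [Function.iterate_succ_apply', Function.iterate_succ_apply', coeff_cwP, ih]

omit [CharZero κ] in
private theorem fs_lin (a b : σ → ℕ) (l : ℕ) {r : ℕ} (d : Fin r → κ) (x : Fin r → B σ κ) :
    (DB a b κ)^[l] (∑ j, d j • x j) = ∑ j, d j • (DB a b κ)^[l] (x j) := by
  induction l with
  | zero => rfl
  | succ l ih =>
    rw [Function.iterate_succ_apply', ih, map_sum]
    refine Finset.sum_congr rfl fun j _ => ?_
    rw [DB_smul, Function.iterate_succ_apply']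

omit [CharZero κ] in
private theorem fs_theta (P f : PowerSeries κ) (M l : ℕ) (h : (PowerSeries.X : PowerSeries κ) ^ M ∣ f) :
    (PowerSeries.X : PowerSeries κ) ^ M ∣ (theta P)^[l] f := by
  induction l with
  | zero => exact h
  | succ l ih =>
    rw [Function.iterate_succ_apply']
    exact theta_dvd P _ M ih

omit [Fintype σ] [DecidableEq σ] [CharZero κ] in
private theorem fs_up (α : σ → ℕ) (F : MvPolynomial σ κ) (m : ℕ) :
    (upP σ κ (PhiY α F)).coeff m = C ((PhiY α F).coeff m) :=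
  Polynomial.coeff_map _ _

omit [Fintype σ] [DecidableEq σ] [CharZero κ] in
private theorem fs_phi (α : σ → ℕ) {r : ℕ} (w : Fin r → MvPolynomial σ κ) (d : Fin r → κ) (m : ℕ) :
    (C ((PhiY α (∑ j, d j • w j)).coeff m) : B σ κ) = ∑ j, d j • (C ((PhiY α (w j)).coeff m) : B σ κ) := by
  rw [map_sum, Polynomial.finsetSum_coeff, map_sum]
  refine Finset.sum_congr rfl fun j _ => ?_
  rw [map_smul, Polynomial.coeff_smul, Polynomial.smul_C]

private theorem fs_det {R : Type*} [CommRing R] {r : ℕ} (A : Matrix (Fin r) (Fin r) R) (v : Fin r → R)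
    (h : A.mulVec v = 0) (j : Fin r) (u : R) (hu : v j * u = 1) : A.det = 0 := by
  have h1 : A.adjugate.mulVec (A.mulVec v) = A.det • v := by
    rw [Matrix.mulVec_mulVec, Matrix.adjugate_mul, Matrix.smul_mulVec, Matrix.one_mulVec]
  rw [h, Matrix.mulVec_zero] at h1
  have h2 : 0 = A.det * v j := congrFun h1 j
  calc A.det = A.det * (v j * u) := by rw [hu, mul_one]
    _ = (A.det * v j) * u := by rw [mul_assoc]
    _ = 0 := by rw [← h2, zero_mul]

private theorem fs_map_det {R S : Type*} [CommRing R] [CommRing S] (f : R →+* S) {r : ℕ}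
    (A : Matrix (Fin r) (Fin r) R[X]) : A.det.map f = (Matrix.of fun i j => (A i j).map f).det :=
  RingHom.map_det (Polynomial.mapRingHom f) A

omit [CharZero κ] in
private theorem fs_main {S : Type*} [CommRing S] (ρ : B σ κ →+* S) (a b : σ → ℕ) (α : σ → ℕ) {r : ℕ}
    (w : Fin r → MvPolynomial σ κ) (d : Fin r → κ) {j0 : Fin r} (hj0 : d j0 ≠ 0)
    (h : ∀ l k : ℕ, ρ ((DB a b κ)^[l] (C ((PhiY α (∑ j, d j • w j)).coeff k))) = 0) :
    (Om a b α w).map ρ = 0 := by
  unfold Om
  rw [fs_map_det]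
  refine fs_det _ (fun j => C (ρ (algebraMap κ (B σ κ) (d j)))) ?_ j0
    (C (ρ (algebraMap κ (B σ κ) (d j0)⁻¹))) ?_
  · funext l
    show ∑ j, ((cwP (DB a b κ))^[(l : ℕ)] (upP σ κ (PhiY α (w j)))).map ρ *
      C (ρ (algebraMap κ (B σ κ) (d j))) = 0
    refine Polynomial.ext fun k => ?_
    rw [Polynomial.finsetSum_coeff, Polynomial.coeff_zero]
    have h1 : ∀ j, (((cwP (DB a b κ))^[(l : ℕ)] (upP σ κ (PhiY α (w j)))).map ρ *
        C (ρ (algebraMap κ (B σ κ) (d j)))).coeff k =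
        ρ (d j • (DB a b κ)^[(l : ℕ)] (C ((PhiY α (w j)).coeff k))) := by
      intro j
      rw [Polynomial.coeff_mul_C, Polynomial.coeff_map, ← map_mul, fs_coeff, fs_up, Algebra.smul_def, mul_comm]
    rw [Finset.sum_congr rfl fun j _ => h1 j, ← map_sum, ← fs_lin, ← fs_phi]
    exact h l k
  · show C (ρ (algebraMap κ (B σ κ) (d j0))) * C (ρ (algebraMap κ (B σ κ) (d j0)⁻¹)) = 1
    rw [← map_mul, ← map_mul, ← map_mul, mul_inv_cancel₀ hj0, map_one, map_one, map_one]

theorem Om_dvd (a b : σ → ℕ) (α : σ → ℕ) (M : ℕ) {r : ℕ} (w : Fin r → MvPolynomial σ κ)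
    (d : Fin r → κ) (hd : d ≠ 0)
    (h : ∀ m, (PowerSeries.X : PowerSeries κ) ^ M ∣
      ev a b κ (C ((PhiY α (∑ j, d j • w j)).coeff m))) (m : ℕ) :
    (PowerSeries.X : PowerSeries κ) ^ M ∣ ev a b κ ((Om a b α w).coeff m) := by
  obtain ⟨j0, hj0⟩ := Function.ne_iff.1 hd
  have hρ : ∀ x, (Ideal.Quotient.mk (Ideal.span {(PowerSeries.X : PowerSeries κ) ^ M})).comp (ev a b κ) x = 0 ↔
      (PowerSeries.X : PowerSeries κ) ^ M ∣ ev a b κ x := by
    intro x
    rw [RingHom.comp_apply, Ideal.Quotient.eq_zero_iff_mem, Ideal.mem_span_singleton]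
  have hmain := fs_main ((Ideal.Quotient.mk (Ideal.span {(PowerSeries.X : PowerSeries κ) ^ M})).comp (ev a b κ))
    a b α w d hj0 (fun l k => by
      rw [hρ, ev_DB_iterate]
      exact fs_theta _ _ _ _ (h k))
  rw [← hρ, ← Polynomial.coeff_map, hmain, Polynomial.coeff_zero]

end Pool.Agent.SPE
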