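import Pool.Agent.SPE.PhC
import Pool.Agent.SPE.Alpha

/-!
# SPE: from a coefficient of small order to a point
-/

set_option autoImplicit false

namespace Pool.Agent.SPE

open Polynomial

variable {κ : Type*} [Field κ] [CharZero κ]

omit [CharZero κ] in
private theorem PhL_C {σ : Type*} (α : σ → ℕ) (r : κ) :
    PhiY α (MvPolynomial.C r : MvPolynomial σ κ) = C (MvPolynomial.C r) := by
  unfold PhiY
  rw [MvPolynomial.aeval_C]
  rfl

omit [CharZero κ] in
private theorem PhL_mul_X {σ : Type*} (α : σ → ℕ) (p : MvPolynomial σ κ) (j : σ) :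
    PhiY α (p * MvPolynomial.X j) = PhiY α p * C (MvPolynomial.C (α j : κ)) +
      X * (PhiY α p * C (MvPolynomial.X j)) := by
  rw [map_mul]
  have h : PhiY α (MvPolynomial.X j : MvPolynomial σ κ) =
      C (MvPolynomial.C (α j : κ)) + X * C (MvPolynomial.X j) := by
    unfold PhiY
    rw [MvPolynomial.aeval_X]
  rw [h]
  ring

/- The value of `PhiY`. -/
theorem eval_PhiY {σ : Type*} (α : σ → ℕ) (F : MvPolynomial σ κ) (y : σ → κ) (z : κ) :
    ((PhiY α F).map (MvPolynomial.eval y)).eval z =
      MvPolynomial.eval (fun i => (α i : κ) + z * y i) F := by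
  induction F using MvPolynomial.induction_on with
  | C r => rw [PhL_C, map_C, eval_C, MvPolynomial.eval_C, MvPolynomial.eval_C]
  | add p q hp hq => rw [map_add, Polynomial.map_add, eval_add, hp, hq, map_add]
  | mul_X p j hp =>
    rw [PhL_mul_X, Polynomial.map_add, Polynomial.map_mul, Polynomial.map_mul, Polynomial.map_mul, map_C, map_C,
      map_X, eval_add, eval_mul, eval_mul, eval_mul, eval_C, eval_C, eval_X, hp, MvPolynomial.eval_C,
      MvPolynomial.eval_X, map_mul, MvPolynomial.eval_X]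
    ring

omit [CharZero κ] in
private theorem deg_coeff {σ : Type*} (α : σ → ℕ) (F : MvPolynomial σ κ) :
    ∀ m : ℕ, ((PhiY α F).coeff m).totalDegree ≤ m := by
  induction F using MvPolynomial.induction_on with
  | C r =>
    intro m
    rw [PhL_C, coeff_C]
    split_ifs
    · rw [MvPolynomial.totalDegree_C]
      exact Nat.zero_le m
    · rw [MvPolynomial.totalDegree_zero]
      exact Nat.zero_le m
  | add p q hp hq =>
    intro m
    rw [map_add, coeff_add]
    exact (MvPolynomial.totalDegree_add _ _).trans (max_le (hp m) (hq m))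
  | mul_X p j hp =>
    intro m
    rw [PhL_mul_X, coeff_add, coeff_mul_C]
    refine (MvPolynomial.totalDegree_add _ _).trans (max_le ?_ ?_)
    · refine (MvPolynomial.totalDegree_mul _ _).trans ?_
      rw [MvPolynomial.totalDegree_C, add_zero]
      exact hp m
    · match m with
      | 0 =>
        rw [coeff_X_mul_zero, MvPolynomial.totalDegree_zero]
      | m + 1 =>
        rw [coeff_X_mul, coeff_mul_C]
        refine (MvPolynomial.totalDegree_mul _ _).trans ?_
        rw [MvPolynomial.totalDegree_X]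
        exact Nat.add_le_add_right (hp m) 1

/- The coefficients of `PhiY α F` have total degree at most that of `F`. -/
theorem totalDegree_coeff_PhiY {σ : Type*} (α : σ → ℕ) (F : MvPolynomial σ κ) (d : ℕ)
    (hd : F.totalDegree ≤ d) (m : ℕ) : ((PhiY α F).coeff m).totalDegree ≤ d := by
  by_cases h : m ≤ d
  · exact (deg_coeff α F m).trans h
  · rw [coeff_eq_zero_of_natDegree_lt (lt_of_le_of_lt (PhiY_natDegree α F d hd) (not_le.1 h)),
      MvPolynomial.totalDegree_zero]
    exact Nat.zero_le d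

theorem last_step (n d M : ℕ) (α : Fin n → ℕ) (F : MvPolynomial (Fin n) κ) (hd : F.totalDegree ≤ d)
    (m : ℕ)
    (h : ¬ (PowerSeries.X : PowerSeries κ) ^ (M + 1) ∣
      SPD.evK (fun i : Fin n => ((M.factorial * (i + 1) : ℕ) : κ)) (fun i : Fin n => ((i + 1 : ℕ) : κ))
        ((PhiY α F).coeff m)) :
    ∃ z t : ℕ, z ≤ d ∧ t ≤ d * M ∧
      MvPolynomial.eval (fun i : Fin n => ((α i + z * AA M (i + 1) t : ℕ) : κ)) F ≠ 0 := by
  classical
  have h1 := SPD.aeval_gamT_ne_zero _ _ _ M h
  obtain ⟨t, ht, h2⟩ := SPD.exists_point _ _ _ d M (totalDegree_coeff_PhiY α F d hd m) h1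
  have h3 : (fun i : Fin n => (SPD.gamT M ((M.factorial * (i + 1) : ℕ) : κ) ((i + 1 : ℕ) : κ)).eval (t : κ)) =
      fun i : Fin n => ((AA M (i + 1) t : ℕ) : κ) := by
    funext i
    exact (AA_eval M (i + 1) t).symm
  rw [h3] at h2
  set y : Fin n → κ := fun i : Fin n => ((AA M (i + 1) t : ℕ) : κ) with hy
  have hQ : (PhiY α F).map (MvPolynomial.eval y) ≠ 0 := by
    intro h0
    apply h2
    have h4 := congrArg (fun p => p.coeff m) h0
    simp only [coeff_map, coeff_zero] at h4
    exact h4
  have hdeg : ((PhiY α F).map (MvPolynomial.eval y)).natDegree ≤ d :=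
    (natDegree_map_le).trans (PhiY_natDegree α F d hd)
  obtain ⟨z, hz, h5⟩ : ∃ z : ℕ, z ≤ d ∧ ((PhiY α F).map (MvPolynomial.eval y)).eval (z : κ) ≠ 0 := by
    by_contra hc
    apply hQ
    refine Polynomial.eq_zero_of_natDegree_lt_card_of_eval_eq_zero' _
      ((Finset.range (d + 1)).image (fun k : ℕ => (k : κ))) ?_ ?_
    · intro x hx
      obtain ⟨k, hk, rfl⟩ := Finset.mem_image.1 hx
      by_contra h6
      exact hc ⟨k, Nat.lt_succ_iff.1 (Finset.mem_range.1 hk), h6⟩
    · rw [Finset.card_image_of_injective _ Nat.cast_injective, Finset.card_range]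
      exact Nat.lt_succ_of_le hdeg
  rw [eval_PhiY] at h5
  refine ⟨z, t, hz, ht, ?_⟩
  have h6 : (fun i : Fin n => ((α i + z * AA M (i + 1) t : ℕ) : κ)) = fun i => (α i : κ) + (z : κ) * y i := by
    funext i
    rw [Nat.cast_add, Nat.cast_mul]
  rw [h6]
  exact h5

end Pool.Agent.SPE
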