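import Pool.Agent.SPE.DBLem
import Pool.Agent.SPD.DetDeg

/-!
# SPE: the Wronskian `Om`
-/

set_option autoImplicit false

namespace Pool.Agent.SPE

open Polynomial

variable {σ : Type*} [Fintype σ] [DecidableEq σ]

/-- The Wronskian `det (D'^l Phi w_j)` as a polynomial in `z` over `B σ R`. -/
noncomputable def Om (a b : σ → ℕ) {R : Type*} [CommRing R] (α : σ → ℕ) {r : ℕ}
    (w : Fin r → MvPolynomial σ R) : Polynomial (B σ R) :=
  (Matrix.of fun l j : Fin r => (cwP (DB a b R))^[(l : ℕ)] (upP σ R (PhiY α (w j)))).det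

omit [Fintype σ] [DecidableEq σ] in
private theorem up_Phi_map {R R' : Type*} [CommRing R] [CommRing R'] (f : R →+* R') (α : σ → ℕ)
    (w : MvPolynomial σ R) :
    (upP σ R (PhiY α w)).map (Polynomial.mapRingHom (MvPolynomial.map f)) =
      upP σ R' (PhiY α (MvPolynomial.map f w)) := by
  have h : ((Polynomial.mapRingHom (Polynomial.mapRingHom (MvPolynomial.map f : Y σ R →+* Y σ R'))).comp
      ((upP σ R).comp (PhiY α : MvPolynomial σ R →ₐ[R] Polynomial (Y σ R)).toRingHom)) =
      ((upP σ R').comp (PhiY α : MvPolynomial σ R' →ₐ[R'] Polynomial (Y σ R')).toRingHom).comp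
        (MvPolynomial.map f : MvPolynomial σ R →+* MvPolynomial σ R') := by
    refine MvPolynomial.ringHom_ext (fun r => ?_) (fun i => ?_)
    · show ((upP σ R (PhiY α (MvPolynomial.C r))).map (Polynomial.mapRingHom (MvPolynomial.map f))) =
        upP σ R' (PhiY α (MvPolynomial.map f (MvPolynomial.C r)))
      rw [MvPolynomial.map_C]
      unfold PhiY upP
      rw [MvPolynomial.algHom_C, MvPolynomial.algHom_C]
      show (((C (MvPolynomial.C r) : Polynomial (Y σ R)).map (C : Y σ R →+* B σ R)).map
        (Polynomial.mapRingHom (MvPolynomial.map f))) = (C (MvPolynomial.C (f r)) : Polynomial (Y σ R')).map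
          (C : Y σ R' →+* B σ R')
      rw [Polynomial.map_C, Polynomial.map_C, Polynomial.map_C]
      congr 1
      show (C (MvPolynomial.C r) : B σ R).map (MvPolynomial.map f) = _
      rw [Polynomial.map_C, MvPolynomial.map_C]
    · show ((upP σ R (PhiY α (MvPolynomial.X i))).map (Polynomial.mapRingHom (MvPolynomial.map f))) =
        upP σ R' (PhiY α (MvPolynomial.map f (MvPolynomial.X i)))
      rw [MvPolynomial.map_X]
      unfold PhiY upP
      rw [MvPolynomial.aeval_X, MvPolynomial.aeval_X]
      show (((C (MvPolynomial.C (α i : R)) + X * C (MvPolynomial.X i) : Polynomial (Y σ R)).map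
        (C : Y σ R →+* B σ R)).map (Polynomial.mapRingHom (MvPolynomial.map f))) =
        (C (MvPolynomial.C (α i : R')) + X * C (MvPolynomial.X i) : Polynomial (Y σ R')).map
          (C : Y σ R' →+* B σ R')
      simp only [Polynomial.map_add, Polynomial.map_mul, Polynomial.map_C, Polynomial.map_X,
        Polynomial.coe_mapRingHom, MvPolynomial.map_X, map_natCast, Polynomial.map_natCast]
  exact RingHom.congr_fun h w

private theorem cwP_iterate_map (a b : σ → ℕ) {R R' : Type*} [CommRing R] [CommRing R'] (f : R →+* R') (l : ℕ)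
    (p : Polynomial (B σ R)) :
    (cwP (DB a b R'))^[l] (p.map (Polynomial.mapRingHom (MvPolynomial.map f))) =
      ((cwP (DB a b R))^[l] p).map (Polynomial.mapRingHom (MvPolynomial.map f)) := by
  induction l with
  | zero => rfl
  | succ l ih =>
    rw [Function.iterate_succ_apply', Function.iterate_succ_apply', ih]
    exact cwP_map (Polynomial.mapRingHom (MvPolynomial.map f)) (DB a b R) (DB a b R') (fun x => DB_map a b f x) _

private theorem cwP_iterate_coe {A : Type*} [CommRing A] (δ : A →+ A) (l : ℕ) (p : A[X]) :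
    (((cwP δ)^[l] p : A[X]) : PowerSeries A) = (cwS δ)^[l] (p : PowerSeries A) := by
  induction l with
  | zero => rfl
  | succ l ih => rw [Function.iterate_succ_apply', Function.iterate_succ_apply', ← ih, cwP_coe]

/- PLAN. Entrywise `cwP_map` (with `DB_map`), `PhiY` commutes with base change; `RingHom.map_det`. -/
theorem Om_map (a b : σ → ℕ) {R R' : Type*} [CommRing R] [CommRing R'] (f : R →+* R') (α : σ → ℕ)
    {r : ℕ} (w : Fin r → MvPolynomial σ R) :
    Om a b α (fun j => MvPolynomial.map f (w j)) =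
      (Om a b α w).map (Polynomial.mapRingHom (MvPolynomial.map f)) := by
  have h : (Om a b α w).map (Polynomial.mapRingHom (MvPolynomial.map f)) =
      (Polynomial.mapRingHom (Polynomial.mapRingHom (MvPolynomial.map f : Y σ R →+* Y σ R'))) (Om a b α w) := rfl
  have e := RingHom.map_det (R := Polynomial (B σ R)) (S := Polynomial (B σ R')) (Polynomial.mapRingHom (Polynomial.mapRingHom
      (MvPolynomial.map f : Y σ R →+* Y σ R')) : Polynomial (B σ R) →+* Polynomial (B σ R'))
    (Matrix.of fun l j : Fin r => (cwP (DB a b R))^[(l : ℕ)] (upP σ R (PhiY α (w j))))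
  refine Eq.trans ?_ (h.trans e).symm
  unfold Om
  congr 1
  refine Matrix.ext fun l j => ?_
  show (cwP (DB a b R'))^[(l : ℕ)] (upP σ R' (PhiY α (MvPolynomial.map f (w j)))) =
    ((cwP (DB a b R))^[(l : ℕ)] (upP σ R (PhiY α (w j)))).map (Polynomial.mapRingHom (MvPolynomial.map f))
  rw [← cwP_iterate_map, up_Phi_map]

/- PLAN. `cwP_coe`, `RingHom.map_det` for `Polynomial.coeToPowerSeries.ringHom`. -/
theorem Om_coe (a b : σ → ℕ) {R : Type*} [CommRing R] (α : σ → ℕ) {r : ℕ}
    (w : Fin r → MvPolynomial σ R) :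
    (Om a b α w : PowerSeries (B σ R)) =
      (Matrix.of fun l j : Fin r => (DZ a b R)^[(l : ℕ)] (PhiS α (w j))).det := by
  have h : (Om a b α w : PowerSeries (B σ R)) = Polynomial.coeToPowerSeries.ringHom (Om a b α w) := rfl
  have e := RingHom.map_det (Polynomial.coeToPowerSeries.ringHom : Polynomial (B σ R) →+* PowerSeries (B σ R))
    (Matrix.of fun l j : Fin r => (cwP (DB a b R))^[(l : ℕ)] (upP σ R (PhiY α (w j))))
  refine (h.trans e).trans ?_
  congr 1
  refine Matrix.ext fun l j => ?_
  show (((cwP (DB a b R))^[(l : ℕ)] (upP σ R (PhiY α (w j))) : Polynomial (B σ R)) : PowerSeries (B σ R)) =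
    (DZ a b R)^[(l : ℕ)] (PhiS α (w j))
  rw [cwP_iterate_coe]
  unfold DZ PhiS
  congr 1
  refine PowerSeries.ext fun m => ?_
  unfold upP upS
  rw [Polynomial.coeff_coe, Polynomial.coe_mapRingHom, Polynomial.coeff_map, PowerSeries.coeff_map,
    Polynomial.coeff_coe]

/- PLAN. `SPD.natDegree_det_le`, `cwP_iterate_natDegree`, `natDegree_map_le`. -/
theorem Om_natDegree (a b : σ → ℕ) {R : Type*} [CommRing R] (α : σ → ℕ) {r : ℕ}
    (w : Fin r → MvPolynomial σ R) (d : ℕ) (hd : ∀ j, (PhiY α (w j)).natDegree ≤ d) :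
    (Om a b α w).natDegree ≤ r * d := by
  unfold Om
  refine (SPD.natDegree_det_le _ (fun _ => d) (fun l j => ?_)).trans ?_
  · show ((cwP (DB a b R))^[(l : ℕ)] (upP σ R (PhiY α (w j)))).natDegree ≤ d
    refine (cwP_iterate_natDegree _ _ _).trans ((Polynomial.natDegree_map_le).trans (hd j))
  · rw [Finset.sum_const, Finset.card_univ, Fintype.card_fin, smul_eq_mul]

end Pool.Agent.SPE
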