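import Mathlib

/-!
# SPE: the Wronskian of power series of distinct orders
-/

set_option autoImplicit false

namespace Pool.Agent.SPE

open PowerSeries

variable {κ : Type*} [Field κ] [CharZero κ]

/-- `X P d/dX`. -/
private noncomputable def TT0 (P : PowerSeries κ) (f : PowerSeries κ) : PowerSeries κ :=
  PowerSeries.X * (P * PowerSeries.derivative κ f)

omit [CharZero κ] in
private theorem TT0_low (P : PowerSeries κ) {f : PowerSeries κ} {o : ℕ}
    (h : ∀ m < o, PowerSeries.coeff m f = 0) : ∀ m < o, PowerSeries.coeff m (TT0 P f) = 0 := by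
  intro m hm
  unfold TT0
  rcases m with _ | n
  · rw [PowerSeries.coeff_zero_X_mul]
  · rw [PowerSeries.coeff_succ_X_mul, PowerSeries.coeff_mul]
    refine Finset.sum_eq_zero ?_
    rintro ⟨a, b⟩ hab
    rw [Finset.HasAntidiagonal.mem_antidiagonal] at hab
    dsimp only at hab ⊢
    have h1 : PowerSeries.coeff b (PowerSeries.derivative κ f) = 0 := by
      rw [PowerSeries.coeff_derivative, h (b + 1) (by omega), zero_mul]
    rw [h1, mul_zero]

omit [CharZero κ] in
private theorem TT0_top (P : PowerSeries κ) (hP : PowerSeries.constantCoeff P = 1)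
    {f : PowerSeries κ} {o : ℕ} (h : ∀ m < o, PowerSeries.coeff m f = 0) :
    PowerSeries.coeff o (TT0 P f) = (o : κ) * PowerSeries.coeff o f := by
  unfold TT0
  rcases o with _ | n
  · rw [PowerSeries.coeff_zero_X_mul]
    simp
  · rw [PowerSeries.coeff_succ_X_mul, PowerSeries.coeff_mul]
    rw [Finset.sum_eq_single (0, n)]
    · dsimp only
      rw [PowerSeries.coeff_derivative, PowerSeries.coeff_zero_eq_constantCoeff_apply, hP]
      push_cast
      ring
    · rintro ⟨a, b⟩ hab hne
      rw [Finset.HasAntidiagonal.mem_antidiagonal] at hab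
      dsimp only at hab ⊢
      have hb : b ≠ n := by
        rintro rfl
        apply hne
        have : a = 0 := by omega
        rw [this]
      have h1 : PowerSeries.coeff b (PowerSeries.derivative κ f) = 0 := by
        rw [PowerSeries.coeff_derivative, h (b + 1) (by omega), zero_mul]
      rw [h1, mul_zero]
    · intro hh
      exact absurd (Finset.HasAntidiagonal.mem_antidiagonal.2 (by simp)) hh

omit [CharZero κ] in
private theorem TT0_iter (P : PowerSeries κ) (hP : PowerSeries.constantCoeff P = 1)
    {f : PowerSeries κ} {o : ℕ} (h : ∀ m < o, PowerSeries.coeff m f = 0) (l : ℕ) :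
    (∀ m < o, PowerSeries.coeff m ((TT0 P)^[l] f) = 0) ∧
      PowerSeries.coeff o ((TT0 P)^[l] f) = (o : κ) ^ l * PowerSeries.coeff o f := by
  induction l with
  | zero => exact ⟨h, by simp⟩
  | succ l ih =>
    obtain ⟨h1, h2⟩ := ih
    rw [Function.iterate_succ_apply']
    refine ⟨TT0_low P h1, ?_⟩
    rw [TT0_top P hP h1, h2, pow_succ]
    ring

omit [CharZero κ] in
private theorem eq_X_pow_mul {f : PowerSeries κ} {o : ℕ} (h : ∀ m < o, PowerSeries.coeff m f = 0) :
    f = PowerSeries.X ^ o * PowerSeries.mk fun n => PowerSeries.coeff (n + o) f := by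
  ext m
  rw [PowerSeries.coeff_X_pow_mul']
  split_ifs with hm
  · rw [PowerSeries.coeff_mk, Nat.sub_add_cancel hm]
  · exact h m (by omega)

/- The Wronskian with respect to `X P d/dX`, `P(0) = 1`, distinct orders.
PLAN. By induction on `l` the iterate `T^[l] g` of `g` with order `o` and leading coefficient `c` has
zero coefficients below `o` and coefficient `o^l * c` at `o`.  So the matrix is
`N l j * X^(o j)`, `Matrix.det_mul_row`, and the constant coefficient of `det N` is
`det (o_j^l * c_j) = (∏ c_j) * Vandermonde` (`RingHom.map_det`, `Matrix.det_vandermonde_ne_zero_iff`,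
transpose). -/
theorem wronskian_orders {r : ℕ} (P : PowerSeries κ) (hP : PowerSeries.constantCoeff P = 1)
    (g : Fin r → PowerSeries κ) (o : Fin r → ℕ) (ho : Function.Injective o)
    (h1 : ∀ j, PowerSeries.coeff (o j) (g j) ≠ 0) (h2 : ∀ j, ∀ m < o j, PowerSeries.coeff m (g j) = 0) :
    (Matrix.of fun l j : Fin r =>
      (fun f => PowerSeries.X * (P * PowerSeries.derivative κ f))^[(l : ℕ)] (g j)).det ≠ 0 := by
  have hfun : (fun f => PowerSeries.X * (P * PowerSeries.derivative κ f)) = TT0 P := rfl
  rw [hfun]
  have hM : (Matrix.of fun l j : Fin r => (TT0 P)^[(l : ℕ)] (g j)) =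
      Matrix.of fun l j : Fin r => PowerSeries.X ^ (o j) *
        (Matrix.of fun l j : Fin r =>
          PowerSeries.mk fun n => PowerSeries.coeff (n + o j) ((TT0 P)^[(l : ℕ)] (g j))) l j := by
    ext1 l j
    exact eq_X_pow_mul (TT0_iter P hP (h2 j) l).1
  rw [hM, Matrix.det_mul_row]
  refine mul_ne_zero ?_ ?_
  · exact Finset.prod_ne_zero_iff.2 fun j _ => pow_ne_zero _ PowerSeries.X_ne_zero
  · intro h0
    have h3 := congrArg (PowerSeries.constantCoeff (R := κ)) h0
    rw [map_zero, RingHom.map_det] at h3
    have hN : (PowerSeries.constantCoeff (R := κ)).mapMatrix (Matrix.of fun l j : Fin r =>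
          PowerSeries.mk fun n => PowerSeries.coeff (n + o j) ((TT0 P)^[(l : ℕ)] (g j))) =
        Matrix.of fun l j : Fin r => PowerSeries.coeff (o j) (g j) *
          (Matrix.vandermonde fun j : Fin r => ((o j : ℕ) : κ)).transpose l j := by
      ext1 l j
      rw [RingHom.mapMatrix_apply, Matrix.map_apply, Matrix.of_apply, Matrix.of_apply,
        ← PowerSeries.coeff_zero_eq_constantCoeff_apply, PowerSeries.coeff_mk, zero_add,
        (TT0_iter P hP (h2 j) l).2, Matrix.transpose_apply, Matrix.vandermonde_apply, mul_comm]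
    rw [hN, Matrix.det_mul_row, Matrix.det_transpose] at h3
    refine (mul_ne_zero ?_ ?_) h3
    · exact Finset.prod_ne_zero_iff.2 fun j _ => h1 j
    · exact Matrix.det_vandermonde_ne_zero_iff.2 fun a b hab => ho (Nat.cast_injective hab)

end Pool.Agent.SPE
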