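import Pool.Agent.SPE.WrA
import Pool.Agent.SPE.WrB

/-!
# SPE: the Wronskian of linearly independent power series is not zero
-/

set_option autoImplicit false

namespace Pool.Agent.SPE

open PowerSeries

variable {κ : Type*} [Field κ] [CharZero κ]

omit [CharZero κ] in
private theorem wr_lin (P : PowerSeries κ) (l : ℕ) {ι : Type*} (s : Finset ι) (c : ι → κ) (f : ι → PowerSeries κ) :
    (fun f => PowerSeries.X * (P * PowerSeries.derivative κ f))^[l] (∑ i ∈ s, c i • f i) =
      ∑ i ∈ s, c i • (fun f => PowerSeries.X * (P * PowerSeries.derivative κ f))^[l] (f i) := by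
  induction l generalizing f with
  | zero => rfl
  | succ l ih =>
    simp only [Function.iterate_succ, Function.comp_apply]
    rw [← ih]
    congr 1
    rw [map_sum, Finset.mul_sum, Finset.mul_sum]
    refine Finset.sum_congr rfl fun i _ => ?_
    rw [Derivation.map_smul, mul_smul_comm, mul_smul_comm]

/- PLAN. `exists_orders`; the operator is additive and `κ`-linear, so the matrix of `∑ i, Cm j i • f i`
is the matrix of `f` times `Cmᵀ` (mapped to power series); if `det = 0` for `f`, then also for `g`. -/
theorem wronskian_ne {r : ℕ} (P : PowerSeries κ) (hP : PowerSeries.constantCoeff P = 1)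
    (f : Fin r → PowerSeries κ) (hf : LinearIndependent κ f) :
    (Matrix.of fun l j : Fin r =>
      (fun f => PowerSeries.X * (P * PowerSeries.derivative κ f))^[(l : ℕ)] (f j)).det ≠ 0 := by
  obtain ⟨Cm, o, ho, h⟩ := exists_orders f hf
  have h1 := wronskian_orders P hP (fun j => ∑ i, Cm j i • f i) o ho (fun j => (h j).1) (fun j => (h j).2)
  intro h0
  apply h1
  have h2 : (Matrix.of fun l j : Fin r =>
      (fun f => PowerSeries.X * (P * PowerSeries.derivative κ f))^[(l : ℕ)] (∑ i, Cm j i • f i)) =
      (Matrix.of fun l j : Fin r =>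
        (fun f => PowerSeries.X * (P * PowerSeries.derivative κ f))^[(l : ℕ)] (f j)) *
        (Cm.map (PowerSeries.C (R := κ))).transpose := by
    ext1 l j
    rw [Matrix.of_apply, wr_lin, Matrix.mul_apply]
    refine Finset.sum_congr rfl fun i _ => ?_
    rw [Matrix.of_apply, Matrix.transpose_apply, Matrix.map_apply, PowerSeries.smul_eq_C_mul, mul_comm]
  rw [h2, Matrix.det_mul, h0, zero_mul]

end Pool.Agent.SPE
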