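import Pool.Agent.SPE.Ev
import Pool.Agent.SPE.Wr
import Pool.Agent.SPE.OmA
import Pool.Agent.SPD.Space

/-!
# SPE: the Wronskian `Om` of linearly independent polynomials is not zero
-/

set_option autoImplicit false

namespace Pool.Agent.SPE

open Polynomial

variable {σ : Type*} [Fintype σ] [DecidableEq σ]

variable {κ : Type*} [Field κ] [CharZero κ]

omit [Fintype σ] [DecidableEq σ] [CharZero κ] in
private theorem on_pd (d : ℕ) (f : MvPolynomial σ κ) (hf : f.totalDegree ≤ d) (i : σ) :
    (MvPolynomial.pderiv i f).totalDegree ≤ d := by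
  rw [← MvPolynomial.mem_restrictTotalDegree, f.as_sum, map_sum]
  refine Submodule.sum_mem _ fun s hs => ?_
  rw [MvPolynomial.pderiv_monomial, MvPolynomial.mem_restrictTotalDegree]
  refine (MvPolynomial.totalDegree_monomial_le _ _).trans (le_trans ?_ ((MvPolynomial.le_totalDegree hs).trans hf))
  exact Finsupp.degree_mono tsub_le_self

private theorem on_evK (a b : σ → ℕ) (ha : ∀ i, a i ≠ 0) (hb : ∀ i, b i ≠ 0) (hinj : Function.Injective b)
    (g : MvPolynomial σ κ) (h : SPD.evK (fun i => (a i : κ)) (fun i => (b i : κ)) g = 0) : g = 0 := by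
  by_contra hg
  refine SPD.order_space (fun i => (a i : κ)) (fun i => (b i : κ)) (fun i => Nat.cast_ne_zero.2 (ha i))
    (fun i => Nat.cast_ne_zero.2 (hb i)) (Nat.cast_injective.comp hinj)
    (MvPolynomial.restrictTotalDegree σ κ g.totalDegree) ?_ g ?_ hg _ le_rfl ?_
  · intro f hf i
    rw [MvPolynomial.mem_restrictTotalDegree] at hf ⊢
    exact on_pd _ f hf i
  · rw [MvPolynomial.mem_restrictTotalDegree]
  · rw [h]
    exact dvd_zero _

/-- the translation -/
private noncomputable def on_psi (α : σ → ℕ) : MvPolynomial σ κ →ₐ[κ] MvPolynomial σ κ :=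
  MvPolynomial.aeval fun i => MvPolynomial.C (α i : κ) + MvPolynomial.X i

omit [Fintype σ] [DecidableEq σ] [CharZero κ] in
private theorem on_psi_inj (α : σ → ℕ) : Function.Injective (on_psi (κ := κ) α) := by
  have h : ∀ p, (MvPolynomial.aeval fun i => (MvPolynomial.X i - MvPolynomial.C (α i : κ) : MvPolynomial σ κ))
      (on_psi (κ := κ) α p) = p := by
    intro p
    unfold on_psi
    induction p using MvPolynomial.induction_on with
    | C r => simp
    | add p q hp hq => rw [map_add, map_add, hp, hq]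
    | mul_X p i hp => rw [map_mul, map_mul, hp]; simp
  exact Function.LeftInverse.injective h

omit [Fintype σ] [DecidableEq σ] [CharZero κ] in
private theorem on_phi (α : σ → ℕ) (p : MvPolynomial σ κ) : (PhiY α p).eval 1 = on_psi α p := by
  unfold PhiY on_psi
  induction p using MvPolynomial.induction_on with
  | C r =>
    rw [MvPolynomial.aeval_C, MvPolynomial.aeval_C]
    show (C (MvPolynomial.C r : MvPolynomial σ κ) : Polynomial (MvPolynomial σ κ)).eval 1 = _
    rw [eval_C]
    rfl
  | add p q hp hq => rw [map_add, map_add, eval_add, hp, hq]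
  | mul_X p i hp =>
    rw [map_mul, map_mul, eval_mul, hp, MvPolynomial.aeval_X, MvPolynomial.aeval_X, eval_add, eval_C, eval_mul,
      eval_X, eval_C, one_mul]

private theorem on_iter {A : Type*} [CommRing A] (δ : A →+ A) (p : A[X]) (l : ℕ) :
    ((cwP δ)^[l] p).eval 1 = δ^[l] (p.eval 1) := by
  induction l generalizing p with
  | zero => rfl
  | succ l ih => rw [Function.iterate_succ_apply, Function.iterate_succ_apply, ih, cwP_eval_one]

/- PLAN. `w ↦ (PhiY α w).eval 1` is the algebra automorphism `x_i ↦ α_i + y_i` of `MvPolynomial σ κ`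
(inverse `x_i ↦ x_i - α_i`), so the `(PhiY α (w j)).eval 1` are linearly independent; `evK` is
injective (`SPD.order_space` for the space of polynomials of total degree `≤ d`, or spanned by all
derivatives), so `ev (C _)` are linearly independent power series; `wronskian_ne`, `ev_DB_iterate`,
`constantCoeff_PP`. Then `Om` evaluated at `z = 1` (`cwP_eval_one`, iterated) and mapped by `ev` is
this Wronskian. -/
theorem Om_ne (a b : σ → ℕ) (ha : ∀ i, a i ≠ 0) (hb : ∀ i, b i ≠ 0) (hinj : Function.Injective b)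
    (α : σ → ℕ) {r : ℕ} (w : Fin r → MvPolynomial σ κ) (hw : LinearIndependent κ w) :
    Om a b α w ≠ 0 := by
  intro h
  have hli : LinearIndependent κ (fun j => SPD.evK (fun i => (a i : κ)) (fun i => (b i : κ)) (on_psi α (w j))) := by
    have h1 := hw.map' ((SPD.evK (fun i => (a i : κ)) (fun i => (b i : κ))).comp (on_psi α)).toLinearMap (by
      rw [LinearMap.ker_eq_bot']
      intro m hm
      have h2 := on_evK a b ha hb hinj (on_psi α m) hm
      exact on_psi_inj α (by rw [h2, map_zero]))
    exact h1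
  have h1 := wronskian_ne ((SPD.PP (fun i => (b i : κ)) : κ[X]) : PowerSeries κ) (constantCoeff_PP b) _ hli
  apply h1
  obtain ⟨Ψ, hΨ⟩ : ∃ Ψ : Polynomial (B σ κ) →+* PowerSeries κ, Ψ = (ev a b κ).comp (evalRingHom (1 : B σ κ)) :=
    ⟨_, rfl⟩
  have h2 := congrArg Ψ h
  rw [map_zero] at h2
  unfold Om at h2
  have h2' : (Ψ.mapMatrix (Matrix.of fun l j : Fin r =>
      (cwP (DB a b κ))^[(l : ℕ)] (upP σ κ (PhiY α (w j))))).det = 0 := by
    have h3 := RingHom.map_det Ψ (Matrix.of fun l j : Fin r =>
      (cwP (DB a b κ))^[(l : ℕ)] (upP σ κ (PhiY α (w j))))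
    exact h3.symm.trans h2
  rw [← h2']
  congr 1
  ext1 l j
  rw [hΨ]
  show _ = ev a b κ (((cwP (DB a b κ))^[(l : ℕ)] (upP σ κ (PhiY α (w j)))).eval 1)
  rw [on_iter, ev_DB_iterate]
  have h3 : (upP σ κ (PhiY α (w j))).eval 1 = C ((PhiY α (w j)).eval 1) := by
    unfold upP
    rw [coe_mapRingHom, eval_one_map]
  rw [h3, ev_C, on_phi]
  rfl

end Pool.Agent.SPE
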