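import Pool.Agent.SPE.Nrm
import Pool.Agent.SPE.Defs

/-!
# SPE: normalised form of a nonzero piece over a valuation ring
-/

set_option autoImplicit false

namespace Pool.Agent.SPE

open Polynomial

variable {σ : Type*} [Fintype σ] {O : Type*} [CommRing O] [IsDomain O] [ValuationRing O]
  {K : Type*} [Field K] [Algebra O K] [IsFractionRing O K]

omit [Fintype σ] in
private theorem td_pderiv (i : σ) (v : MvPolynomial σ K) :
    (MvPolynomial.pderiv i v).totalDegree ≤ v.totalDegree := by
  classical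
  rw [MvPolynomial.totalDegree, Finset.sup_le_iff]
  intro m hm
  rw [MvPolynomial.mem_support_iff, MvPolynomial.coeff_pderiv] at hm
  have h1 : v.coeff (m + Finsupp.single i 1) ≠ 0 := fun h => hm (by rw [h, zero_mul])
  have h2 := MvPolynomial.le_totalDegree (MvPolynomial.mem_support_iff.2 h1)
  have h3 : ((m + Finsupp.single i 1).sum fun _ e => e) = (m.sum fun _ e => e) + 1 := by
    rw [Finsupp.sum_add_index' (fun _ => rfl) (fun _ _ _ => rfl), Finsupp.sum_single_index rfl]
  omega

omit [Fintype σ] in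
private theorem td_map (p : MvPolynomial σ O) :
    (MvPolynomial.map (algebraMap O K) p).totalDegree = p.totalDegree := by
  unfold MvPolynomial.totalDegree
  rw [MvPolynomial.support_map_of_injective _ (IsFractionRing.injective O K)]

theorem piece_norm (c s d : ℕ) (T : MvPolynomial σ K) (hT : Piece c s d T) (hT0 : T ≠ 0) :
    ∃ (h : MvPolynomial σ K) (V : Submodule K (MvPolynomial σ K)) (m : ℕ)
      (p : Fin m → MvPolynomial (Fin c) K) (e : Fin m → Fin c → K) (l : Fin m → Fin c → σ → K)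
      (G : Fin m → MvPolynomial σ O),
      m ≤ d ∧ h ∈ V ∧ Closed V ∧ FiniteDimensional K V ∧ Module.finrank K V ≤ s ∧ 1 ≤ s ∧
      (∀ v ∈ V, v.totalDegree ≤ d) ∧ (∀ i, (p i).totalDegree ≤ d) ∧
      T = h * ∏ i, junta (p i) (e i) (l i) ∧
      (∀ i, MvPolynomial.map (algebraMap O K) (G i) = junta (p i) (e i) (l i)) ∧
      (∀ i, MvPolynomial.map (IsLocalRing.residue O) (G i) ≠ 0) ∧ ∀ i, (G i).totalDegree ≤ d := by
  obtain ⟨hTd, h0, V0, m, p, e, l, hm, hh0, hV0, hfd, hfr, hp, hTe⟩ := hT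
  have hh : h0 ≠ 0 := by
    rintro rfl
    exact hT0 (by rw [hTe, zero_mul])
  have hj : ∀ i, junta (p i) (e i) (l i) ≠ 0 := by
    intro i h
    exact hT0 (by rw [hTe, Finset.prod_eq_zero (Finset.mem_univ i) h, mul_zero])
  have hjT : ∀ i, junta (p i) (e i) (l i) ∣ T := by
    intro i
    rw [hTe]
    exact (Finset.dvd_prod_of_mem _ (Finset.mem_univ i)).mul_left _
  have hhT : h0 ∣ T := by
    rw [hTe]
    exact Dvd.intro _ rfl
  choose cc G hc hG hν using fun i => normalise (O := O) (junta (p i) (e i) (l i)) (hj i)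
  have hsm : ∀ i, junta (cc i • p i) (e i) (l i) = cc i • junta (p i) (e i) (l i) := by
    intro i
    unfold junta
    rw [map_smul]
  have hP : ∏ i, cc i ≠ 0 := Finset.prod_ne_zero_iff.2 fun i _ => hc i
  refine ⟨(∏ i, cc i)⁻¹ • h0, V0 ⊓ MvPolynomial.restrictTotalDegree σ K d, m, fun i => cc i • p i, e,
    l, G, hm, ?_, ?_, ?_, ?_, ?_, ?_, ?_, ?_, ?_, ?_, ?_⟩
  · refine Submodule.smul_mem _ _ ⟨hh0, ?_⟩
    rw [SetLike.mem_coe, MvPolynomial.mem_restrictTotalDegree]
    exact (MvPolynomial.totalDegree_le_of_dvd_of_isDomain hhT hT0).trans hTd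
  · rintro v ⟨hv1, hv2⟩ i
    refine ⟨hV0 v hv1 i, ?_⟩
    rw [SetLike.mem_coe, MvPolynomial.mem_restrictTotalDegree] at hv2 ⊢
    exact (td_pderiv i v).trans hv2
  · haveI := hfd
    exact Submodule.finiteDimensional_of_le inf_le_left
  · haveI := hfd
    exact (Submodule.finrank_mono inf_le_left).trans hfr
  · haveI := hfd
    refine le_trans (Submodule.one_le_finrank_iff.2 ?_) hfr
    intro hb
    rw [hb, Submodule.mem_bot] at hh0
    exact hh hh0
  · rintro v ⟨-, hv2⟩
    exact (MvPolynomial.mem_restrictTotalDegree _ _ _).1 hv2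
  · intro i
    exact (MvPolynomial.totalDegree_smul_le _ _).trans (hp i)
  · have h1 : ∏ i, junta (cc i • p i) (e i) (l i) = (∏ i, cc i) • ∏ i, junta (p i) (e i) (l i) := by
      rw [Finset.prod_congr rfl fun i _ => hsm i, Finset.prod_smul]
    rw [h1, smul_mul_smul_comm, inv_mul_cancel₀ hP, one_smul]
    exact hTe
  · intro i
    rw [hG, hsm]
  · intro i hz
    obtain ⟨ν, h1⟩ := hν i
    have h2 := congrArg (MvPolynomial.coeff ν) hz
    rw [MvPolynomial.coeff_map, h1, map_one, MvPolynomial.coeff_zero] at h2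
    exact one_ne_zero h2
  · intro i
    rw [← td_map (K := K), hG]
    exact ((MvPolynomial.totalDegree_smul_le _ _).trans
      (MvPolynomial.totalDegree_le_of_dvd_of_isDomain (hjT i) hT0)).trans hTd

end Pool.Agent.SPE
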