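import Pool.Agent.SPE.Nrm

/-!
# SPE: valuation rings: bases with independent residues
-/

set_option autoImplicit false

namespace Pool.Agent.SPE

variable {σ : Type*} {O : Type*} [CommRing O] [IsDomain O] [ValuationRing O]
  {K : Type*} [Field K] [Algebra O K] [IsFractionRing O K]

/- PLAN. Induction on `r` (echelon form).  `r + 1`: normalise `T 0`: `w0`, `w0.coeff ν = 1`.
`T' i = T (i.succ) - (coeff ν) • c • T 0` have coefficient `0` at `ν` and are linearly independent;
their span consists of polynomials with coefficient `0` at `ν`.  Induction gives `w' i`, spanning the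
same space, with independent residues, all with coefficient `0` at `ν`.  Then `Fin.cons w0 w'`.
State the induction with the span equality and derive `Cm` at the end, or carry both matrices. -/
theorem saturate {r : ℕ} (T : Fin r → MvPolynomial σ K) (hT : LinearIndependent K T) :
    ∃ w : Fin r → MvPolynomial σ O,
      LinearIndependent (IsLocalRing.ResidueField O)
        (fun j => MvPolynomial.map (IsLocalRing.residue O) (w j)) ∧
      (∀ j, MvPolynomial.map (algebraMap O K) (w j) ∈ Submodule.span K (Set.range T)) ∧
      ∀ j, T j ∈ Submodule.span K (Set.range fun i => MvPolynomial.map (algebraMap O K) (w i)) := by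
  induction r with
  | zero =>
    exact ⟨fun j => j.elim0, linearIndependent_empty_type, fun j => j.elim0, fun j => j.elim0⟩
  | succ r ih =>
    have hT0 : T 0 ≠ 0 := hT.ne_zero 0
    obtain ⟨c, w0, hc, hw0, ν, hν⟩ := normalise (O := O) (T 0) hT0
    have hν1 : MvPolynomial.coeff ν (c • T 0) = 1 := by
      rw [← hw0, MvPolynomial.coeff_map, hν, map_one]
    let T' : Fin r → MvPolynomial σ K := fun i =>
      T i.succ - (MvPolynomial.coeff ν (T i.succ)) • (c • T 0)
    have hT'ν : ∀ i, MvPolynomial.coeff ν (T' i) = 0 := by
      intro i
      show MvPolynomial.coeff ν (T i.succ - (MvPolynomial.coeff ν (T i.succ)) • (c • T 0)) = 0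
      rw [MvPolynomial.coeff_sub, MvPolynomial.coeff_smul, hν1, smul_eq_mul, mul_one, sub_self]
    have hT'li : LinearIndependent K T' := by
      rw [Fintype.linearIndependent_iff] at hT ⊢
      intro a ha
      have h1 : ∑ i, (Fin.cons (-(∑ i, a i * MvPolynomial.coeff ν (T i.succ)) * c) a :
          Fin (r + 1) → K) i • T i = 0 := by
        rw [Fin.sum_univ_succ]
        simp only [Fin.cons_zero, Fin.cons_succ]
        rw [← ha]
        have h2 : ∑ i, a i • T' i = ∑ i, a i • T i.succ -
            (∑ i, a i * MvPolynomial.coeff ν (T i.succ)) • (c • T 0) := by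
          rw [Finset.sum_smul, ← Finset.sum_sub_distrib]
          refine Finset.sum_congr rfl fun i _ => ?_
          simp only [T', smul_sub, smul_smul, mul_assoc]
        rw [h2, mul_smul, neg_smul]
        abel
      intro i
      have h2 := hT _ h1 i.succ
      rwa [Fin.cons_succ] at h2
    obtain ⟨w', h1, h2, h3⟩ := ih T' hT'li
    have hw'ν : ∀ j, MvPolynomial.coeff ν (w' j) = 0 := by
      intro j
      have h4 : ∀ p ∈ Submodule.span K (Set.range T'), MvPolynomial.coeff ν p = 0 := by
        intro p hp
        induction hp using Submodule.span_induction with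
        | mem x hx => obtain ⟨i, rfl⟩ := hx; exact hT'ν i
        | zero => exact MvPolynomial.coeff_zero _
        | add x y _ _ hx hy => rw [MvPolynomial.coeff_add, hx, hy, add_zero]
        | smul a x _ hx => rw [MvPolynomial.coeff_smul, hx, smul_zero]
      have h5 := h4 _ (h2 j)
      rw [MvPolynomial.coeff_map] at h5
      exact (map_eq_zero_iff _ (IsFractionRing.injective O K)).1 h5
    have hT'mem : ∀ i, T' i ∈ Submodule.span K (Set.range T) := fun i =>
      Submodule.sub_mem _ (Submodule.subset_span ⟨_, rfl⟩)
        (Submodule.smul_mem _ _ (Submodule.smul_mem _ _ (Submodule.subset_span ⟨_, rfl⟩)))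
    have hw0mem : MvPolynomial.map (algebraMap O K) w0 ∈ Submodule.span K (Set.range fun i =>
        MvPolynomial.map (algebraMap O K) ((Fin.cons w0 w' : Fin (r + 1) → MvPolynomial σ O) i)) :=
      Submodule.subset_span ⟨0, by simp only [Fin.cons_zero]⟩
    have hw'mem : ∀ p ∈ Submodule.span K (Set.range fun i => MvPolynomial.map (algebraMap O K) (w' i)),
        p ∈ Submodule.span K (Set.range fun i =>
        MvPolynomial.map (algebraMap O K) ((Fin.cons w0 w' : Fin (r + 1) → MvPolynomial σ O) i)) := by
      intro p hp
      refine Submodule.span_mono ?_ hp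
      rintro _ ⟨i, rfl⟩
      exact ⟨i.succ, by simp only [Fin.cons_succ]⟩
    refine ⟨Fin.cons w0 w', ?_, ?_, ?_⟩
    · have h4 : (fun j => MvPolynomial.map (IsLocalRing.residue O)
          ((Fin.cons w0 w' : Fin (r + 1) → MvPolynomial σ O) j)) =
          Fin.cons (MvPolynomial.map (IsLocalRing.residue O) w0)
            (fun j => MvPolynomial.map (IsLocalRing.residue O) (w' j)) := by
        funext j
        refine Fin.cases ?_ (fun i => ?_) j
        · simp only [Fin.cons_zero]
        · simp only [Fin.cons_succ]
      rw [h4, linearIndependent_finCons]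
      refine ⟨h1, fun h5 => ?_⟩
      have h6 : ∀ p ∈ Submodule.span (IsLocalRing.ResidueField O)
          (Set.range fun j => MvPolynomial.map (IsLocalRing.residue O) (w' j)),
          MvPolynomial.coeff ν p = 0 := by
        intro p hp
        induction hp using Submodule.span_induction with
        | mem x hx => obtain ⟨i, rfl⟩ := hx; rw [MvPolynomial.coeff_map, hw'ν, map_zero]
        | zero => exact MvPolynomial.coeff_zero _
        | add x y _ _ hx hy => rw [MvPolynomial.coeff_add, hx, hy, add_zero]
        | smul a x _ hx => rw [MvPolynomial.coeff_smul, hx, smul_zero]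
      have h7 := h6 _ h5
      rw [MvPolynomial.coeff_map, hν, map_one] at h7
      exact one_ne_zero h7
    · intro j
      refine Fin.cases ?_ (fun i => ?_) j
      · simp only [Fin.cons_zero]
        rw [hw0]
        exact Submodule.smul_mem _ _ (Submodule.subset_span ⟨_, rfl⟩)
      · simp only [Fin.cons_succ]
        refine Submodule.span_le.2 ?_ (h2 i)
        rintro _ ⟨i, rfl⟩
        exact hT'mem i
    · intro j
      refine Fin.cases ?_ (fun i => ?_) j
      · have h4 : T 0 = c⁻¹ • MvPolynomial.map (algebraMap O K) w0 := by
          rw [hw0, smul_smul, inv_mul_cancel₀ hc, one_smul]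
        rw [h4]
        exact Submodule.smul_mem _ _ hw0mem
      · have h4 : T i.succ = T' i + (MvPolynomial.coeff ν (T i.succ)) •
            MvPolynomial.map (algebraMap O K) w0 := by
          rw [hw0]
          simp only [T', sub_add_cancel]
        rw [h4]
        exact Submodule.add_mem _ (hw'mem _ (h3 i)) (Submodule.smul_mem _ _ hw0mem)

end Pool.Agent.SPE
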