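import Mathlib

/-!
# SPE: small lemmas: independent subfamily; arithmetic of the bounds
-/

set_option autoImplicit false

namespace Pool.Agent.SPE

/- PLAN. `exists_linearIndependent'` and an equivalence of the (finite) index type with `Fin r`. -/
theorem exists_subfamily {K E : Type*} [Field K] [AddCommGroup E] [Module K E] {k : ℕ}
    (T : Fin k → E) :
    ∃ (r : ℕ) (ι : Fin r → Fin k), r ≤ k ∧ LinearIndependent K (fun j => T (ι j)) ∧
      ∀ j, T j ∈ Submodule.span K (Set.range fun i => T (ι i)) := by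
  classical
  obtain ⟨κ, a, ha, hspan, hli⟩ := exists_linearIndependent' K T
  have hfin : Finite κ := Finite.of_injective a ha
  have hfin' : Fintype κ := Fintype.ofFinite κ
  have e : Fin (Fintype.card κ) ≃ κ := (Fintype.equivFin κ).symm
  refine ⟨Fintype.card κ, fun i => a (e i), ?_, ?_, fun j => ?_⟩
  · have := Fintype.card_le_of_injective a ha
    rwa [Fintype.card_fin] at this
  · exact hli.comp e e.injective
  · have h1 : (Set.range fun i => T (a (e i))) = Set.range (T ∘ a) :=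
      e.surjective.range_comp (T ∘ a)
    rw [h1, hspan]
    exact Submodule.subset_span (Set.mem_range_self j)

/- `A` and `B'` : `N = A^k * B'^(k^2)`. -/
theorem bound_arith (n k r N q : ℕ) (hr : r ≤ k) (hN : 1 ≤ N)
    (hq : q = ∑ j : Fin r, (j : ℕ) * n) :
    (N - 1) + ∑ j ∈ Finset.range N, (q + j * (n - 1)) ≤ (n + 1) * N * (N + k ^ 2) := by
  have hq1 : q ≤ n * k ^ 2 := by
    rw [hq]
    have h1 : ∑ j : Fin r, (j : ℕ) * n ≤ ∑ _j : Fin r, k * n :=
      Finset.sum_le_sum fun j _ => Nat.mul_le_mul_right n ((j.isLt.le).trans hr)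
    rw [Finset.sum_const, Finset.card_univ, Fintype.card_fin, smul_eq_mul] at h1
    calc ∑ j : Fin r, (j : ℕ) * n ≤ r * (k * n) := h1
      _ ≤ k * (k * n) := Nat.mul_le_mul_right _ hr
      _ = n * k ^ 2 := by ring
  have h2 : ∑ j ∈ Finset.range N, (q + j * (n - 1)) ≤ ∑ _j ∈ Finset.range N, (n * k ^ 2 + N * n) :=
    Finset.sum_le_sum fun j hj => Nat.add_le_add hq1
      (Nat.mul_le_mul (Finset.mem_range.1 hj).le (Nat.sub_le n 1))
  rw [Finset.sum_const, Finset.card_range, smul_eq_mul] at h2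
  have h3 : N - 1 ≤ N * N := (Nat.sub_le N 1).trans (Nat.le_mul_of_pos_left N hN)
  calc (N - 1) + ∑ j ∈ Finset.range N, (q + j * (n - 1))
      ≤ N * N + N * (n * k ^ 2 + N * n) := Nat.add_le_add h3 h2
    _ ≤ N * N + N * (n * k ^ 2 + N * n) + N * k ^ 2 := Nat.le_add_right _ _
    _ = (n + 1) * N * (N + k ^ 2) := by ring

theorem bound_arith2 (n k N D : ℕ) (hD : D ≤ N) (hN : 1 ≤ N) :
    (D - 1) + ∑ j ∈ Finset.range D, j * (n - 1) ≤ (n + 1) * N * (N + k ^ 2) := by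
  have h2 : ∑ j ∈ Finset.range D, j * (n - 1) ≤ ∑ _j ∈ Finset.range D, N * n :=
    Finset.sum_le_sum fun j hj =>
      Nat.mul_le_mul ((Finset.mem_range.1 hj).le.trans hD) (Nat.sub_le n 1)
  rw [Finset.sum_const, Finset.card_range, smul_eq_mul] at h2
  have h3 : D - 1 ≤ N * N :=
    ((Nat.sub_le D 1).trans hD).trans (Nat.le_mul_of_pos_left N hN)
  calc (D - 1) + ∑ j ∈ Finset.range D, j * (n - 1)
      ≤ N * N + D * (N * n) := Nat.add_le_add h3 h2
    _ ≤ N * N + N * (N * n) := Nat.add_le_add_left (Nat.mul_le_mul_right _ hD) _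
    _ ≤ N * N + N * (N * n) + (N * k ^ 2 + n * (N * k ^ 2)) := Nat.le_add_right _ _
    _ = (n + 1) * N * (N + k ^ 2) := by ring

theorem bound_NN (k c s d : ℕ) (hk : 1 ≤ k) (hs : 1 ≤ s) :
    (d + 1) ^ c ≤ (s * (d + 1)) ^ k * ((d + 1) * (k * d + 1) ^ c) ^ (k ^ 2) := by
  have h1 : (d + 1) ^ c ≤ (k * d + 1) ^ c :=
    Nat.pow_le_pow_left (Nat.add_le_add_right (Nat.le_mul_of_pos_left d hk) 1) c
  have h2 : (k * d + 1) ^ c ≤ (d + 1) * (k * d + 1) ^ c :=
    Nat.le_mul_of_pos_left _ (Nat.succ_pos d)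
  have h3 : (d + 1) * (k * d + 1) ^ c ≤ ((d + 1) * (k * d + 1) ^ c) ^ (k ^ 2) :=
    Nat.le_self_pow (pow_ne_zero 2 (by omega)) _
  have h4 : 0 < (s * (d + 1)) ^ k :=
    pow_pos (Nat.mul_pos hs (Nat.succ_pos d)) k
  calc (d + 1) ^ c ≤ (k * d + 1) ^ c := h1
    _ ≤ (d + 1) * (k * d + 1) ^ c := h2
    _ ≤ ((d + 1) * (k * d + 1) ^ c) ^ (k ^ 2) := h3
    _ ≤ (s * (d + 1)) ^ k * ((d + 1) * (k * d + 1) ^ c) ^ (k ^ 2) :=
      Nat.le_mul_of_pos_left _ h4

end Pool.Agent.SPE
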