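import Pool.Agent.SPD.Minor
import Pool.Agent.SPD.DetDeg

set_option autoImplicit false

namespace Pool.Agent.SPE

open Polynomial Pool.Agent.SPD

variable {K : Type*} [Field K]

private theorem cr_pick {s : ℕ} (F : ℕ → Fin s → K[X]) :
    ∃ r ≤ s, LinearIndependent K[X] (fun k : Fin r => F k) ∧
      ¬ LinearIndependent K[X] (fun k : Fin (r + 1) => F k) := by
  classical
  have h0 : LinearIndependent K[X] (fun k : Fin 0 => F k) := linearIndependent_empty_type
  refine ⟨Nat.findGreatest (fun r => LinearIndependent K[X] (fun k : Fin r => F k)) s,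
    Nat.findGreatest_le s, ?_, ?_⟩
  · exact Nat.findGreatest_spec (P := fun r => LinearIndependent K[X] (fun k : Fin r => F k))
      (Nat.zero_le s) h0
  · intro h
    by_cases hs : Nat.findGreatest (fun r => LinearIndependent K[X] (fun k : Fin r => F k)) s + 1 ≤ s
    · exact Nat.findGreatest_is_greatest (Nat.lt_succ_self _) hs h
    · have h1 := h.fintype_card_le_finrank
      rw [Module.finrank_fin_fun, Fintype.card_fin] at h1
      exact hs h1

private theorem cr_dep {s r : ℕ} (F : ℕ → Fin s → K[X])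
    (hr : LinearIndependent K[X] (fun k : Fin r => F k))
    (hr' : ¬ LinearIndependent K[X] (fun k : Fin (r + 1) => F k)) :
    ∃ u : K[X], u ≠ 0 ∧ u • F r ∈ Submodule.span K[X] (Set.range fun k : Fin r => F k) := by
  rw [Fintype.not_linearIndependent_iff] at hr'
  obtain ⟨g, hg, i, hi⟩ := hr'
  rw [Fin.sum_univ_castSucc] at hg
  simp only [Fin.val_castSucc, Fin.val_last] at hg
  have hne : g (Fin.last r) ≠ 0 := by
    intro h0
    rw [h0, zero_smul, add_zero] at hg
    have h1 := Fintype.linearIndependent_iff.1 hr _ hg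
    apply hi
    rcases Fin.eq_castSucc_or_eq_last i with ⟨j, rfl⟩ | rfl
    · exact h1 j
    · exact h0
  refine ⟨g (Fin.last r), hne, ?_⟩
  have h2 : g (Fin.last r) • F r = -∑ i : Fin r, g (Fin.castSucc i) • F i := by
    rw [eq_neg_iff_add_eq_zero, add_comm]
    exact hg
  rw [h2]
  refine Submodule.neg_mem _ (Submodule.sum_mem _ fun k _ => Submodule.smul_mem _ _ ?_)
  exact Submodule.subset_span ⟨k, rfl⟩

private theorem cr_T {s r : ℕ} (P : K[X]) (T : (Fin s → K[X]) → (Fin s → K[X]))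
    (hadd : ∀ v w, T (v + w) = T v + T w)
    (hT : ∀ (q : K[X]) (v : Fin s → K[X]), T (q • v) = (P * derivative q) • v + q • T v)
    (F : ℕ → Fin s → K[X]) (hF : ∀ k, F (k + 1) = T (F k)) {u : K[X]}
    (hu : u • F r ∈ Submodule.span K[X] (Set.range fun k : Fin r => F k)) {x : Fin s → K[X]}
    (hx : x ∈ Submodule.span K[X] (Set.range fun k : Fin r => F k)) :
    u • T x ∈ Submodule.span K[X] (Set.range fun k : Fin r => F k) := by
  induction hx using Submodule.span_induction with
  | mem x hx =>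
    obtain ⟨k, rfl⟩ := hx
    beta_reduce
    rw [← hF]
    by_cases hk : k.val + 1 = r
    · rw [hk]
      exact hu
    · have hk' : k.val + 1 < r := by
        have := k.2
        omega
      exact Submodule.smul_mem _ _ (Submodule.subset_span ⟨⟨k.val + 1, hk'⟩, rfl⟩)
  | zero =>
    have h := hT 0 0
    rw [zero_smul, zero_smul, derivative_zero, mul_zero, zero_smul, zero_add] at h
    rw [h, smul_zero]
    exact Submodule.zero_mem _
  | add x y _ _ hx hy =>
    rw [hadd, smul_add]
    exact Submodule.add_mem _ hx hy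
  | smul q x hx hx' =>
    rw [hT, smul_add, smul_comm u q]
    exact Submodule.add_mem _ (Submodule.smul_mem _ _ (Submodule.smul_mem _ _ hx))
      (Submodule.smul_mem _ _ hx')

private theorem cr_all {s r : ℕ} (P : K[X]) (T : (Fin s → K[X]) → (Fin s → K[X]))
    (hadd : ∀ v w, T (v + w) = T v + T w)
    (hT : ∀ (q : K[X]) (v : Fin s → K[X]), T (q • v) = (P * derivative q) • v + q • T v)
    (F : ℕ → Fin s → K[X]) (hF : ∀ k, F (k + 1) = T (F k)) {u : K[X]} (hu0 : u ≠ 0)
    (hu : u • F r ∈ Submodule.span K[X] (Set.range fun k : Fin r => F k)) (k : ℕ) :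
    ∃ v : K[X], v ≠ 0 ∧ v • F k ∈ Submodule.span K[X] (Set.range fun k : Fin r => F k) := by
  induction k with
  | zero =>
    by_cases h : 0 < r
    · exact ⟨1, one_ne_zero, by rw [one_smul]; exact Submodule.subset_span ⟨⟨0, h⟩, rfl⟩⟩
    · have h0 : r = 0 := by omega
      subst h0
      exact ⟨u, hu0, hu⟩
  | succ k ih =>
    obtain ⟨v, hv0, hv⟩ := ih
    have h1 := cr_T P T hadd hT F hF hu hv
    rw [hT, ← hF] at h1
    refine ⟨v * (u * v), mul_ne_zero hv0 (mul_ne_zero hu0 hv0), ?_⟩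
    have h2 : (v * (u * v)) • F (k + 1) =
        v • (u • ((P * derivative v) • F k + v • F (k + 1))) - (u * (P * derivative v)) • (v • F k) := by
      ext i
      simp only [Pi.smul_apply, Pi.add_apply, Pi.sub_apply, smul_eq_mul]
      ring_nf
    rw [h2]
    exact Submodule.sub_mem _ (Submodule.smul_mem _ _ h1) (Submodule.smul_mem _ _ hv)

private theorem cr_span {s : ℕ} (F : ℕ → Fin s → K[X]) (S : Submodule K[X] (Fin s → K[X]))
    (h : ∀ k, ∃ v : K[X], v ≠ 0 ∧ v • F k ∈ S) {x : Fin s → K[X]}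
    (hx : x ∈ Submodule.span K[X] (Set.range F)) : ∃ v : K[X], v ≠ 0 ∧ v • x ∈ S := by
  induction hx using Submodule.span_induction with
  | mem x hx =>
    obtain ⟨k, rfl⟩ := hx
    exact h k
  | zero => exact ⟨1, one_ne_zero, by rw [smul_zero]; exact S.zero_mem⟩
  | add x y _ _ hx hy =>
    obtain ⟨v, hv, hvx⟩ := hx
    obtain ⟨w, hw, hwy⟩ := hy
    refine ⟨v * w, mul_ne_zero hv hw, ?_⟩
    rw [smul_add]
    refine S.add_mem ?_ ?_
    · rw [mul_comm, mul_smul]
      exact S.smul_mem _ hvx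
    · rw [mul_smul]
      exact S.smul_mem _ hwy
  | smul q x _ hx =>
    obtain ⟨v, hv, hvx⟩ := hx
    refine ⟨v, hv, ?_⟩
    rw [smul_comm]
    exact S.smul_mem _ hvx

/-- `SPD.cramer` with arbitrary weights. -/
theorem cramer2 {s : ℕ} (P : K[X]) (T : (Fin s → K[X]) → (Fin s → K[X]))
    (hadd : ∀ v w, T (v + w) = T v + T w)
    (hT : ∀ (q : K[X]) (v : Fin s → K[X]), T (q • v) = (P * derivative q) • v + q • T v)
    (F : ℕ → Fin s → K[X]) (hF : ∀ k, F (k + 1) = T (F k)) (N : ℕ → ℕ)
    (hdeg : ∀ k j, (F k j).natDegree ≤ N k) (e : Fin s → K[X]) (q : K[X]) (hq : q ≠ 0)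
    (hqe : q • e ∈ Submodule.span K[X] (Set.range F)) :
    ∃ r : ℕ, r ≤ s ∧ ∃ Δ : K[X], Δ ≠ 0 ∧ Δ.natDegree ≤ ∑ k ∈ Finset.range r, N k ∧
      ∃ c : Fin r → K[X], Δ • e = ∑ k, c k • F k := by
  obtain ⟨r, hrs, hr, hr'⟩ := cr_pick F
  obtain ⟨u, hu0, hu⟩ := cr_dep F hr hr'
  obtain ⟨v, hv0, hv⟩ := cr_span F _ (cr_all P T hadd hT F hF hu0 hu) hqe
  rw [Submodule.mem_span_range_iff_exists_fun] at hv
  obtain ⟨d, hd⟩ := hv
  obtain ⟨j, hj⟩ := exists_minor (fun k : Fin r => F k) hr
  obtain ⟨M, hM⟩ : ∃ M : Matrix (Fin r) (Fin r) K[X], M = Matrix.of fun (k i : Fin r) => F k (j i) := ⟨_, rfl⟩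
  rw [← hM] at hj
  obtain ⟨c, hc⟩ : ∃ c : Fin r → K[X], c = Matrix.vecMul (fun i => e (j i)) M.adjugate := ⟨_, rfl⟩
  have h1 : Matrix.vecMul c M = M.det • (fun i => e (j i)) := by
    rw [hc, Matrix.vecMul_vecMul, Matrix.adjugate_mul, Matrix.vecMul_smul, Matrix.vecMul_one]
  have h2 : Matrix.vecMul d M = (v * q) • (fun i => e (j i)) := by
    funext i
    have h3 := congrFun hd (j i)
    rw [Finset.sum_apply] at h3
    simp only [Pi.smul_apply, smul_eq_mul] at h3
    rw [Matrix.vecMul, dotProduct, hM]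
    simp only [Matrix.of_apply, Pi.smul_apply, smul_eq_mul]
    rw [h3, mul_assoc]
  have h3 : M.det • d - (v * q) • c = 0 := by
    refine Matrix.eq_zero_of_vecMul_eq_zero hj ?_
    rw [Matrix.sub_vecMul, Matrix.smul_vecMul, Matrix.smul_vecMul, h1, h2, smul_comm, sub_self]
  have h4 : ∀ k, M.det * d k = (v * q) * c k := by
    intro k
    have := congrFun h3 k
    simpa [sub_eq_zero] using this
  refine ⟨r, hrs, M.det, hj, ?_, c, ?_⟩
  · have h5 := natDegree_det_le M (fun k : Fin r => N k) (by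
      intro k i
      rw [hM]
      exact hdeg k (j i))
    rwa [Finset.sum_range N]
  · have hvq : v * q ≠ 0 := mul_ne_zero hv0 hq
    funext i
    have h5 := congrFun hd i
    rw [Finset.sum_apply] at h5 ⊢
    simp only [Pi.smul_apply, smul_eq_mul] at h5 ⊢
    refine mul_left_cancel₀ hvq ?_
    calc v * q * (M.det * e i) = M.det * (v * (q * e i)) := by ring
      _ = M.det * ∑ k : Fin r, d k * F k i := by rw [h5]
      _ = ∑ k : Fin r, (M.det * d k) * F k i := by
          rw [Finset.mul_sum]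
          exact Finset.sum_congr rfl fun k _ => by ring
      _ = v * q * ∑ k : Fin r, c k * F k i := by
          rw [Finset.mul_sum]
          exact Finset.sum_congr rfl fun k _ => by rw [h4 k]; ring

end Pool.Agent.SPE
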