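import Pool.Agent.SPD.KeyAbs
import Pool.Agent.SPE.Cramer2
import Pool.Agent.SPD.One
import Pool.Agent.SPD.TTLem

set_option autoImplicit false

namespace Pool.Agent.SPE

open Polynomial Pool.Agent.SPD

variable {K : Type*} [Field K] [CharZero K] {σ : Type*} [Fintype σ] [DecidableEq σ]

omit [CharZero K] in
theorem TT_iterate_natDegree2 (a b : σ → K) {s : ℕ} (A : σ → Fin s → Fin s → K)
    (x : Fin s → K[X]) (q : ℕ) (hq : ∀ j, (x j).natDegree ≤ q) (k : ℕ) (l : Fin s) :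
    ((TT a b A)^[k] x l).natDegree ≤ q + k * (Fintype.card σ - 1) := by
  induction k generalizing l with
  | zero =>
    rw [Function.iterate_zero, id, Nat.zero_mul]
    exact hq l
  | succ k ih =>
    rw [Function.iterate_succ_apply', Nat.succ_mul, ← Nat.add_assoc]
    exact TT_natDegree a b A _ _ ih l

/-- Abstract zero estimate, algebraic part, polynomial start vector. -/
theorem zero_est2 (a b : σ → K) (ha : ∀ i, a i ≠ 0) (hb : ∀ i, b i ≠ 0)
    (hinj : Function.Injective b) {s : ℕ} {I : Type*} (deg : I → ℕ) (sh : σ → I → I)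
    (c : σ → I → K) (lam : I → Fin s → K) (A : σ → Fin s → Fin s → K)
    (hsh : ∀ i ν, deg (sh i ν) = deg ν + 1)
    (hsurj : ∀ μ, deg μ ≠ 0 → ∃ i ν, sh i ν = μ ∧ c i ν ≠ 0)
    (hone : ∀ ν ν', deg ν = 0 → deg ν' = 0 → ν = ν')
    (hA : ∀ i ν j, ∑ l, A i j l * lam ν l = c i ν * lam (sh i ν) j)
    (S : Finset I) (hS : ∀ ν, ν ∉ S → lam ν = 0)
    (hlam : ∀ v : Fin s → K, (∀ ν, ∑ j, v j * lam ν j = 0) → v = 0)
    (x : Fin s → K[X]) (hx : x ≠ 0) (q : ℕ) (hq : ∀ j, (x j).natDegree ≤ q) :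
    ∃ e : Fin s → K, (∀ ν, deg ν ≠ 0 → ∑ j, e j * lam ν j = 0) ∧
      (∃ ν0, deg ν0 = 0 ∧ ∑ j, e j * lam ν0 j = 1) ∧
      ∃ r : ℕ, r ≤ s ∧ ∃ Δ : K[X], Δ ≠ 0 ∧
        Δ.natDegree ≤ ∑ k ∈ Finset.range r, (q + k * (Fintype.card σ - 1)) ∧
        ∃ u : Fin r → K[X], Δ • (fun j => C (e j)) =
          ∑ k, u k • (TT a b A)^[(k : ℕ)] x := by
  set F : ℕ → Fin s → K[X] := fun k => (TT a b A)^[k] x with hFdef
  have hF : ∀ k, F (k + 1) = TT a b A (F k) := fun k => by
    simp only [hFdef, Function.iterate_succ_apply']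
  set R : Submodule K[X] (Fin s → K[X]) := Submodule.span K[X] (Set.range F) with hRdef
  have hR : ∀ v ∈ R, TT a b A v ∈ R := by
    intro v hv
    refine Submodule.span_induction (p := fun v _ => TT a b A v ∈ R) ?_ ?_ ?_ ?_ hv
    · rintro _ ⟨k, rfl⟩
      rw [← hF k]
      exact Submodule.subset_span ⟨k + 1, rfl⟩
    · have h0 : TT a b A 0 = 0 := by
        have := TT_smul a b A 0 0
        simpa using this
      rw [h0]
      exact R.zero_mem
    · intro v w _ _ hv hw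
      rw [TT_add]
      exact R.add_mem hv hw
    · intro q v hvm hv
      rw [TT_smul]
      exact R.add_mem (R.smul_mem _ hvm) (R.smul_mem _ hv)
  have hF0 : F 0 ∈ R := Submodule.subset_span ⟨0, rfl⟩
  have hF0ne : F 0 ≠ 0 := by
    exact hx
  obtain ⟨v, hvR, hv0, hv⟩ := key_abs a b ha hb hinj deg sh c lam A hsh hsurj hA S hS
    (inj_poly lam hlam) R hR (F 0) hF0 hF0ne
  obtain ⟨e, he1, he2, q', hq', hve⟩ := exists_const deg lam hlam hone v hv0 hv
  obtain ⟨r, hr, Δ, hΔ, hdeg, u, hu⟩ := cramer2 (PP b) (TT a b A) (TT_add a b A) (TT_smul a b A) F hF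
    (fun k => q + k * (Fintype.card σ - 1)) (fun k j => TT_iterate_natDegree2 a b A x q hq k j)
    (fun j => C (e j)) q' hq' (by rw [← hve]; exact hvR)
  exact ⟨e, he1, he2, r, hr, Δ, hΔ, hdeg, u, hu⟩

/-- Abstract zero estimate: the power series attached to a nonzero vector vanishes at `0` at most to
the order `(s - 1) + sum_{k < s} k (n - 1)`, `n = card sig`. -/
theorem order_abs2 (a b : σ → K) (ha : ∀ i, a i ≠ 0) (hb : ∀ i, b i ≠ 0)
    (hinj : Function.Injective b) {s : ℕ} {I : Type*} (deg : I → ℕ) (sh : σ → I → I)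
    (c : σ → I → K) (lam : I → Fin s → K) (A : σ → Fin s → Fin s → K)
    (hsh : ∀ i ν, deg (sh i ν) = deg ν + 1)
    (hsurj : ∀ μ, deg μ ≠ 0 → ∃ i ν, sh i ν = μ ∧ c i ν ≠ 0)
    (hone : ∀ ν ν', deg ν = 0 → deg ν' = 0 → ν = ν')
    (hA : ∀ i ν j, ∑ l, A i j l * lam ν l = c i ν * lam (sh i ν) j)
    (S : Finset I) (hS : ∀ ν, ν ∉ S → lam ν = 0)
    (hlam : ∀ v : Fin s → K, (∀ ν, ∑ j, v j * lam ν j = 0) → v = 0)
    (w : Fin s → PowerSeries K)
    (hw : ∀ j, (PP b : PowerSeries K) * PowerSeries.derivative K (w j) =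
      ∑ i, (GG a b i : PowerSeries K) * ∑ l, PowerSeries.C (A i j l) * w l)
    (hw1 : ∀ e : Fin s → K, (∀ ν, deg ν ≠ 0 → ∑ j, e j * lam ν j = 0) →
      (∀ ν, deg ν = 0 → ∑ j, e j * lam ν j = 1) → ∑ j, PowerSeries.C (e j) * w j = 1)
    (x : Fin s → K[X]) (hx : x ≠ 0) (q : ℕ) (hq : ∀ j, (x j).natDegree ≤ q) (M : ℕ)
    (hM : (s - 1) + ∑ k ∈ Finset.range s, (q + k * (Fintype.card σ - 1)) ≤ M) :
    ¬ (PowerSeries.X : PowerSeries K) ^ (M + 1) ∣ ∑ j, (x j : PowerSeries K) * w j := by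
  intro hdvd
  obtain ⟨e, he1, ⟨ν0, hν0, he0⟩, r, hr, Δ, hΔ, hdeg, u, hu⟩ :=
    zero_est2 a b ha hb hinj deg sh c lam A hsh hsurj hone hA S hS hlam x hx q hq
  have hew : ∑ j, PowerSeries.C (e j) * w j = 1 :=
    hw1 e he1 (fun ν hν => by rw [hone ν ν0 hν hν0]; exact he0)
  have hsum : (Δ : PowerSeries K) = ∑ k : Fin r, (u k : PowerSeries K) *
      ∑ j, ((TT a b A)^[(k : ℕ)] x j : PowerSeries K) * w j := by
    have h1 : ∑ j, ((Δ • (fun j => C (e j)) : Fin s → K[X]) j : PowerSeries K) * w j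
        = (Δ : PowerSeries K) := by
      have : ∀ j, ((Δ • (fun j => C (e j)) : Fin s → K[X]) j : PowerSeries K) * w j =
          (Δ : PowerSeries K) * (PowerSeries.C (e j) * w j) := by
        intro j
        rw [Pi.smul_apply, smul_eq_mul, Polynomial.coe_mul, Polynomial.coe_C, mul_assoc]
      rw [Finset.sum_congr rfl fun j _ => this j, ← Finset.mul_sum, hew, mul_one]
    rw [← h1, hu]
    have h2 : ∀ j, ((∑ k : Fin r, u k • (TT a b A)^[(k : ℕ)] x : Fin s → K[X]) j :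
        PowerSeries K) = ∑ k : Fin r, (u k : PowerSeries K) *
          ((TT a b A)^[(k : ℕ)] x j : PowerSeries K) := by
      intro j
      rw [Finset.sum_apply]
      rw [← Polynomial.coeToPowerSeries.ringHom_apply, map_sum]
      refine Finset.sum_congr rfl fun k _ => ?_
      rw [Pi.smul_apply, smul_eq_mul, map_mul]
      rfl
    simp only [h2, Finset.sum_mul, Finset.mul_sum]
    rw [Finset.sum_comm]
    refine Finset.sum_congr rfl fun k _ => Finset.sum_congr rfl fun j _ => ?_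
    ring
  have hD : (PowerSeries.X : PowerSeries K) ^
      (∑ k ∈ Finset.range r, (q + k * (Fintype.card σ - 1)) + 1) ∣ (Δ : PowerSeries K) := by
    rw [hsum]
    refine Finset.dvd_sum fun k _ => Dvd.dvd.mul_left ?_ _
    refine dvd_iterate a b A w hw _ _ k ?_
    refine dvd_trans (pow_dvd_pow _ ?_) (by simpa [Polynomial.coe_C] using hdvd)
    have hk := k.2
    have hsub : ∑ k ∈ Finset.range r, (q + k * (Fintype.card σ - 1)) ≤
        ∑ k ∈ Finset.range s, (q + k * (Fintype.card σ - 1)) :=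
      Finset.sum_le_sum_of_subset (Finset.range_subset_range.2 hr)
    omega
  apply hΔ
  rw [PowerSeries.X_pow_dvd_iff] at hD
  ext m
  rw [Polynomial.coeff_zero]
  by_cases hm : m < ∑ k ∈ Finset.range r, (q + k * (Fintype.card σ - 1)) + 1
  · have := hD m hm
    rwa [Polynomial.coeff_coe] at this
  · exact Polynomial.coeff_eq_zero_of_natDegree_lt (by omega)

end Pool.Agent.SPE
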