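import Pool.Agent.SPE.Ev
import Pool.Agent.SPE.Est2
import Pool.Agent.SPD.Space

/-!
# SPE: the zero estimate for `K[t]_{≤ q} ⊗ V`
-/

set_option autoImplicit false

namespace Pool.Agent.SPE

open Polynomial

variable {σ : Type*} [Fintype σ] [DecidableEq σ] {κ : Type*} [Field κ] [CharZero κ]

omit [Fintype σ] [DecidableEq σ] [CharZero κ] in
private theorem ev_sumZ (a b : σ → κ) {s : ℕ} (y : Fin s → κ) (p : Fin s → MvPolynomial σ κ) :
    ∑ j, PowerSeries.C (y j) * SPD.evK a b (p j) = SPD.evK a b (∑ j, y j • p j) := by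
  rw [map_sum]
  refine Finset.sum_congr rfl fun j _ => ?_
  rw [map_smul, PowerSeries.smul_eq_C_mul]

omit [Fintype σ] [DecidableEq σ] [CharZero κ] in
private theorem coeff_sum_smulZ {s : ℕ} (y : Fin s → κ) (p : Fin s → MvPolynomial σ κ)
    (ν : σ →₀ ℕ) :
    MvPolynomial.coeff ν (∑ j, y j • p j) = ∑ j, y j * MvPolynomial.coeff ν (p j) := by
  rw [MvPolynomial.coeff_sum]
  refine Finset.sum_congr rfl fun j _ => ?_
  rw [MvPolynomial.coeff_smul, smul_eq_mul]

omit [Fintype σ] [DecidableEq σ] [CharZero κ] in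
private theorem repr_sumZ {V : Submodule κ (MvPolynomial σ κ)} {s : ℕ}
    (v : Module.Basis (Fin s) κ V) (g : V) :
    ∑ j, v.repr g j • (v j : MvPolynomial σ κ) = (g : MvPolynomial σ κ) := by
  have h := congrArg (fun x : V => (x : MvPolynomial σ κ)) (v.sum_repr g)
  simp only [AddSubmonoidClass.coe_finsetSum, Submodule.coe_smul] at h
  exact h

omit [CharZero κ] in
private theorem ev_expZ (a b : σ → ℕ) (q : ℕ) (ρ : B σ κ) (hd : ρ.natDegree ≤ q) :
    ev a b κ ρ = ∑ m ∈ Finset.range (q + 1),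
      SPD.evK (fun i => (a i : κ)) (fun i => (b i : κ)) (ρ.coeff m) * (PowerSeries.X : PowerSeries κ) ^ m := by
  conv_lhs => rw [ρ.as_sum_range_C_mul_X_pow' (Nat.lt_succ_of_le hd)]
  rw [map_sum]
  refine Finset.sum_congr rfl fun m _ => ?_
  rw [map_mul, ev_C, map_pow]
  congr 2
  simp [ev]

/- PLAN. As `SPD.order_space` (copy its proof), with `order_abs2` and the vector
`x j = ∑ m ∈ range (q + 1), monomial m (v.repr (ρ.coeff m) j)`, `v` a basis of `V`; then
`ev a b κ ρ = ∑ j, (x j : PowerSeries κ) * evK (v j)`. -/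
theorem zeta (a b : σ → ℕ) (ha : ∀ i, a i ≠ 0) (hb : ∀ i, b i ≠ 0) (hinj : Function.Injective b)
    (V : Submodule κ (Y σ κ)) (hfd : FiniteDimensional κ V) (hV : Closed V) (q N M : ℕ)
    (hN : Module.finrank κ V ≤ N) (ρ : B σ κ) (hρ : TV q V ρ) (hρ0 : ρ ≠ 0)
    (hM : (N - 1) + ∑ k ∈ Finset.range N, (q + k * (Fintype.card σ - 1)) ≤ M) :
    ¬ (PowerSeries.X : PowerSeries κ) ^ (M + 1) ∣ ev a b κ ρ := by
  obtain ⟨hρd, hρc⟩ := hρ
  obtain ⟨v⟩ : Nonempty (Module.Basis (Fin (Module.finrank κ V)) κ V) := ⟨Module.finBasis κ V⟩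
  set x : Fin (Module.finrank κ V) → κ[X] := fun j =>
    ∑ m ∈ Finset.range (q + 1), monomial m (v.repr ⟨ρ.coeff m, hρc m⟩ j) with hxdef
  have hxc : ∀ j m, m ≤ q → (x j).coeff m = v.repr ⟨ρ.coeff m, hρc m⟩ j := by
    intro j m hm
    simp only [hxdef, Polynomial.finsetSum_coeff, Polynomial.coeff_monomial]
    rw [Finset.sum_eq_single_of_mem m (Finset.mem_range.2 (by omega))
      (fun m' _ hm' => if_neg hm'), if_pos rfl]
  have hxp : ∀ j, ((x j : κ[X]) : PowerSeries κ) = ∑ m ∈ Finset.range (q + 1),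
      PowerSeries.C (v.repr ⟨ρ.coeff m, hρc m⟩ j) * (PowerSeries.X : PowerSeries κ) ^ m := by
    intro j
    rw [hxdef]
    rw [← Polynomial.coeToPowerSeries.ringHom_apply, map_sum]
    refine Finset.sum_congr rfl fun m _ => ?_
    rw [Polynomial.coeToPowerSeries.ringHom_apply, Polynomial.coe_monomial]
    ext n
    rw [PowerSeries.coeff_monomial, PowerSeries.coeff_C_mul, PowerSeries.coeff_X_pow]
    simp
  have hev : ev a b κ ρ = ∑ j, ((x j : κ[X]) : PowerSeries κ) *
      SPD.evK (fun i => (a i : κ)) (fun i => (b i : κ)) (v j : MvPolynomial σ κ) := by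
    rw [ev_expZ a b q ρ hρd]
    simp only [hxp, Finset.sum_mul]
    rw [Finset.sum_comm]
    refine Finset.sum_congr rfl fun m _ => ?_
    have h1 : ∑ j, v.repr ⟨ρ.coeff m, hρc m⟩ j • (v j : MvPolynomial σ κ) = ρ.coeff m :=
      repr_sumZ v ⟨ρ.coeff m, hρc m⟩
    have h2 : SPD.evK (fun i => (a i : κ)) (fun i => (b i : κ)) (ρ.coeff m) =
        ∑ j, PowerSeries.C (v.repr ⟨ρ.coeff m, hρc m⟩ j) *
          SPD.evK (fun i => (a i : κ)) (fun i => (b i : κ)) (v j : MvPolynomial σ κ) := by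
      rw [ev_sumZ, h1]
    rw [h2, Finset.sum_mul]
    refine Finset.sum_congr rfl fun j _ => ?_
    ring
  rw [hev]
  refine order_abs2 (fun i => (a i : κ)) (fun i => (b i : κ)) (fun i => Nat.cast_ne_zero.2 (ha i))
    (fun i => Nat.cast_ne_zero.2 (hb i)) (Nat.cast_injective.comp hinj) (I := σ →₀ ℕ) (fun ν => ν.degree)
    (fun i ν => ν + Finsupp.single i 1) (fun i ν => (ν i : κ) + 1)
    (fun ν j => MvPolynomial.coeff ν (v j : MvPolynomial σ κ))
    (fun i j l => v.repr ⟨MvPolynomial.pderiv i (v j : MvPolynomial σ κ), hV _ (v j).2 i⟩ l)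
    ?_ ?_ ?_ ?_ (Finset.univ.biUnion fun j => (v j : MvPolynomial σ κ).support) ?_ ?_
    (fun j => SPD.evK (fun i => (a i : κ)) (fun i => (b i : κ)) (v j : MvPolynomial σ κ)) ?_ ?_ x ?_ q ?_ M ?_
  · intro i ν
    show (ν + Finsupp.single i 1).degree = ν.degree + 1
    rw [map_add, Finsupp.degree_single]
  · intro μ hμ
    have h1 : μ ≠ 0 := by
      rintro rfl
      exact hμ (map_zero _)
    obtain ⟨i, hi⟩ := Finsupp.ne_iff.1 h1
    refine ⟨i, μ - Finsupp.single i 1, ?_, ?_⟩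
    · show μ - Finsupp.single i 1 + Finsupp.single i 1 = μ
      refine tsub_add_cancel_of_le ?_
      rw [Finsupp.single_le_iff]
      exact Nat.one_le_iff_ne_zero.2 hi
    · exact Nat.cast_add_one_ne_zero _
  · intro ν ν' h h'
    rw [(Finsupp.degree_eq_zero_iff ν).1 h, (Finsupp.degree_eq_zero_iff ν').1 h']
  · intro i ν j
    show ∑ l, v.repr ⟨MvPolynomial.pderiv i (v j : MvPolynomial σ κ), hV _ (v j).2 i⟩ l *
      MvPolynomial.coeff ν (v l : MvPolynomial σ κ) = _
    rw [← coeff_sum_smulZ, repr_sumZ v ⟨MvPolynomial.pderiv i (v j : MvPolynomial σ κ), hV _ (v j).2 i⟩,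
      MvPolynomial.coeff_pderiv, mul_comm]
  · intro ν hν
    funext j
    rw [Finset.mem_biUnion] at hν
    push Not at hν
    exact MvPolynomial.notMem_support_iff.1 (hν j (Finset.mem_univ j))
  · intro y hy
    have h1 : ∑ j, y j • v j = 0 := by
      apply Subtype.ext
      rw [AddSubmonoidClass.coe_finsetSum]
      ext ν
      simp only [Submodule.coe_smul]
      rw [coeff_sum_smulZ, hy ν]
      simp
    funext j
    exact Fintype.linearIndependent_iff.1 v.linearIndependent y h1 j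
  · intro j
    show (SPD.PP (fun i => (b i : κ)) : PowerSeries κ) *
      PowerSeries.derivative κ (SPD.evK (fun i => (a i : κ)) (fun i => (b i : κ)) (v j : MvPolynomial σ κ)) = _
    rw [SPD.evK_deriv]
    refine Finset.sum_congr rfl fun i _ => ?_
    rw [ev_sumZ, repr_sumZ v ⟨MvPolynomial.pderiv i (v j : MvPolynomial σ κ), hV _ (v j).2 i⟩]
  · intro e h1 h2
    rw [ev_sumZ]
    have h3 : ∑ j, e j • (v j : MvPolynomial σ κ) = 1 := by
      ext ν
      rw [coeff_sum_smulZ, MvPolynomial.coeff_one]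
      by_cases hν : ν = 0
      · rw [if_pos hν.symm]
        exact h2 ν (by rw [hν]; exact map_zero _)
      · rw [if_neg fun h => hν h.symm]
        exact h1 ν fun h => hν ((Finsupp.degree_eq_zero_iff ν).1 h)
    rw [h3, map_one]
  · intro h
    apply hρ0
    ext1 m
    rw [Polynomial.coeff_zero]
    by_cases hm : m ≤ q
    · have h1 : ∑ j, v.repr ⟨ρ.coeff m, hρc m⟩ j • (v j : MvPolynomial σ κ) = ρ.coeff m :=
        repr_sumZ v ⟨ρ.coeff m, hρc m⟩
      refine h1.symm.trans ?_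
      refine Finset.sum_eq_zero fun j _ => ?_
      rw [← hxc j m hm, h]
      simp
    · exact Polynomial.coeff_eq_zero_of_natDegree_lt (lt_of_le_of_lt hρd (by omega))
  · intro j
    refine Polynomial.natDegree_sum_le_of_forall_le _ _ fun m hm => ?_
    refine (Polynomial.natDegree_monomial_le _).trans ?_
    have := Finset.mem_range.1 hm
    omega
  · have h1 : ∑ k ∈ Finset.range (Module.finrank κ V), (q + k * (Fintype.card σ - 1)) ≤
        ∑ k ∈ Finset.range N, (q + k * (Fintype.card σ - 1)) :=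
      Finset.sum_le_sum_of_subset (Finset.range_subset_range.2 hN)
    omega

end Pool.Agent.SPE
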