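import Pool.Agent.SPE.KSide
import Pool.Agent.SPE.Zeta
import Pool.Agent.SPE.OmNe
import Pool.Agent.SPE.FinS
import Pool.Agent.SPE.Sat
import Pool.Agent.SPE.Pnorm
import Pool.Agent.SPE.JMem
import Pool.Agent.SPE.Last
import Pool.Agent.SPE.SubF

/-!
# SPE: assembly
-/

set_option autoImplicit false

namespace Pool.Agent.SPE

open Polynomial

section comb

variable {σ : Type*} [Fintype σ] [DecidableEq σ] {K : Type*} [Field K]

/-- The Wronskian of combinations. -/
theorem Om_comb (a b : σ → ℕ) (α : σ → ℕ) {r : ℕ} (T w : Fin r → MvPolynomial σ K)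
    (hw : ∀ j, w j ∈ Submodule.span K (Set.range T)) :
    ∃ x : K, (Om a b α w : PowerSeries (B σ K)) =
      PowerSeries.C (C (MvPolynomial.C x)) * (Om a b α T : PowerSeries (B σ K)) := by
  have hw' : ∀ j, ∃ y : Fin r → K, ∑ i, y i • T i = w j := fun j =>
    Submodule.mem_span_range_iff_exists_fun K |>.1 (hw j)
  choose y hy using hw'
  set ι : K →+* PowerSeries (B σ K) :=
    (PowerSeries.C : B σ K →+* PowerSeries (B σ K)).comp
      ((C : Y σ K →+* B σ K).comp MvPolynomial.C) with hι
  refine ⟨(Matrix.of fun i j : Fin r => y j i).det, ?_⟩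
  have hC : ∀ x : K, PowerSeries.C (C (MvPolynomial.C x)) = ι x := fun x => rfl
  rw [hC, RingHom.map_det, mul_comm, Om_coe, Om_coe, ← Matrix.det_mul]
  congr 1
  ext1 l j
  have hlin : ∀ (l : ℕ) (x : K) (v : PowerSeries (B σ K)),
      (DZ a b K)^[l] (ι x * v) = ι x * (DZ a b K)^[l] v := by
    intro l x v
    induction l generalizing v with
    | zero => rfl
    | succ l ih =>
      rw [Function.iterate_succ_apply, Function.iterate_succ_apply]
      have h1 : DZ a b K (ι x * v) = ι x * DZ a b K v := by
        ext1 m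
        rw [DZ, coeff_cwS]
        rw [hι]
        simp only [RingHom.comp_apply, PowerSeries.coeff_C_mul, coeff_cwS]
        have h2 : ∀ u : B σ K, (C (MvPolynomial.C x) : B σ K) * u = x • u := by
          intro u
          rw [← MvPolynomial.algebraMap_eq, ← Polynomial.algebraMap_apply, ← Algebra.smul_def]
        rw [h2, h2, DB_smul]
      rw [h1, ih]
  have hsum : ∀ (l : ℕ) (s : Finset (Fin r)) (v : Fin r → PowerSeries (B σ K)),
      (DZ a b K)^[l] (∑ i ∈ s, v i) = ∑ i ∈ s, (DZ a b K)^[l] (v i) := by
    intro l s v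
    induction l generalizing v with
    | zero => rfl
    | succ l ih =>
      rw [Function.iterate_succ_apply, map_sum, ih]
      rfl
  have hphi : PhiS α (w j) = ∑ i, ι (y j i) * PhiS α (T i) := by
    rw [← hy j]
    simp only [PhiS]
    rw [map_sum]
    have h3 : ((∑ i, PhiY α (y j i • T i) : Polynomial (Y σ K)) : PowerSeries (Y σ K)) =
        ∑ i, (PhiY α (y j i • T i) : PowerSeries (Y σ K)) := by
      rw [← Polynomial.coeToPowerSeries.ringHom_apply, map_sum]
      rfl
    rw [h3, map_sum]
    refine Finset.sum_congr rfl fun i _ => ?_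
    rw [map_smul]
    have h4 : (y j i • PhiY α (T i) : Polynomial (Y σ K)) =
        C (MvPolynomial.C (y j i)) * PhiY α (T i) := by
      rw [← MvPolynomial.algebraMap_eq, ← Polynomial.algebraMap_apply, ← Algebra.smul_def]
    rw [h4, Polynomial.coe_mul, map_mul, Polynomial.coe_C]
    congr 1
    rw [upS, PowerSeries.map_C, hι]
    rfl
  rw [Matrix.mul_apply]
  simp only [Matrix.of_apply]
  rw [hphi, hsum]
  refine Finset.sum_congr rfl fun i _ => ?_
  rw [hlin, mul_comm]
  rfl

end comb

section resid

variable {σ : Type*} [Fintype σ] [DecidableEq σ] {O : Type*} [CommRing O] [IsDomain O]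
  [ValuationRing O] {K : Type*} [Field K] [Algebra O K] [IsFractionRing O K]

/-- Lowest coefficient of the Wronskian modulo the maximal ideal. -/
theorem resid_step (a b : σ → ℕ) (α : σ → ℕ) {r : ℕ} (w : Fin r → MvPolynomial σ O)
    (G0 : Polynomial (Y σ O)) (g0 : O) (hg0 : G0.coeff 0 = MvPolynomial.C g0) (hu : IsUnit g0)
    (W : Submodule K (Y σ K)) (hfd : FiniteDimensional K W) (hW : Closed W) (μ q : ℕ)
    (ξ : PowerSeries (B σ K)) (hξ : Small μ q W ξ) (x : K)
    (hK : (Om a b α (fun j => MvPolynomial.map (algebraMap O K) (w j)) : PowerSeries (B σ K)) =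
      PowerSeries.C (C (MvPolynomial.C x)) *
        (upS σ K ((G0.map (MvPolynomial.map (algebraMap O K)) : Polynomial (Y σ K)) :
          PowerSeries (Y σ K)) * ξ))
    (m0 : ℕ) (hm0 : m0 ≤ μ)
    (hlow : ∀ m < m0,
      (Om a b α (fun j => MvPolynomial.map (IsLocalRing.residue O) (w j))).coeff m = 0) :
    ∃ (V : Submodule (IsLocalRing.ResidueField O) (Y σ (IsLocalRing.ResidueField O)))
      (c0 : IsLocalRing.ResidueField O), Closed V ∧
      FiniteDimensional (IsLocalRing.ResidueField O) V ∧
      Module.finrank (IsLocalRing.ResidueField O) V ≤ Module.finrank K W ∧ c0 ≠ 0 ∧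
      TV q V (C (MvPolynomial.C c0) *
        (Om a b α (fun j => MvPolynomial.map (IsLocalRing.residue O) (w j))).coeff m0) := by
  obtain ⟨V, hV, hVfd, hVr, hVm⟩ := resid_space (O := O) W hfd hW
  obtain ⟨g', hg'⟩ := hu.exists_right_inv
  have hunit : IsUnit (G0 : PowerSeries (Y σ O)) := by
    rw [PowerSeries.isUnit_iff_constantCoeff]
    have h1 : PowerSeries.constantCoeff (G0 : PowerSeries (Y σ O)) = MvPolynomial.C g0 := by
      rw [← hg0, ← PowerSeries.coeff_zero_eq_constantCoeff_apply, Polynomial.coeff_coe]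
    rw [h1]
    exact hu.map MvPolynomial.C
  obtain ⟨G', hG'⟩ := hunit.exists_right_inv
  have hG'0 : PowerSeries.constantCoeff G' = MvPolynomial.C g' := by
    have h1 := congrArg PowerSeries.constantCoeff hG'
    rw [map_mul, map_one] at h1
    have h2 : PowerSeries.constantCoeff (G0 : PowerSeries (Y σ O)) = MvPolynomial.C g0 := by
      rw [← hg0, ← PowerSeries.coeff_zero_eq_constantCoeff_apply, Polynomial.coeff_coe]
    rw [h2] at h1
    have h3 : (MvPolynomial.C g' : Y σ O) * (MvPolynomial.C g0 * PowerSeries.constantCoeff G') =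
        MvPolynomial.C g' := by rw [h1, mul_one]
    rw [← mul_assoc, ← map_mul, mul_comm g', hg', map_one, one_mul] at h3
    exact h3
  set Θ : PowerSeries (B σ O) := (Om a b α w : PowerSeries (B σ O)) * upS σ O G' with hΘ
  set mK : B σ O →+* B σ K := Polynomial.mapRingHom (MvPolynomial.map (algebraMap O K)) with hmK
  set mR : B σ O →+* B σ (IsLocalRing.ResidueField O) :=
    Polynomial.mapRingHom (MvPolynomial.map (IsLocalRing.residue O)) with hmR
  have hup : PowerSeries.map mK (upS σ O (G0 : PowerSeries (Y σ O))) =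
      upS σ K ((G0.map (MvPolynomial.map (algebraMap O K)) : Polynomial (Y σ K)) :
          PowerSeries (Y σ K)) := by
    ext1 m
    simp only [upS, PowerSeries.coeff_map, Polynomial.coeff_coe, Polynomial.coeff_map, hmK,
      Polynomial.coe_mapRingHom, Polynomial.map_C]
  have hOmK : PowerSeries.map mK (Om a b α w : PowerSeries (B σ O)) =
      (Om a b α (fun j => MvPolynomial.map (algebraMap O K) (w j)) : PowerSeries (B σ K)) := by
    rw [Om_map]
    ext1 m
    simp only [PowerSeries.coeff_map, Polynomial.coeff_coe, Polynomial.coeff_map, hmK]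
  have hOmR : PowerSeries.map mR (Om a b α w : PowerSeries (B σ O)) =
      (Om a b α (fun j => MvPolynomial.map (IsLocalRing.residue O) (w j)) :
        PowerSeries (B σ (IsLocalRing.ResidueField O))) := by
    rw [Om_map]
    ext1 m
    simp only [PowerSeries.coeff_map, Polynomial.coeff_coe, Polynomial.coeff_map, hmR]
  have hKΘ : PowerSeries.map mK Θ = PowerSeries.C (C (MvPolynomial.C x)) * ξ := by
    rw [hΘ, map_mul, hOmK, hK, ← hup]
    have h1 : PowerSeries.map mK (upS σ O (G0 : PowerSeries (Y σ O))) *
        PowerSeries.map mK (upS σ O G') = 1 := by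
      rw [← map_mul, ← map_mul, hG', map_one, map_one]
    calc PowerSeries.C (C (MvPolynomial.C x)) *
          (PowerSeries.map mK (upS σ O (G0 : PowerSeries (Y σ O))) * ξ) *
          PowerSeries.map mK (upS σ O G') = PowerSeries.C (C (MvPolynomial.C x)) * ξ *
          (PowerSeries.map mK (upS σ O (G0 : PowerSeries (Y σ O))) *
            PowerSeries.map mK (upS σ O G')) := by ring
      _ = _ := by rw [h1, mul_one]
  have hcK : mK (PowerSeries.coeff m0 Θ) = C (MvPolynomial.C x) * PowerSeries.coeff m0 ξ := by
    rw [← PowerSeries.coeff_map, hKΘ, PowerSeries.coeff_C_mul]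
  have hcR : mR (PowerSeries.coeff m0 Θ) = C (MvPolynomial.C (IsLocalRing.residue O g')) *
        (Om a b α (fun j => MvPolynomial.map (IsLocalRing.residue O) (w j))).coeff m0 := by
    rw [← PowerSeries.coeff_map, hΘ, map_mul, hOmR, PowerSeries.coeff_mul,
      Finset.sum_eq_single (m0, 0)]
    · rw [Polynomial.coeff_coe, PowerSeries.coeff_map, mul_comm]
      congr 1
      rw [PowerSeries.coeff_zero_eq_constantCoeff_apply, upS]
      have h1 : PowerSeries.constantCoeff (PowerSeries.map (C : Y σ O →+* B σ O) G') =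
          C (MvPolynomial.C g') := by
        rw [← hG'0, ← PowerSeries.coeff_zero_eq_constantCoeff_apply, PowerSeries.coeff_map,
          PowerSeries.coeff_zero_eq_constantCoeff_apply]
      rw [h1, hmR, Polynomial.coe_mapRingHom, Polynomial.map_C, MvPolynomial.map_C]
    · rintro ⟨i, j⟩ hij hne
      have hij' : i + j = m0 := by simpa using hij
      have hi : i < m0 := by
        rcases Nat.lt_or_ge i m0 with h | h
        · exact h
        · exfalso
          apply hne
          have h1 : i = m0 := by omega
          have h2 : j = 0 := by omega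
          rw [h1, h2]
      show PowerSeries.coeff i _ * _ = 0
      rw [Polynomial.coeff_coe, hlow i hi, zero_mul]
    · intro h
      exact absurd (by simp) h
  have hTV : TV q W (mK (PowerSeries.coeff m0 Θ)) := by
    rw [hcK]
    have h1 := hξ m0 hm0
    refine ⟨(Polynomial.natDegree_C_mul_le _ _).trans h1.1, fun m => ?_⟩
    rw [Polynomial.coeff_C_mul, ← MvPolynomial.smul_eq_C_mul]
    exact W.smul_mem _ (h1.2 m)
  refine ⟨V, IsLocalRing.residue O g', hV, hVfd, hVr, ?_, ?_⟩
  · intro h
    have h1 := congrArg (IsLocalRing.residue O) hg'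
    rw [map_mul, h, mul_zero, map_one] at h1
    exact zero_ne_one h1
  · rw [← hcR]
    refine ⟨?_, fun m => ?_⟩
    · rw [hmR, Polynomial.coe_mapRingHom]
      refine (Polynomial.natDegree_map_le).trans ?_
      have h2 := hTV.1
      rw [hmK, Polynomial.coe_mapRingHom, Polynomial.natDegree_map_eq_of_injective] at h2
      · exact h2
      · exact MvPolynomial.map_injective _ (IsFractionRing.injective O K)
    · rw [hmR, Polynomial.coe_mapRingHom, Polynomial.coeff_map]
      refine hVm _ ?_
      have h2 := hTV.2 m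
      rwa [hmK, Polynomial.coe_mapRingHom, Polynomial.coeff_map] at h2

end resid

end Pool.Agent.SPE
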