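import Pool.Agent.SPE.Defs

/-!
# SPE: coefficientwise maps
-/

set_option autoImplicit false

namespace Pool.Agent.SPE

open Polynomial

variable {A : Type*} [CommRing A] {A' : Type*} [CommRing A']

theorem cwP_mul (δ : A →+ A) (hδ : ∀ x y, δ (x * y) = x * δ y + δ x * y) (p q : A[X]) :
    cwP δ (p * q) = p * cwP δ q + cwP δ p * q := by
  ext n
  rw [coeff_cwP, coeff_add, coeff_mul, coeff_mul, coeff_mul, map_sum, ← Finset.sum_add_distrib]
  refine Finset.sum_congr rfl fun x _ => ?_
  rw [coeff_cwP, coeff_cwP, hδ]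

theorem cwS_mul (δ : A →+ A) (hδ : ∀ x y, δ (x * y) = x * δ y + δ x * y) (p q : PowerSeries A) :
    cwS δ (p * q) = p * cwS δ q + cwS δ p * q := by
  ext n
  rw [coeff_cwS, map_add, PowerSeries.coeff_mul, PowerSeries.coeff_mul, PowerSeries.coeff_mul, map_sum,
    ← Finset.sum_add_distrib]
  refine Finset.sum_congr rfl fun x _ => ?_
  rw [coeff_cwS, coeff_cwS, hδ]

theorem cwP_map (f : A →+* A') (δ : A →+ A) (δ' : A' →+ A') (h : ∀ x, δ' (f x) = f (δ x))
    (p : A[X]) : cwP δ' (p.map f) = (cwP δ p).map f := by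
  ext n
  rw [coeff_cwP, coeff_map, coeff_map, coeff_cwP, h]

theorem cwS_map (f : A →+* A') (δ : A →+ A) (δ' : A' →+ A') (h : ∀ x, δ' (f x) = f (δ x))
    (p : PowerSeries A) : cwS δ' (PowerSeries.map f p) = PowerSeries.map f (cwS δ p) := by
  ext n
  rw [coeff_cwS, PowerSeries.coeff_map, PowerSeries.coeff_map, coeff_cwS, h]

theorem cwP_coe (δ : A →+ A) (p : A[X]) : ((cwP δ p : A[X]) : PowerSeries A) = cwS δ p := by
  ext n
  rw [Polynomial.coeff_coe, coeff_cwP, coeff_cwS, Polynomial.coeff_coe]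

private theorem cw_natDegree (δ : A →+ A) (p : A[X]) : (cwP δ p).natDegree ≤ p.natDegree := by
  rw [natDegree_le_iff_coeff_eq_zero]
  intro N hN
  rw [coeff_cwP, coeff_eq_zero_of_natDegree_lt hN, map_zero]

theorem cwP_eval_one (δ : A →+ A) (p : A[X]) : (cwP δ p).eval 1 = δ (p.eval 1) := by
  rw [eval_eq_sum_range' (Nat.lt_succ_of_le (cw_natDegree δ p)), eval_eq_sum_range' (Nat.lt_succ_self p.natDegree),
    map_sum]
  refine Finset.sum_congr rfl fun i _ => ?_
  rw [one_pow, mul_one, mul_one, coeff_cwP]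

theorem coeff_cwS_iterate (δ : A →+ A) (p : PowerSeries A) (l m : ℕ) :
    PowerSeries.coeff m ((cwS δ)^[l] p) = δ^[l] (PowerSeries.coeff m p) := by
  induction l generalizing p with
  | zero => rfl
  | succ l ih => rw [Function.iterate_succ_apply, Function.iterate_succ_apply, ih, coeff_cwS]

theorem cwP_iterate_natDegree (δ : A →+ A) (p : A[X]) (l : ℕ) :
    ((cwP δ)^[l] p).natDegree ≤ p.natDegree := by
  induction l generalizing p with
  | zero => exact le_rfl
  | succ l ih =>
    rw [Function.iterate_succ_apply]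
    exact (ih _).trans (cw_natDegree δ p)

end Pool.Agent.SPE
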