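import Pool.Agent.SPE.Cw

/-!
# SPE: the derivation `DB`
-/

set_option autoImplicit false

namespace Pool.Agent.SPE

open Polynomial

variable {σ : Type*} [Fintype σ] [DecidableEq σ] {R : Type*} [CommRing R] {R' : Type*} [CommRing R']

omit [Fintype σ] [DecidableEq σ] in
private theorem db_pd_mul (i : σ) (x y : Y σ R) : pd i (x * y) = x * pd i y + pd i x * y := by
  show MvPolynomial.pderiv i (x * y) = x * MvPolynomial.pderiv i y + MvPolynomial.pderiv i x * y
  rw [Derivation.leibniz, smul_eq_mul, smul_eq_mul, mul_comm y]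

omit [Fintype σ] [DecidableEq σ] in
private theorem db_cw_smul (i : σ) (c : R) (x : B σ R) : cwP (pd i) (c • x) = c • cwP (pd i) x := by
  refine Polynomial.ext fun m => ?_
  rw [coeff_cwP, Polynomial.coeff_smul, Polynomial.coeff_smul, coeff_cwP]
  show MvPolynomial.pderiv i (c • x.coeff m) = c • MvPolynomial.pderiv i (x.coeff m)
  exact Derivation.map_smul _ c (x.coeff m)

private theorem db_apply (a b : σ → ℕ) (x : B σ R) : DB a b R x =
    X * (cB σ R (PZ b) * derivative x + ∑ i, cB σ R (GZ a b i) * cwP (pd i) x) := rfl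

omit [Fintype σ] [DecidableEq σ] in
private theorem db_cB (f : R →+* R') (p : ℤ[X]) : cB σ R' p = (cB σ R p).map (MvPolynomial.map f) := by
  unfold cB
  rw [Polynomial.map_map]
  congr 1
  exact (RingHom.ext_int _ _)

theorem DB_mul (a b : σ → ℕ) (x y : B σ R) :
    DB a b R (x * y) = x * DB a b R y + DB a b R x * y := by
  have h1 : ∀ i, cwP (pd i) (x * y) = x * cwP (pd i) y + cwP (pd i) x * y := fun i =>
    cwP_mul (pd i) (db_pd_mul i) x y
  have h2 : ∑ i, cB σ R (GZ a b i) * cwP (pd i) (x * y) =
      x * (∑ i, cB σ R (GZ a b i) * cwP (pd i) y) + (∑ i, cB σ R (GZ a b i) * cwP (pd i) x) * y := by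
    rw [Finset.mul_sum, Finset.sum_mul, ← Finset.sum_add_distrib]
    refine Finset.sum_congr rfl fun i _ => ?_
    rw [h1 i]
    ring
  rw [db_apply, db_apply, db_apply, h2, derivative_mul]
  ring

theorem DB_smul (a b : σ → ℕ) (c : R) (x : B σ R) : DB a b R (c • x) = c • DB a b R x := by
  rw [db_apply, db_apply, derivative_smul, mul_smul_comm]
  simp only [db_cw_smul, mul_smul_comm]
  rw [← Finset.smul_sum, ← smul_add, mul_smul_comm]

theorem DB_map (a b : σ → ℕ) (f : R →+* R') (x : B σ R) :
    DB a b R' (x.map (MvPolynomial.map f)) = (DB a b R x).map (MvPolynomial.map f) := by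
  rw [db_apply, db_apply, Polynomial.map_mul, Polynomial.map_add, Polynomial.map_mul, Polynomial.map_sum, map_X,
    derivative_map, db_cB f]
  congr 2
  refine Finset.sum_congr rfl fun i _ => ?_
  rw [Polynomial.map_mul, db_cB f]
  congr 1
  exact cwP_map (MvPolynomial.map f) (pd i) (pd i) (fun x => MvPolynomial.pderiv_map) x

theorem DB_iterate_map (a b : σ → ℕ) (f : R →+* R') (x : B σ R) (l : ℕ) :
    (DB a b R')^[l] (x.map (MvPolynomial.map f)) = ((DB a b R)^[l] x).map (MvPolynomial.map f) := by
  induction l with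
  | zero => rfl
  | succ l ih => rw [Function.iterate_succ_apply', Function.iterate_succ_apply', ih, DB_map]

end Pool.Agent.SPE
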