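import Pool.Agent.SPE.DBLem

/-!
# SPE: `DB` preserves the classes `TV`
-/

set_option autoImplicit false

namespace Pool.Agent.SPE

open Polynomial

variable {σ : Type*} [Fintype σ] [DecidableEq σ]

variable {K : Type*} [Field K]

omit [Fintype σ] [DecidableEq σ] in
private theorem dt_lin (c : ℤ) : (1 - C c * X : ℤ[X]).natDegree ≤ 1 := by
  refine (natDegree_sub_le _ _).trans ?_
  rw [natDegree_one]
  exact max_le (Nat.zero_le _) ((natDegree_C_mul_le _ _).trans natDegree_X_le)

omit [DecidableEq σ] in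
private theorem dt_PZ (b : σ → ℕ) : (cB σ K (PZ b)).natDegree ≤ Fintype.card σ := by
  unfold cB
  refine natDegree_map_le.trans ?_
  unfold PZ
  refine (natDegree_prod_le _ _).trans ?_
  refine (Finset.sum_le_card_nsmul _ _ 1 fun i _ => dt_lin (b i : ℤ)).trans ?_
  simp

private theorem dt_GZ (a b : σ → ℕ) (i : σ) : (cB σ K (GZ a b i)).natDegree ≤ Fintype.card σ - 1 := by
  unfold cB
  refine natDegree_map_le.trans ?_
  unfold GZ
  refine (natDegree_C_mul_le _ _).trans ?_
  refine (natDegree_prod_le _ _).trans ?_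
  refine (Finset.sum_le_card_nsmul _ _ 1 fun i _ => dt_lin (b i : ℤ)).trans ?_
  rw [Finset.card_erase_of_mem (Finset.mem_univ i)]
  simp

omit [Fintype σ] [DecidableEq σ] in
private theorem dt_mem (V : Submodule K (Y σ K)) (p : ℤ[X]) (y : B σ K) (hy : ∀ m, y.coeff m ∈ V) (m : ℕ) :
    (cB σ K p * y).coeff m ∈ V := by
  rw [coeff_mul]
  refine V.sum_mem fun u _ => ?_
  have h : (cB σ K p).coeff u.1 * y.coeff u.2 = (p.coeff u.1) • y.coeff u.2 := by
    rw [zsmul_eq_mul]
    unfold cB
    rw [coeff_map]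
    rfl
  rw [h]
  exact zsmul_mem (hy u.2) _

omit [Fintype σ] [DecidableEq σ] in
private theorem dt_der (V : Submodule K (Y σ K)) (y : B σ K) (hy : ∀ m, y.coeff m ∈ V) (m : ℕ) :
    (derivative y).coeff m ∈ V := by
  rw [coeff_derivative]
  have h : y.coeff (m + 1) * ((m : Y σ K) + 1) = (m + 1) • y.coeff (m + 1) := by
    rw [nsmul_eq_mul]
    push_cast
    ring
  rw [h]
  exact nsmul_mem (hy _) _

omit [Fintype σ] [DecidableEq σ] in
private theorem dt_cw (V : Submodule K (Y σ K)) (hV : Closed V) (i : σ) (y : B σ K) (hy : ∀ m, y.coeff m ∈ V)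
    (m : ℕ) : (cwP (pd i) y).coeff m ∈ V := by
  rw [coeff_cwP]
  exact hV _ (hy m) i

omit [Fintype σ] [DecidableEq σ] in
private theorem dt_cwdeg (i : σ) (y : B σ K) (q : ℕ) (hy : y.natDegree ≤ q) : (cwP (pd i) y).natDegree ≤ q := by
  rw [natDegree_le_iff_coeff_eq_zero]
  intro m hm
  rw [coeff_cwP, coeff_eq_zero_of_natDegree_lt (lt_of_le_of_lt hy hm), map_zero]

theorem DB_TV (a b : σ → ℕ) (q : ℕ) (V : Submodule K (Y σ K)) (hV : Closed V) (x : B σ K)
    (hx : TV q V x) : TV (q + Fintype.card σ) V (DB a b K x) := by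
  obtain ⟨hd, hc⟩ := hx
  have e : DB a b K x = X * (cB σ K (PZ b) * derivative x + ∑ i, cB σ K (GZ a b i) * cwP (pd i) x) := rfl
  rw [e]
  constructor
  · have h1 : (X * (cB σ K (PZ b) * derivative x)).natDegree ≤ q + Fintype.card σ := by
      by_cases h : derivative x = 0
      · rw [h, mul_zero, mul_zero, natDegree_zero]
        exact Nat.zero_le _
      · have h1 : x.natDegree ≠ 0 := by
          intro h0
          apply h
          rw [eq_C_of_natDegree_eq_zero h0, derivative_C]
        have h2 := natDegree_derivative_le x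
        have h5 := dt_PZ (K := K) b
        refine natDegree_mul_le.trans ?_
        rw [natDegree_X]
        have h6 : (cB σ K (PZ b) * derivative x).natDegree ≤
            (cB σ K (PZ b)).natDegree + (derivative x).natDegree := natDegree_mul_le
        omega
    have h2 : (X * ∑ i, cB σ K (GZ a b i) * cwP (pd i) x).natDegree ≤ q + Fintype.card σ := by
      rw [Finset.mul_sum]
      refine natDegree_sum_le_of_forall_le _ _ fun i _ => ?_
      have h5 := dt_GZ (K := K) a b i
      have h4 : 0 < Fintype.card σ := Fintype.card_pos_iff.2 ⟨i⟩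
      have h7 := dt_cwdeg i x q hd
      have h6 : (cB σ K (GZ a b i) * cwP (pd i) x).natDegree ≤
          (cB σ K (GZ a b i)).natDegree + (cwP (pd i) x).natDegree := natDegree_mul_le
      refine natDegree_mul_le.trans ?_
      rw [natDegree_X]
      omega
    rw [mul_add]
    exact (natDegree_add_le _ _).trans (max_le h1 h2)
  · intro m
    rcases m with _ | m
    · rw [coeff_X_mul_zero]
      exact V.zero_mem
    · rw [coeff_X_mul, coeff_add, finsetSum_coeff]
      exact V.add_mem (dt_mem V _ _ (dt_der V x hc) m)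
        (V.sum_mem fun i _ => dt_mem V _ _ (dt_cw V hV i x hc) m)

end Pool.Agent.SPE
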