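import Pool.Agent.SPE.GrA

/-!
# SPE: the graded class of power series in `z` whose `z^m`-coefficient is a polynomial of degree
`≤ m` in `c` linear forms
-/

set_option autoImplicit false

namespace Pool.Agent.SPE

open Polynomial

variable {σ : Type*} [Fintype σ] {K : Type*} [Field K] {c : ℕ}

/-- The graded class. -/
def Gr (l : Fin c → σ → K) (ξ : PowerSeries (Y σ K)) : Prop :=
  ∀ m, PowerSeries.coeff m ξ ∈ Ap l m

theorem Gr_mul (l : Fin c → σ → K) {x y : PowerSeries (Y σ K)} (hx : Gr l x) (hy : Gr l y) :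
    Gr l (x * y) := by
  intro m
  rw [PowerSeries.coeff_mul]
  refine Submodule.sum_mem _ fun p hp => ?_
  rw [← Finset.HasAntidiagonal.mem_antidiagonal.1 hp]
  exact Ap_mul l (hx p.1) (hy p.2)

private theorem gr_C_mul (l : Fin c → σ → K) (m : ℕ) (a : K) {x : Y σ K} (hx : x ∈ Ap l m) :
    MvPolynomial.C a * x ∈ Ap l m := by
  rw [← MvPolynomial.smul_eq_C_mul]
  exact Submodule.smul_mem _ a hx

private theorem gr_C (l : Fin c → σ → K) (m : ℕ) (a : K) : (MvPolynomial.C a : Y σ K) ∈ Ap l m := by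
  have h := gr_C_mul l m a (one_mem_Ap l m)
  rwa [mul_one] at h

theorem Gr_inv (l : Fin c → σ → K) {x : PowerSeries (Y σ K)} (hx : Gr l x) (u : K) (hu : u ≠ 0)
    (h0 : PowerSeries.constantCoeff x = MvPolynomial.C u) :
    ∃ x' : PowerSeries (Y σ K), Gr l x' ∧ x' * x = 1 := by
  obtain ⟨v, hv, hv'⟩ : ∃ v : (Y σ K)ˣ, (v : Y σ K) = MvPolynomial.C u ∧ ((v⁻¹ : (Y σ K)ˣ) : Y σ K) =
      MvPolynomial.C u⁻¹ := by
    refine ⟨⟨MvPolynomial.C u, MvPolynomial.C u⁻¹, ?_, ?_⟩, rfl, rfl⟩
    · rw [← MvPolynomial.C_mul, mul_inv_cancel₀ hu, MvPolynomial.C_1]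
    · rw [← MvPolynomial.C_mul, inv_mul_cancel₀ hu, MvPolynomial.C_1]
  refine ⟨PowerSeries.invOfUnit x v, ?_, ?_⟩
  · intro m
    induction m using Nat.strong_induction_on with
    | _ m ih =>
      rw [PowerSeries.coeff_invOfUnit]
      split_ifs with hm
      · rw [hv']
        exact gr_C l m _
      · rw [hv', neg_mul]
        refine Submodule.neg_mem _ (gr_C_mul l m _ (Submodule.sum_mem _ fun p hp => ?_))
        split_ifs with hp2
        · have e := Finset.HasAntidiagonal.mem_antidiagonal.1 hp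
          have h := Ap_mul l (hx p.1) (ih p.2 hp2)
          rwa [e] at h
        · exact Submodule.zero_mem _
  · rw [mul_comm]
    exact PowerSeries.mul_invOfUnit x v (by rw [h0, hv])

private theorem PhiY_C {R : Type*} [CommRing R] {τ : Type*} (α : τ → ℕ) (a : R) :
    PhiY α (MvPolynomial.C a : MvPolynomial τ R) = C (MvPolynomial.C a) := by
  unfold PhiY
  rw [MvPolynomial.aeval_C]
  rfl

private theorem PhiY_X {R : Type*} [CommRing R] {τ : Type*} (α : τ → ℕ) (i : τ) :
    PhiY α (MvPolynomial.X i : MvPolynomial τ R) = C (MvPolynomial.C (α i : R)) + X * C (MvPolynomial.X i) := by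
  unfold PhiY
  rw [MvPolynomial.aeval_X]

private theorem PhiY_aff (α : σ → ℕ) (e : K) (m : σ → K) :
    PhiY α (aff e m) = C (MvPolynomial.C (e + ∑ i, m i * (α i : K))) + X * C (aff (0 : K) m) := by
  unfold aff
  rw [map_add, map_sum, PhiY_C]
  have h1 : ∀ i, PhiY α (MvPolynomial.C (m i) * MvPolynomial.X i : MvPolynomial σ K) =
      C (MvPolynomial.C (m i * (α i : K))) + X * C (MvPolynomial.C (m i) * MvPolynomial.X i) := by
    intro i
    rw [map_mul, PhiY_C, PhiY_X, MvPolynomial.C_mul, C_mul, C_mul]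
    ring
  simp only [h1]
  rw [Finset.sum_add_distrib, ← Finset.mul_sum, map_add, map_add, map_sum, map_sum, map_zero, zero_add, map_sum,
    add_assoc]

private theorem Gr_add (l : Fin c → σ → K) {x y : PowerSeries (Y σ K)} (hx : Gr l x) (hy : Gr l y) :
    Gr l (x + y) := fun m => by
  rw [map_add]
  exact Submodule.add_mem _ (hx m) (hy m)

private theorem Gr_CC (l : Fin c → σ → K) (a : K) :
    Gr l ((C (MvPolynomial.C a) : Polynomial (Y σ K)) : PowerSeries (Y σ K)) := by
  intro m
  rw [Polynomial.coeff_coe, coeff_C]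
  split_ifs
  · exact gr_C l m a
  · exact Submodule.zero_mem _

private theorem aff_mem (l : Fin c → σ → K) (b : Fin c) : aff (0 : K) (l b) ∈ Ap l 1 := by
  refine ⟨MvPolynomial.X b, ?_, ?_⟩
  · rw [SetLike.mem_coe, MvPolynomial.mem_restrictTotalDegree]
    exact (MvPolynomial.totalDegree_X b).le
  · exact MvPolynomial.aeval_X _ b

private theorem Gr_aff (α : σ → ℕ) (e : K) (l : Fin c → σ → K) (b : Fin c) :
    Gr l (PhiY α (aff e (l b)) : PowerSeries (Y σ K)) := by
  rw [PhiY_aff, Polynomial.coe_add]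
  refine Gr_add l (Gr_CC l _) ?_
  intro m
  rw [Polynomial.coeff_coe]
  match m with
  | 0 =>
    rw [mul_coeff_zero, coeff_X_zero, zero_mul]
    exact Submodule.zero_mem _
  | m + 1 =>
    rw [coeff_X_mul, coeff_C]
    split_ifs with h
    · rw [h]
      exact aff_mem l b
    · exact Submodule.zero_mem _

theorem Gr_junta (α : σ → ℕ) (p : MvPolynomial (Fin c) K) (e : Fin c → K) (l : Fin c → σ → K) :
    Gr l (PhiY α (junta p e l) : PowerSeries (Y σ K)) := by
  unfold junta
  induction p using MvPolynomial.induction_on with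
  | C a =>
    rw [MvPolynomial.aeval_C]
    have h : (algebraMap K (MvPolynomial σ K)) a = MvPolynomial.C a := rfl
    rw [h, PhiY_C]
    exact Gr_CC l a
  | add p q hp hq =>
    rw [map_add, map_add, Polynomial.coe_add]
    exact Gr_add l hp hq
  | mul_X p b hp =>
    rw [map_mul, map_mul, Polynomial.coe_mul, MvPolynomial.aeval_X]
    exact Gr_mul l hp (Gr_aff α (e b) l b)

theorem coeff_zero_PhiY {R : Type*} [CommRing R] (α : σ → ℕ) (w : MvPolynomial σ R) :
    (PhiY α w).coeff 0 = MvPolynomial.C (MvPolynomial.eval (fun i => (α i : R)) w) := by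
  induction w using MvPolynomial.induction_on with
  | C a => rw [PhiY_C, coeff_C_zero, MvPolynomial.eval_C]
  | add p q hp hq => rw [map_add, coeff_add, hp, hq, map_add, map_add]
  | mul_X p i hp =>
    rw [map_mul, mul_coeff_zero, hp, PhiY_X, coeff_add, coeff_C_zero, mul_coeff_zero, coeff_X_zero, zero_mul,
      add_zero, map_mul, MvPolynomial.eval_X, MvPolynomial.C_mul]

end Pool.Agent.SPE
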