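import Pool.Agent.SPE.Clo

/-!
# SPE: polynomials of degree `≤ m` in `c` linear forms
-/

set_option autoImplicit false

namespace Pool.Agent.SPE

open Polynomial

variable {σ : Type*} [Fintype σ] {K : Type*} [Field K] {c : ℕ}

/-- Polynomials of degree at most `m` in the `c` linear forms `sum_i l_bi y_i`. -/
noncomputable def Ap (l : Fin c → σ → K) (m : ℕ) : Submodule K (Y σ K) :=
  (MvPolynomial.restrictTotalDegree (Fin c) K m).map
    (MvPolynomial.aeval (R := K) (fun b => aff (0 : K) (l b))).toLinearMap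

private theorem mem_Ap_iff (l : Fin c → σ → K) (m : ℕ) (x : Y σ K) :
    x ∈ Ap l m ↔ ∃ p : MvPolynomial (Fin c) K, p.totalDegree ≤ m ∧
      MvPolynomial.aeval (R := K) (fun b => aff (0 : K) (l b)) p = x := by
  rw [Ap, Submodule.mem_map]
  constructor
  · rintro ⟨p, hp, hx⟩
    exact ⟨p, (MvPolynomial.mem_restrictTotalDegree _ _ _).1 hp, hx⟩
  · rintro ⟨p, hp, hx⟩
    exact ⟨p, (MvPolynomial.mem_restrictTotalDegree _ _ _).2 hp, hx⟩

theorem one_mem_Ap (l : Fin c → σ → K) (m : ℕ) : (1 : Y σ K) ∈ Ap l m := by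
  rw [mem_Ap_iff]
  exact ⟨1, by simp, map_one _⟩

theorem Ap_mono (l : Fin c → σ → K) {m m' : ℕ} (h : m ≤ m') : Ap l m ≤ Ap l m' := by
  intro x hx
  rw [mem_Ap_iff] at hx ⊢
  obtain ⟨p, hp, hx⟩ := hx
  exact ⟨p, hp.trans h, hx⟩

theorem Ap_mul (l : Fin c → σ → K) {m m' : ℕ} {x y : Y σ K} (hx : x ∈ Ap l m) (hy : y ∈ Ap l m') :
    x * y ∈ Ap l (m + m') := by
  rw [mem_Ap_iff] at hx hy ⊢
  obtain ⟨p, hp, rfl⟩ := hx
  obtain ⟨q, hq, rfl⟩ := hy
  exact ⟨p * q, (MvPolynomial.totalDegree_mul p q).trans (add_le_add hp hq), map_mul _ _ _⟩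

private theorem pderiv_aff (l : σ → K) (i : σ) :
    MvPolynomial.pderiv i (aff (0 : K) l) = MvPolynomial.C (l i) := by
  classical
  rw [aff, map_add, MvPolynomial.pderiv_C, zero_add, map_sum]
  rw [Finset.sum_eq_single i]
  · rw [MvPolynomial.pderiv_C_mul, MvPolynomial.pderiv_X_self, mul_one]
  · intro j _ hj
    rw [MvPolynomial.pderiv_C_mul, MvPolynomial.pderiv_X_of_ne hj, mul_zero]
  · intro h
    exact absurd (Finset.mem_univ i) h

private theorem pderiv_chain (l : Fin c → σ → K) (i : σ) (p : MvPolynomial (Fin c) K) :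
    MvPolynomial.pderiv i (MvPolynomial.aeval (R := K) (fun b => aff (0 : K) (l b)) p) =
      MvPolynomial.aeval (R := K) (fun b => aff (0 : K) (l b))
        (∑ b, l b i • MvPolynomial.pderiv b p) := by
  classical
  induction p using MvPolynomial.induction_on with
  | C a =>
    rw [MvPolynomial.aeval_C, MvPolynomial.algebraMap_eq, MvPolynomial.pderiv_C]
    rw [Finset.sum_eq_zero (fun b _ => by rw [MvPolynomial.pderiv_C, smul_zero]), map_zero]
  | add p q hp hq =>
    rw [map_add, map_add, hp, hq, ← map_add, ← Finset.sum_add_distrib]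
    congr 1
    refine Finset.sum_congr rfl fun b _ => ?_
    rw [map_add, smul_add]
  | mul_X p j hp =>
    rw [map_mul, MvPolynomial.pderiv_mul, hp, MvPolynomial.aeval_X, pderiv_aff]
    rw [show (∑ b, l b i • MvPolynomial.pderiv b (p * MvPolynomial.X j)) =
      (∑ b, l b i • MvPolynomial.pderiv b p) * MvPolynomial.X j + MvPolynomial.C (l j i) * p by
        rw [Finset.sum_mul]
        rw [show MvPolynomial.C (l j i) * p = ∑ b, l b i • (p * MvPolynomial.pderiv b
          (MvPolynomial.X j : MvPolynomial (Fin c) K)) by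
            rw [Finset.sum_eq_single j]
            · rw [MvPolynomial.pderiv_X_self, mul_one, MvPolynomial.smul_eq_C_mul]
            · intro b _ hb
              rw [MvPolynomial.pderiv_X_of_ne (Ne.symm hb), mul_zero, smul_zero]
            · intro h
              exact absurd (Finset.mem_univ j) h]
        rw [← Finset.sum_add_distrib]
        refine Finset.sum_congr rfl fun b _ => ?_
        rw [MvPolynomial.pderiv_mul, smul_add, smul_mul_assoc]]
    rw [map_add, map_mul, map_mul, MvPolynomial.aeval_X, MvPolynomial.aeval_C,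
      MvPolynomial.algebraMap_eq]
    ring

private theorem pderiv_mem_rtd {m : ℕ} (b : Fin c) {p : MvPolynomial (Fin c) K}
    (hp : p.totalDegree ≤ m) :
    MvPolynomial.pderiv b p ∈ MvPolynomial.restrictTotalDegree (Fin c) K m := by
  classical
  rw [MvPolynomial.as_sum p, map_sum]
  refine Submodule.sum_mem _ fun s hs => ?_
  rw [MvPolynomial.mem_restrictTotalDegree, MvPolynomial.pderiv_monomial]
  refine (MvPolynomial.totalDegree_monomial_le _ _).trans ?_
  have h1 : (s.sum fun _ e => e) ≤ m := (MvPolynomial.le_totalDegree hs).trans hp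
  refine le_trans ?_ h1
  rw [Finsupp.sum_fintype _ _ (fun _ => rfl), Finsupp.sum_fintype _ _ (fun _ => rfl)]
  refine Finset.sum_le_sum fun i _ => ?_
  rw [Finsupp.tsub_apply]
  exact Nat.sub_le _ _

/- PLAN. Chain rule `∂_i (p(l)) = ∑_b (∂_b p)(l) * C (l b i)`: by `MvPolynomial.induction_on` or with
`Derivation` lemmas (`MvPolynomial.pderiv` of `aeval`); `∂_b p` has degree at most that of `p`
(`MvPolynomial.totalDegree_pderiv_le`?, or coefficients). -/
theorem Ap_closed (l : Fin c → σ → K) (m : ℕ) : Closed (Ap l m) := by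
  intro v hv i
  rw [mem_Ap_iff] at hv
  obtain ⟨p, hp, rfl⟩ := hv
  rw [pderiv_chain]
  refine Submodule.mem_map_of_mem (f := (MvPolynomial.aeval (R := K)
    (fun b => aff (0 : K) (l b))).toLinearMap) ?_
  exact Submodule.sum_mem _ fun b _ => Submodule.smul_mem _ _ (pderiv_mem_rtd b hp)

/- PLAN. `Ap l m` is the span of the images of the monomials with all exponents `≤ m`, indexed by
`Fin c → Fin (m + 1)` (`finrank_span_le_card`, `Submodule.finrank_mono`,
`MvPolynomial.mem_restrictTotalDegree`, `MvPolynomial.as_sum`). -/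
theorem Ap_finrank (l : Fin c → σ → K) (m : ℕ) :
    FiniteDimensional K (Ap l m) ∧ Module.finrank K (Ap l m) ≤ (m + 1) ^ c := by
  classical
  constructor
  · unfold Ap
    infer_instance
  · refine (Submodule.finrank_map_le _ _).trans ?_
    refine (Submodule.finrank_mono
      (MvPolynomial.restrictTotalDegree_le_restrictDegree (Fin c) K m)).trans ?_
    have h1 : Module.finrank K (MvPolynomial.restrictDegree (Fin c) K m) =
        Nat.card {n : Fin c →₀ ℕ | ∀ i, n i ≤ m} :=
      Module.finrank_eq_nat_card_basis (MvPolynomial.basisRestrictSupport K _)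
    rw [h1]
    have h2 : Nat.card (Fin c → Fin (m + 1)) = (m + 1) ^ c := by
      rw [Nat.card_eq_fintype_card, Fintype.card_fun, Fintype.card_fin, Fintype.card_fin]
    rw [← h2]
    refine Nat.card_le_card_of_injective
      (fun n : {n : Fin c →₀ ℕ | ∀ i, n i ≤ m} => fun i : Fin c =>
        (⟨n.1 i, Nat.lt_succ_of_le (n.2 i)⟩ : Fin (m + 1))) ?_
    intro a b hab
    apply Subtype.ext
    ext i
    have := congrFun hab i
    simpa using this

end Pool.Agent.SPE
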