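import Pool.Agent.SPE.Lam
import Pool.Agent.SPE.Hsp
import Pool.Agent.SPE.Fr

/-!
# SPE: the Wronskian of the pieces over the field `K`
-/

set_option autoImplicit false

namespace Pool.Agent.SPE

open Polynomial

variable {σ : Type*} [Fintype σ] [DecidableEq σ] {K : Type*} [Field K] {c : ℕ}

omit [Fintype σ] [DecidableEq σ] in
theorem PhiS_mul {R : Type*} [CommRing R] (α : σ → ℕ) (v w : MvPolynomial σ R) :
    PhiS α (v * w) = PhiS α v * PhiS α w := by
  simp only [PhiS, map_mul, Polynomial.coe_mul]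

theorem DZ_mul {R : Type*} [CommRing R] (a b : σ → ℕ) (x y : PowerSeries (B σ R)) :
    DZ a b R (x * y) = x * DZ a b R y + DZ a b R x * y := cwS_mul _ (DB_mul a b) x y

/-- The iterated derivatives of one piece. -/
theorem kside_one (a b : σ → ℕ) (α : σ → ℕ) (μ s d k m : ℕ) (hm : m ≤ d)
    (V : Submodule K (MvPolynomial σ K)) (hV : Closed V)
    (hfd : FiniteDimensional K V) (hs : Module.finrank K V ≤ s) (hd : ∀ v ∈ V, v.totalDegree ≤ d)
    (h : MvPolynomial σ K) (hh : h ∈ V)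
    (p : Fin m → MvPolynomial (Fin c) K) (e : Fin m → Fin c → K) (l : Fin m → Fin c → σ → K)
    (h0 : ∀ i, MvPolynomial.eval (fun i => (α i : K)) (junta (p i) (e i) (l i)) ≠ 0) :
    ∃ (W : Submodule K (Y σ K)) (E : ℕ → PowerSeries (B σ K)), Closed W ∧ FiniteDimensional K W ∧
      Module.finrank K W ≤ (s * (d + 1)) * ((d + 1) * (μ + 1) ^ c) ^ k ∧
      (∀ q ≤ k, Small μ (q * Fintype.card σ) W (E q)) ∧
      ∀ q, (DZ a b K)^[q] (PhiS α (h * ∏ i, junta (p i) (e i) (l i))) =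
        E q * PhiS α (∏ i, junta (p i) (e i) (l i)) := by
  obtain ⟨U, lam, hU, hU1, hUfd, hUd, hUs, hlam⟩ := lam_prod a b α μ d m hm p e l h0
  obtain ⟨H, hH, hHfd, hHd, hHs⟩ := hspace α s d V hV hfd hs hd
  set G := PhiS α (∏ i, junta (p i) (e i) (l i)) with hG
  set E : ℕ → PowerSeries (B σ K) := fun q =>
    (fun x => DZ a b K x + lam * x)^[q] (PhiS α h) with hE
  have hE1 : ∀ q, E (q + 1) = DZ a b K (E q) + lam * E q := fun q => by
    simp only [hE, Function.iterate_succ_apply']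
  have hUp : ∀ q, U ^ q ≤ U ^ (q + 1) := fun q => by
    rw [pow_succ]
    calc U ^ q = U ^ q * 1 := (mul_one _).symm
      _ ≤ U ^ q * U := mul_le_mul' le_rfl hU1
  have hUk : ∀ q ≤ k, U ^ q ≤ U ^ k := fun q hq => monotone_nat_of_le_succ hUp hq
  have hsm : ∀ q, Small μ (q * Fintype.card σ) (H * U ^ q) (E q) := by
    intro q
    induction q with
    | zero =>
      simp only [pow_zero, mul_one, zero_mul]
      exact hHs h hh μ
    | succ q ih =>
      rw [hE1]
      refine Small_add ?_ ?_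
      · refine Small_mono ?_ ?_ (Small_DZ a b (Closed_mul hH (Closed_pow hU q)) ih)
        · rw [Nat.succ_mul]
        · exact mul_le_mul' le_rfl (hUp q)
      · rw [mul_comm lam]
        have := Small_mul ih hUs
        rwa [mul_assoc, ← pow_succ, ← Nat.succ_mul] at this
  have hfin := finrank_mul H (U ^ k) hHfd (finrank_pow U hUfd k _ hUd).1
  refine ⟨H * U ^ k, E, Closed_mul hH (Closed_pow hU k), hfin.1, ?_, ?_, ?_⟩
  · refine hfin.2.trans (Nat.mul_le_mul hHd (finrank_pow U hUfd k _ hUd).2)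
  · intro q hq
    exact Small_mono le_rfl (mul_le_mul' le_rfl (hUk q hq)) (hsm q)
  · intro q
    induction q with
    | zero =>
      show PhiS α _ = PhiS α h * G
      rw [PhiS_mul]
    | succ q ih =>
      rw [Function.iterate_succ_apply', ih, DZ_mul, hlam, hE1]
      ring

/-- The Wronskian of the pieces. -/
theorem kside (a b : σ → ℕ) (α : σ → ℕ) (μ s d k r : ℕ) (hr : r ≤ k) (hs1 : 1 ≤ s)
    (V : Fin r → Submodule K (MvPolynomial σ K)) (hV : ∀ j, Closed (V j))
    (hfd : ∀ j, FiniteDimensional K (V j)) (hs : ∀ j, Module.finrank K (V j) ≤ s)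
    (hd : ∀ j, ∀ v ∈ V j, v.totalDegree ≤ d)
    (h : Fin r → MvPolynomial σ K) (hh : ∀ j, h j ∈ V j) (m : Fin r → ℕ) (hm : ∀ j, m j ≤ d)
    (p : ∀ j, Fin (m j) → MvPolynomial (Fin c) K) (e : ∀ j, Fin (m j) → Fin c → K)
    (l : ∀ j, Fin (m j) → Fin c → σ → K)
    (h0 : ∀ j i, MvPolynomial.eval (fun i => (α i : K)) (junta (p j i) (e j i) (l j i)) ≠ 0) :
    ∃ (W : Submodule K (Y σ K)) (ξ : PowerSeries (B σ K)), Closed W ∧ FiniteDimensional K W ∧
      Module.finrank K W ≤ ((s * (d + 1)) * ((d + 1) * (μ + 1) ^ c) ^ k) ^ k ∧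
      Small μ (∑ q : Fin r, (q : ℕ) * Fintype.card σ) W ξ ∧
      (Matrix.of fun q j : Fin r => (DZ a b K)^[(q : ℕ)]
        (PhiS α (h j * ∏ i, junta (p j i) (e j i) (l j i)))).det =
        (∏ j, PhiS α (∏ i, junta (p j i) (e j i) (l j i))) * ξ := by
  choose W E hW hWfd hWd hWs hWE using fun j => kside_one a b α μ s d k (m j) (hm j) (V j) (hV j)
    (hfd j) (hs j) (hd j) (h j) (hh j) (p j) (e j) (l j) (h0 j)
  have hfin := finrank_prod W hWfd _ hWd
  refine ⟨∏ j, W j, (Matrix.of fun q j : Fin r => E j q).det, Closed_prod _ _ fun j _ => hW j,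
    hfin.1, hfin.2.trans (Nat.pow_le_pow_right ?_ hr), ?_, ?_⟩
  · have h1 : 1 ≤ s * (d + 1) := Nat.mul_pos hs1 (Nat.succ_pos d)
    have h2 : 1 ≤ ((d + 1) * (μ + 1) ^ c) ^ k :=
      Nat.pow_pos (Nat.mul_pos (Nat.succ_pos d) (Nat.pow_pos (Nat.succ_pos μ)))
    exact Nat.mul_pos h1 h2
  · refine Small_det (Fintype.card σ) W _ fun q j => ?_
    exact hWs j q ((Nat.le_of_lt q.2).trans hr)
  · have h1 : (Matrix.of fun q j : Fin r => (DZ a b K)^[(q : ℕ)]
        (PhiS α (h j * ∏ i, junta (p j i) (e j i) (l j i)))) =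
        Matrix.of fun q j : Fin r => PhiS α (∏ i, junta (p j i) (e j i) (l j i)) *
          (Matrix.of fun q j : Fin r => E j q) q j := by
      ext1 q j
      simp only [Matrix.of_apply]
      rw [hWE, mul_comm]
    rw [h1, Matrix.det_mul_row]

end Pool.Agent.SPE
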