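import Pool.Agent.SPE.TVLem
import Pool.Agent.SPE.Gr

/-!
# SPE: logarithmic derivatives of products of juntas
-/

set_option autoImplicit false

namespace Pool.Agent.SPE

open Polynomial

variable {σ : Type*} [Fintype σ] [DecidableEq σ] {K : Type*} [Field K] {c : ℕ}

omit [Fintype σ] [DecidableEq σ] in
private theorem TV_C {V : Submodule K (Y σ K)} {x : Y σ K} (hx : x ∈ V) : TV 0 V (C x : B σ K) := by
  refine ⟨le_of_eq (natDegree_C x), fun m => ?_⟩
  rw [coeff_C]
  split_ifs
  · exact hx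
  · exact V.zero_mem

omit [Fintype σ] [DecidableEq σ] in
private theorem TV_sum {q : ℕ} {V : Submodule K (Y σ K)} {ι : Type*} (s : Finset ι) (f : ι → B σ K)
    (h : ∀ i ∈ s, TV q V (f i)) : TV q V (∑ i ∈ s, f i) := by
  classical
  induction s using Finset.induction_on with
  | empty => exact TV_zero q V
  | insert a s ha ih =>
    rw [Finset.sum_insert ha]
    exact TV_add (h a (Finset.mem_insert_self a s)) (ih fun i hi => h i (Finset.mem_insert_of_mem hi))

private theorem DZ_mul (a b : σ → ℕ) (x y : PowerSeries (B σ K)) :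
    DZ a b K (x * y) = x * DZ a b K y + DZ a b K x * y :=
  cwS_mul (DB a b K) (DB_mul a b) x y

private theorem DZ_one (a b : σ → ℕ) : DZ a b K (1 : PowerSeries (B σ K)) = 0 := by
  have h := DZ_mul (K := K) a b 1 1
  rw [mul_one, one_mul, mul_one] at h
  have h2 : DZ a b K (1 : PowerSeries (B σ K)) + 0 = DZ a b K 1 + DZ a b K 1 := by
    rw [add_zero]
    exact h
  exact (add_left_cancel h2).symm

omit [Fintype σ] [DecidableEq σ] in
private theorem PhiS_mul (α : σ → ℕ) (x y : MvPolynomial σ K) :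
    PhiS α (x * y) = PhiS α x * PhiS α y := by
  unfold PhiS
  rw [map_mul, Polynomial.coe_mul, map_mul]

omit [Fintype σ] [DecidableEq σ] in
private theorem PhiS_one (α : σ → ℕ) : PhiS α (1 : MvPolynomial σ K) = 1 := by
  unfold PhiS
  rw [map_one, Polynomial.coe_one, map_one]

/- PLAN. `u = (PhiY α (junta p e l) : PowerSeries (Y σ K))`, `Gr l u`, inverse `v` with `Gr l v` by
`Gr_inv` (`coeff_zero_PhiY`).  `lam = upS v * DZ (upS u)`.  `DZ (upS u)` has `z^m`-coefficient
`DB (C (u_m))`, in `TV n (Ap l m)` by `DB_TV` and `Ap_closed`; the `z^m`-coefficient of the product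
is a sum of `C (v_i) * DB (C (u_j))`, `i + j = m`, with degree in `t` at most `n` and coefficients
`v_i * _ ∈ Ap l (i + j)` (`Ap_mul`), then `Ap_mono`. -/
theorem lam_one (a b : σ → ℕ) (α : σ → ℕ) (μ : ℕ) (p : MvPolynomial (Fin c) K) (e : Fin c → K)
    (l : Fin c → σ → K) (h0 : MvPolynomial.eval (fun i => (α i : K)) (junta p e l) ≠ 0) :
    ∃ lam : PowerSeries (B σ K), Small μ (Fintype.card σ) (Ap l μ) lam ∧
      DZ a b K (PhiS α (junta p e l)) = lam * PhiS α (junta p e l) := by
  have hu := Gr_junta α p e l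
  have hc : PowerSeries.constantCoeff (PhiY α (junta p e l) : PowerSeries (Y σ K)) =
      MvPolynomial.C (MvPolynomial.eval (fun i => (α i : K)) (junta p e l)) := by
    rw [← PowerSeries.coeff_zero_eq_constantCoeff_apply, Polynomial.coeff_coe, coeff_zero_PhiY]
  obtain ⟨v, hv, hvu⟩ := Gr_inv l hu _ h0 hc
  refine ⟨upS σ K v * DZ a b K (PhiS α (junta p e l)), ?_, ?_⟩
  · intro m hm
    rw [PowerSeries.coeff_mul]
    refine TV_sum _ _ fun ij hij => ?_
    rw [Finset.HasAntidiagonal.mem_antidiagonal] at hij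
    have h1 : PowerSeries.coeff ij.1 (upS σ K v) = C (PowerSeries.coeff ij.1 v) := by
      unfold upS
      rw [PowerSeries.coeff_map]
    have h2 : PowerSeries.coeff ij.2 (DZ a b K (PhiS α (junta p e l))) =
        DB a b K (C (PowerSeries.coeff ij.2 (PhiY α (junta p e l) : PowerSeries (Y σ K)))) := by
      unfold DZ PhiS upS
      rw [coeff_cwS, PowerSeries.coeff_map]
    rw [h1, h2]
    have h3 := TV_mul (TV_C (hv ij.1)) (DB_TV a b 0 (Ap l ij.2) (Ap_closed l ij.2) _ (TV_C (hu ij.2)))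
    refine TV_mono (by omega) ?_ h3
    refine (Submodule.mul_le.2 fun x hx y hy => ?_ : Ap l ij.1 * Ap l ij.2 ≤ Ap l (ij.1 + ij.2)).trans
      (Ap_mono l (by omega))
    exact Ap_mul l hx hy
  · have h4 : upS σ K v * PhiS α (junta p e l) = 1 := by
      unfold PhiS
      rw [← map_mul, hvu, map_one]
    rw [mul_assoc, mul_comm (DZ a b K _), ← mul_assoc, h4, one_mul]

private theorem lam_aux (a b : σ → ℕ) (α : σ → ℕ) (μ : ℕ) : ∀ (m : ℕ)
    (p : Fin m → MvPolynomial (Fin c) K) (e : Fin m → Fin c → K) (l : Fin m → Fin c → σ → K)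
    (_ : ∀ i, MvPolynomial.eval (fun i => (α i : K)) (junta (p i) (e i) (l i)) ≠ 0),
    ∃ (V : Submodule K (Y σ K)) (lam : PowerSeries (B σ K)), Closed V ∧ 1 ≤ V ∧
      FiniteDimensional K V ∧ Module.finrank K V ≤ 1 + m * (μ + 1) ^ c ∧
      Small μ (Fintype.card σ) V lam ∧
      DZ a b K (PhiS α (∏ i, junta (p i) (e i) (l i))) =
        lam * PhiS α (∏ i, junta (p i) (e i) (l i)) := by
  intro m
  induction m with
  | zero =>
    intro p e l _
    refine ⟨1, 0, Closed_one, le_refl _, ?_, ?_, Small_zero μ _ _, ?_⟩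
    · rw [Submodule.one_eq_span]
      infer_instance
    · rw [Submodule.one_eq_span]
      refine (finrank_span_le_card ({1} : Set (Y σ K))).trans ?_
      simp
    · rw [Fin.prod_univ_zero, PhiS_one, DZ_one, zero_mul]
  | succ m ih =>
    intro p e l h0
    obtain ⟨V, lam, h1, h2, h3, h4, h5, h6⟩ := ih (fun i => p i.castSucc) (fun i => e i.castSucc)
      (fun i => l i.castSucc) fun i => h0 i.castSucc
    obtain ⟨lam', h7, h8⟩ := lam_one a b α μ (p (Fin.last m)) (e (Fin.last m)) (l (Fin.last m))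
      (h0 (Fin.last m))
    obtain ⟨h9, h10⟩ := Ap_finrank (l (Fin.last m)) μ
    refine ⟨V ⊔ Ap (l (Fin.last m)) μ, lam + lam', Closed_sup h1 (Ap_closed _ _),
      h2.trans le_sup_left, inferInstance, ?_,
      Small_add (Small_mono le_rfl le_sup_left h5) (Small_mono le_rfl le_sup_right h7), ?_⟩
    · refine (Submodule.finrank_add_le_finrank_add_finrank V (Ap (l (Fin.last m)) μ)).trans ?_
      rw [add_mul, one_mul]
      omega
    · rw [Fin.prod_univ_castSucc, PhiS_mul, DZ_mul, h6, h8]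
      ring

/- PLAN. Induction on `m` (`Fin.prod_univ_castSucc` or `Finset`), `V = 1 ⊔ ⨆ i, Ap (l i) μ`, or build
`V` along the induction: statement for `m` factors with `finrank V ≤ 1 + m * (μ + 1) ^ c`, start with
`V = 1`, step `V ⊔ Ap (l i) μ` (`Closed_sup`, `Submodule.finrank_add_le_finrank_add_finrank`);
`PhiS` is multiplicative and `DZ` satisfies Leibniz (`cwS_mul`, `DB_mul`). -/
theorem lam_prod (a b : σ → ℕ) (α : σ → ℕ) (μ d m : ℕ) (hm : m ≤ d)
    (p : Fin m → MvPolynomial (Fin c) K) (e : Fin m → Fin c → K) (l : Fin m → Fin c → σ → K)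
    (h0 : ∀ i, MvPolynomial.eval (fun i => (α i : K)) (junta (p i) (e i) (l i)) ≠ 0) :
    ∃ (V : Submodule K (Y σ K)) (lam : PowerSeries (B σ K)), Closed V ∧ 1 ≤ V ∧
      FiniteDimensional K V ∧ Module.finrank K V ≤ (d + 1) * (μ + 1) ^ c ∧
      Small μ (Fintype.card σ) V lam ∧
      DZ a b K (PhiS α (∏ i, junta (p i) (e i) (l i))) =
        lam * PhiS α (∏ i, junta (p i) (e i) (l i)) := by
  obtain ⟨V, lam, h1, h2, h3, h4, h5, h6⟩ := lam_aux a b α μ m p e l h0
  refine ⟨V, lam, h1, h2, h3, h4.trans ?_, h5, h6⟩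
  have h7 : 1 ≤ (μ + 1) ^ c := Nat.one_le_pow _ _ (Nat.succ_pos μ)
  have h8 : m * (μ + 1) ^ c ≤ d * (μ + 1) ^ c := Nat.mul_le_mul_right _ hm
  rw [add_mul, one_mul]
  omega

end Pool.Agent.SPE
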