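import Pool.Agent.SPE.Nrm

/-!
# SPE: valuation rings: lifting of coordinates and of independence
-/

set_option autoImplicit false

namespace Pool.Agent.SPE

variable {σ : Type*} {O : Type*} [CommRing O] [IsDomain O] [ValuationRing O]
  {K : Type*} [Field K] [Algebra O K] [IsFractionRing O K]

/-- among finitely many elements of `K` one, say `a j₀`, divides all others -/
private theorem norm_fin {r : ℕ} (a : Fin r → K) (j : Fin r) (hj : a j ≠ 0) :
    ∃ (j₀ : Fin r) (o : Fin r → O), a j₀ ≠ 0 ∧
      ValuationRing.valuation O K (a j) ≤ ValuationRing.valuation O K (a j₀) ∧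
      ∀ i, algebraMap O K (o i) = (a j₀)⁻¹ * a i := by
  classical
  obtain ⟨j₀, -, hmax⟩ := Finset.exists_max_image (Finset.univ : Finset (Fin r))
    (fun i => ValuationRing.valuation O K (a i)) ⟨j, Finset.mem_univ j⟩
  have h0 : (ValuationRing.valuation O K) (a j₀) ≠ 0 := by
    intro h
    have h1 := hmax j (Finset.mem_univ j)
    rw [h] at h1
    have h2 : (ValuationRing.valuation O K) (a j) = 0 := le_antisymm h1 zero_le'
    exact hj (((ValuationRing.valuation O K).zero_iff).1 h2)
  have hq : ∀ i, ∃ o : O, algebraMap O K o = (a j₀)⁻¹ * a i := by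
    intro i
    refine (ValuationRing.mem_integer_iff O K _).1 ?_
    show (ValuationRing.valuation O K) ((a j₀)⁻¹ * a i) ≤ 1
    rw [map_mul, map_inv₀]
    calc _ ≤ ((ValuationRing.valuation O K) (a j₀))⁻¹ *
          (ValuationRing.valuation O K) (a j₀) := mul_le_mul_right (hmax i (Finset.mem_univ i)) _
      _ = 1 := inv_mul_cancel₀ h0
  choose o ho using hq
  exact ⟨j₀, o, ((ValuationRing.valuation O K).ne_zero_iff).1 h0, hmax j (Finset.mem_univ j), ho⟩

/-- a relation with coefficients in `O`, one of them `1`, is impossible modulo the maximal ideal -/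
private theorem no_rel {r : ℕ} (w : Fin r → MvPolynomial σ O)
    (hw : LinearIndependent (IsLocalRing.ResidueField O)
        (fun j => MvPolynomial.map (IsLocalRing.residue O) (w j)))
    (o : Fin r → O) (j₀ : Fin r) (h1 : o j₀ = 1)
    (h : MvPolynomial.map (IsLocalRing.residue O) (∑ j, MvPolynomial.C (o j) * w j) = 0) :
    False := by
  rw [map_sum] at h
  simp only [map_mul, MvPolynomial.map_C] at h
  have h2 := Fintype.linearIndependent_iff.1 hw (fun j => IsLocalRing.residue O (o j)) (by
    rw [← h]
    exact Finset.sum_congr rfl fun j _ => MvPolynomial.smul_eq_C_mul _ _) j₀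
  rw [h1, map_one] at h2
  exact one_ne_zero h2

private theorem map_inj : Function.Injective (MvPolynomial.map (σ := σ) (algebraMap O K)) :=
  MvPolynomial.map_injective _ (IsFractionRing.injective O K)

private theorem map_sum_C {r : ℕ} (w : Fin r → MvPolynomial σ O) (o : Fin r → O) (a : Fin r → K)
    (ho : ∀ i, algebraMap O K (o i) = a i) :
    MvPolynomial.map (algebraMap O K) (∑ j, MvPolynomial.C (o j) * w j) =
      ∑ j, a j • MvPolynomial.map (algebraMap O K) (w j) := by
  rw [map_sum]
  refine Finset.sum_congr rfl fun j _ => ?_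
  rw [map_mul, MvPolynomial.map_C, ho, MvPolynomial.smul_eq_C_mul]

/- PLAN. If some `a j` is not in `O`, divide by the `a j` of largest valuation (as in `normalise`):
`c • f = ∑ (c a_j) w_j` with `c ∈ maximal ideal`, all `c a_j ∈ O`, one of them `1`; reduce: a nontrivial
relation between the residues. -/
theorem lift_coord {r : ℕ} (w : Fin r → MvPolynomial σ O)
    (hw : LinearIndependent (IsLocalRing.ResidueField O)
        (fun j => MvPolynomial.map (IsLocalRing.residue O) (w j)))
    (f : MvPolynomial σ O)
    (hf : MvPolynomial.map (algebraMap O K) f ∈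
      Submodule.span K (Set.range fun i => MvPolynomial.map (algebraMap O K) (w i))) :
    ∃ d : Fin r → IsLocalRing.ResidueField O,
      MvPolynomial.map (IsLocalRing.residue O) f =
        ∑ j, d j • MvPolynomial.map (IsLocalRing.residue O) (w j) := by
  obtain ⟨a, ha⟩ := (Submodule.mem_span_range_iff_exists_fun K).1 hf
  by_cases hall : ∀ i, ∃ o : O, algebraMap O K o = a i
  · choose o ho using hall
    have h1 : f = ∑ j, MvPolynomial.C (o j) * w j := by
      apply map_inj (K := K)
      rw [map_sum_C w o a ho, ha]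
    refine ⟨fun j => IsLocalRing.residue O (o j), ?_⟩
    rw [h1, map_sum]
    refine Finset.sum_congr rfl fun j _ => ?_
    rw [map_mul, MvPolynomial.map_C, MvPolynomial.smul_eq_C_mul]
  · exfalso
    obtain ⟨i, hi⟩ := not_forall.1 hall
    have hi0 : a i ≠ 0 := fun h => hi ⟨0, by rw [map_zero, h]⟩
    obtain ⟨j₀, o, h0, hle, ho⟩ := norm_fin (O := O) a i hi0
    have hi1 : 1 < (ValuationRing.valuation O K) (a i) := by
      by_contra h
      exact hi ((ValuationRing.mem_integer_iff O K (a i)).1 (not_lt.1 h))
    have hj1 : 1 < (ValuationRing.valuation O K) (a j₀) := lt_of_lt_of_le hi1 hle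
    obtain ⟨c, hc⟩ : ∃ c : O, algebraMap O K c = (a j₀)⁻¹ := by
      refine (ValuationRing.mem_integer_iff O K _).1 ?_
      show (ValuationRing.valuation O K) ((a j₀)⁻¹) ≤ 1
      rw [map_inv₀]
      exact (inv_lt_one_of_one_lt₀ hj1).le
    have hcm : IsLocalRing.residue O c = 0 := by
      rw [IsLocalRing.residue_eq_zero_iff, IsLocalRing.mem_maximalIdeal, mem_nonunits_iff]
      rintro ⟨u, hu⟩
      have h2 : algebraMap O K ((u⁻¹ : Oˣ) : O) = a j₀ := by
        have h3 : algebraMap O K ((u⁻¹ : Oˣ) : O) * algebraMap O K c = 1 := by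
          rw [← map_mul, ← hu, Units.inv_mul, map_one]
        rw [hc] at h3
        exact (mul_inv_eq_one₀ h0).1 h3
      have h4 : a j₀ ∈ (ValuationRing.valuation O K).integer :=
        (ValuationRing.mem_integer_iff O K (a j₀)).2 ⟨_, h2⟩
      exact absurd hj1 (not_lt.2 h4)
    have h5 : MvPolynomial.C c * f = ∑ j, MvPolynomial.C (o j) * w j := by
      apply map_inj (K := K)
      rw [map_sum_C w o (fun i => (a j₀)⁻¹ * a i) ho, map_mul, MvPolynomial.map_C, hc, ← ha,
        Finset.mul_sum]
      refine Finset.sum_congr rfl fun j _ => ?_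
      rw [MvPolynomial.smul_eq_C_mul, MvPolynomial.smul_eq_C_mul, map_mul, mul_assoc]
    refine no_rel w hw o j₀ ?_ ?_
    · apply IsFractionRing.injective O K
      rw [ho, map_one, inv_mul_cancel₀ h0]
    · rw [← h5, map_mul, MvPolynomial.map_C, hcm, map_zero, zero_mul]

/- Independent residues lift to independent elements. PLAN. A relation over `K`, normalised to have
coefficients in `O`, one of them `1`, reduces to a nontrivial relation. -/
theorem indep_of_residue {r : ℕ} (w : Fin r → MvPolynomial σ O)
    (hw : LinearIndependent (IsLocalRing.ResidueField O)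
        (fun j => MvPolynomial.map (IsLocalRing.residue O) (w j))) :
    LinearIndependent K (fun j => MvPolynomial.map (algebraMap O K) (w j)) := by
  rw [Fintype.linearIndependent_iff]
  intro a ha i
  by_contra hi
  obtain ⟨j₀, o, h0, -, ho⟩ := norm_fin (O := O) a i hi
  refine no_rel w hw o j₀ ?_ ?_
  · apply IsFractionRing.injective O K
    rw [ho, map_one, inv_mul_cancel₀ h0]
  · have h1 : (∑ j, MvPolynomial.C (o j) * w j) = 0 := by
      apply map_inj (K := K)
      rw [map_sum_C w o (fun i => (a j₀)⁻¹ * a i) ho, map_zero]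
      have h2 : ∑ j, ((a j₀)⁻¹ * a j) • MvPolynomial.map (algebraMap O K) (w j) =
          (a j₀)⁻¹ • ∑ j, a j • MvPolynomial.map (algebraMap O K) (w j) := by
        rw [Finset.smul_sum]
        exact Finset.sum_congr rfl fun j _ => mul_smul _ _ _
      rw [h2, ha, smul_zero]
    rw [h1, map_zero]

end Pool.Agent.SPE
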