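import Pool.Agent.SPE.DBTV

/-!
# SPE: the classes `TV` and `Small`
-/

set_option autoImplicit false

namespace Pool.Agent.SPE

open Polynomial

variable {σ : Type*} {K : Type*} [Field K]

theorem TV_mono {q q' : ℕ} {V V' : Submodule K (Y σ K)} (hq : q ≤ q') (hV : V ≤ V') {x : B σ K}
    (hx : TV q V x) : TV q' V' x := ⟨hx.1.trans hq, fun m => hV (hx.2 m)⟩

theorem TV_zero (q : ℕ) (V : Submodule K (Y σ K)) : TV q V (0 : B σ K) := by
  refine ⟨?_, fun m => ?_⟩
  · rw [natDegree_zero]
    exact Nat.zero_le _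
  · rw [coeff_zero]
    exact V.zero_mem

theorem TV_add {q : ℕ} {V : Submodule K (Y σ K)} {x y : B σ K} (hx : TV q V x) (hy : TV q V y) :
    TV q V (x + y) := by
  refine ⟨natDegree_add_le_of_degree_le hx.1 hy.1, fun m => ?_⟩
  rw [coeff_add]
  exact V.add_mem (hx.2 m) (hy.2 m)

private theorem TV_neg {q : ℕ} {V : Submodule K (Y σ K)} {x : B σ K} (hx : TV q V x) : TV q V (-x) := by
  refine ⟨?_, fun m => ?_⟩
  · rw [natDegree_neg]
    exact hx.1
  · rw [coeff_neg]
    exact V.neg_mem (hx.2 m)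

private theorem TV_sum {q : ℕ} {V : Submodule K (Y σ K)} {ι : Type*} (s : Finset ι) (x : ι → B σ K)
    (hx : ∀ i ∈ s, TV q V (x i)) : TV q V (∑ i ∈ s, x i) := by
  classical
  induction s using Finset.induction_on with
  | empty => exact TV_zero q V
  | insert i s hi ih =>
    rw [Finset.sum_insert hi]
    exact TV_add (hx i (Finset.mem_insert_self i s))
      (ih fun j hj => hx j (Finset.mem_insert_of_mem hj))

/- PLAN. `natDegree_mul_le`, `coeff_mul`, `Submodule.mul_mem_mul`. -/
theorem TV_mul {q q' : ℕ} {V V' : Submodule K (Y σ K)} {x y : B σ K} (hx : TV q V x)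
    (hy : TV q' V' y) : TV (q + q') (V * V') (x * y) := by
  refine ⟨natDegree_mul_le_of_le hx.1 hy.1, fun m => ?_⟩
  rw [coeff_mul]
  exact Submodule.sum_mem _ fun p _ => Submodule.mul_mem_mul (hx.2 p.1) (hy.2 p.2)

theorem Small_mono {μ q q' : ℕ} {V V' : Submodule K (Y σ K)} (hq : q ≤ q') (hV : V ≤ V')
    {x : PowerSeries (B σ K)} (hx : Small μ q V x) : Small μ q' V' x :=
  fun m hm => TV_mono hq hV (hx m hm)

theorem Small_zero (μ q : ℕ) (V : Submodule K (Y σ K)) :
    Small μ q V (0 : PowerSeries (B σ K)) := by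
  intro m _
  rw [map_zero]
  exact TV_zero q V

theorem Small_add {μ q : ℕ} {V : Submodule K (Y σ K)} {x y : PowerSeries (B σ K)}
    (hx : Small μ q V x) (hy : Small μ q V y) : Small μ q V (x + y) := by
  intro m hm
  rw [map_add]
  exact TV_add (hx m hm) (hy m hm)

theorem Small_neg {μ q : ℕ} {V : Submodule K (Y σ K)} {x : PowerSeries (B σ K)}
    (hx : Small μ q V x) : Small μ q V (-x) := by
  intro m hm
  rw [map_neg]
  exact TV_neg (hx m hm)

private theorem Small_sum {μ q : ℕ} {V : Submodule K (Y σ K)} {ι : Type*} (s : Finset ι)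
    (x : ι → PowerSeries (B σ K)) (hx : ∀ i ∈ s, Small μ q V (x i)) :
    Small μ q V (∑ i ∈ s, x i) := by
  intro m hm
  rw [map_sum]
  exact TV_sum s _ fun i hi => hx i hi m hm

/- PLAN. `PowerSeries.coeff_mul`, `TV_mul`, sums. -/
theorem Small_mul {μ q q' : ℕ} {V V' : Submodule K (Y σ K)} {x y : PowerSeries (B σ K)}
    (hx : Small μ q V x) (hy : Small μ q' V' y) : Small μ (q + q') (V * V') (x * y) := by
  intro m hm
  rw [PowerSeries.coeff_mul]
  refine TV_sum _ _ fun p hp => ?_
  have h := Finset.HasAntidiagonal.mem_antidiagonal.1 hp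
  exact TV_mul (hx p.1 (by omega)) (hy p.2 (by omega))

private theorem Small_one (μ : ℕ) : Small μ 0 (1 : Submodule K (Y σ K)) (1 : PowerSeries (B σ K)) := by
  intro m _
  rw [PowerSeries.coeff_one]
  split_ifs
  · refine ⟨?_, fun j => ?_⟩
    · rw [natDegree_one]
    · rw [coeff_one]
      split_ifs
      · exact Submodule.one_le.1 le_rfl
      · exact Submodule.zero_mem _
  · exact TV_zero 0 _

/- PLAN. Induction on `s`; `V` arbitrary submodules; empty product: `1 ∈ 1`. -/
theorem Small_prod {μ : ℕ} {ι : Type*} (s : Finset ι) (q : ι → ℕ) (V : ι → Submodule K (Y σ K))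
    (x : ι → PowerSeries (B σ K)) (hx : ∀ i ∈ s, Small μ (q i) (V i) (x i)) :
    Small μ (∑ i ∈ s, q i) (∏ i ∈ s, V i) (∏ i ∈ s, x i) := by
  classical
  induction s using Finset.induction_on with
  | empty =>
    rw [Finset.sum_empty, Finset.prod_empty, Finset.prod_empty]
    exact Small_one μ
  | insert i s hi ih =>
    rw [Finset.sum_insert hi, Finset.prod_insert hi, Finset.prod_insert hi]
    exact Small_mul (hx i (Finset.mem_insert_self i s))
      (ih fun j hj => hx j (Finset.mem_insert_of_mem hj))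

/- PLAN. `Matrix.det_apply`; each term is `± ∏ j, x (τ j) j`, small by `Small_prod` with
`q = fun j => τ j * n`, and `∑ j, τ j * n = ∑ l, l * n` (`Equiv.sum_comp`). -/
theorem Small_det {μ r : ℕ} (n : ℕ) (V : Fin r → Submodule K (Y σ K))
    (x : Matrix (Fin r) (Fin r) (PowerSeries (B σ K)))
    (hx : ∀ l j : Fin r, Small μ ((l : ℕ) * n) (V j) (x l j)) :
    Small μ (∑ l : Fin r, (l : ℕ) * n) (∏ j, V j) x.det := by
  rw [Matrix.det_apply]
  refine Small_sum _ _ fun τ _ => ?_
  have h1 : Small μ (∑ j : Fin r, ((τ j : Fin r) : ℕ) * n) (∏ j, V j) (∏ j, x (τ j) j) :=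
    Small_prod Finset.univ (fun j => ((τ j : Fin r) : ℕ) * n) V (fun j => x (τ j) j)
      fun j _ => hx (τ j) j
  rw [Equiv.sum_comp τ fun l : Fin r => (l : ℕ) * n] at h1
  rcases Int.units_eq_one_or (Equiv.Perm.sign τ) with h | h
  · rw [h, one_smul]
    exact h1
  · rw [h, Units.neg_smul, one_smul]
    exact Small_neg h1

variable [Fintype σ] [DecidableEq σ]

theorem Small_DZ {μ q : ℕ} (a b : σ → ℕ) {V : Submodule K (Y σ K)} (hV : Closed V)
    {x : PowerSeries (B σ K)} (hx : Small μ q V x) :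
    Small μ (q + Fintype.card σ) V (DZ a b K x) := by
  intro m hm
  unfold DZ
  rw [coeff_cwS]
  exact DB_TV a b q V hV _ (hx m hm)

end Pool.Agent.SPE
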