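import Mathlib

/-!
# SPE: bases of distinct orders
-/

set_option autoImplicit false

namespace Pool.Agent.SPE

open PowerSeries

variable {κ : Type*} [Field κ]

/- Linearly independent power series span a space with a basis of distinct orders.
PLAN. Induction on `r`: choose a nonzero combination of smallest order (replace one `f j` with
nonzero coefficient by it; `Nat.find` over all nonzero combinations), subtract multiples of it from
the others to kill their coefficient at this order, apply the induction hypothesis to them.
`Cm` is a product of elementary matrices; alternatively state the induction for subspaces: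
`U` of dimension `r` has a basis with strictly increasing orders, and `Cm` is the matrix between two
bases of the same space (invertible, `Module.Basis.toMatrix`). -/
theorem exists_orders {r : ℕ} (f : Fin r → PowerSeries κ) (hf : LinearIndependent κ f) :
    ∃ (Cm : Matrix (Fin r) (Fin r) κ) (o : Fin r → ℕ), Function.Injective o ∧
      ∀ j, PowerSeries.coeff (o j) (∑ i, Cm j i • f i) ≠ 0 ∧
        ∀ m < o j, PowerSeries.coeff m (∑ i, Cm j i • f i) = 0 := by
  classical
  let S : Set ℕ := {n | ∃ c : Fin r → κ, PowerSeries.coeff n (∑ i, c i • f i) ≠ 0 ∧
    ∀ m < n, PowerSeries.coeff m (∑ i, c i • f i) = 0}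
  have hemb : ∃ o : Fin r → ℕ, Function.Injective o ∧ ∀ j, o j ∈ S := by
    by_cases hfin : S.Finite
    · have _inst : Fintype S := hfin.fintype
      let T : (Fin r → κ) →ₗ[κ] (S → κ) :=
        { toFun := fun c s => PowerSeries.coeff (s : ℕ) (∑ i, c i • f i)
          map_add' := fun c c' => by
            funext s
            simp only [Pi.add_apply, add_smul, Finset.sum_add_distrib, map_add]
          map_smul' := fun a c => by
            funext s
            simp only [Pi.smul_apply, smul_eq_mul, mul_smul, ← Finset.smul_sum, map_smul,
              RingHom.id_apply] }
      have hT : Function.Injective T := by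
        rw [← LinearMap.ker_eq_bot, LinearMap.ker_eq_bot']
        intro c hc
        have h0 : ∑ i, c i • f i = 0 := by
          by_contra hne
          have hex : ∃ n, PowerSeries.coeff n (∑ i, c i • f i) ≠ 0 := by
            by_contra hcon
            push Not at hcon
            exact hne (PowerSeries.ext fun n => by rw [hcon n]; rfl)
          have h1 := Nat.find_spec hex
          have h2 : Nat.find hex ∈ S := ⟨c, h1, fun m hm => by
            have := Nat.find_min hex hm
            push Not at this
            exact this⟩
          exact h1 (congrFun hc ⟨_, h2⟩)
        exact funext (Fintype.linearIndependent_iff.1 hf c h0)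
      have hcard := LinearMap.finrank_le_finrank_of_injective hT
      rw [Module.finrank_fin_fun, Module.finrank_fintype_fun_eq_card] at hcard
      have hc : Fintype.card (Fin r) ≤ Fintype.card S := by rwa [Fintype.card_fin]
      obtain ⟨e⟩ := Function.Embedding.nonempty_of_card_le hc
      exact ⟨fun j => e j, fun i j h => e.injective (Subtype.ext h), fun j => (e j).2⟩
    · have _inst : Infinite S := (Set.infinite_coe_iff).2 hfin
      let e := Infinite.natEmbedding S
      exact ⟨fun j => e j, fun i j h => Fin.ext (e.injective (Subtype.ext h)), fun j => (e j).2⟩
  obtain ⟨o, ho, hS⟩ := hemb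
  choose Cm hCm using hS
  exact ⟨Cm, o, ho, fun j => hCm j⟩

end Pool.Agent.SPE
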